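import Pool.Agent.L7h96.CD.Prob

/-!
A level is good unless it is spoiled by some block.
-/

set_option autoImplicit false

namespace Pool.Agent.L7h96.CD

open MeasureTheory ProbabilityTheory
open scoped NNReal ENNReal
open Pool.Agent.R966.CD (E gam S S_zero S_sub measurable_S OE Small osc_cell near LoOK)
open Pool.Agent.R966.CD.Par (pm small_pm pm_of pm_zero)

namespace Par

variable (P : Par)

/-- good level of the walk -/
structure GG (n j : ℕ) (x : ℤ → E n) : Prop where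
  ret : ∀ u : ℤ, |u| ≤ P.w 0 → ‖S x u‖ < 5 * P.r n j → |u| ≤ P.w j
  osc : ∀ u v : ℤ, |u| ≤ P.w j → |v| ≤ P.w j → P.r n j / 2 < ‖S x u - S x v‖ →
    2^(P.Hk j) ≤ |u - v|
  chain : ∀ c ∈ P.Cs j, ∃ T ⊆ Finset.Ico (c * (P.n1 : ℤ)) ((c + 1) * P.n1), 4 * T.card ≤ P.n1 ∧
    ∀ a ∈ Finset.Ico (c * (P.n1 : ℤ)) ((c + 1) * P.n1), a ∉ T → ∀ u v : ℤ, |u| ≤ P.w j →
      |v| ≤ P.w j → u ≤ a * 2^(P.Hd j 1) → a * 2^(P.Hd j 1) ≤ v →
      ‖S x u - S x v‖ < 5 * P.r n (j+1) → v - u ≤ (P.k0 + 1) * 2^(P.Hd j 1)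

theorem w_pos (i : ℕ) : 0 < P.w i := by unfold w; positivity

theorem loOK (i : ℕ) : LoOK (P.w i) := Or.inr ⟨_, rfl⟩

theorem w_anti {i j : ℕ} (h : i ≤ j) : P.w j ≤ P.w i := by
  unfold w
  apply Nat.pow_le_pow_right (by norm_num)
  have := Nat.mul_le_mul_left (2*P.β) h
  omega

/-- the shell of a point -/
theorem exists_shell {j : ℕ} {a : ℕ} (h1 : P.w j < a) (h0 : a ≤ P.w 0) :
    ∃ i < j, P.w (i+1) < a ∧ a ≤ P.w i := by
  induction j with
  | zero => omega
  | succ j ih =>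
    rcases Nat.lt_or_ge (P.w j) a with h | h
    · obtain ⟨i, hi, h2⟩ := ih h
      exact ⟨i, by omega, h2⟩
    · exact ⟨j, by omega, h1, h⟩

theorem anchor {n : ℕ} {x : ℤ → E n} {i H : ℕ} {ρ : ℝ} (hρ : 0 ≤ ρ) (c : ℕ)
    (hc : P.w (i+1) = c * 2^H) (h : x ∉ OE n (P.w (i+1)) (P.w i) H ρ) (u : ℤ)
    (h1 : P.w (i+1) ≤ |u|) (h2 : |u| ≤ P.w i) :
    ∃ p' : ℤ, p' * 2^H ∈ P.anc i H ∧ ‖S x u - S x (p' * 2^H)‖ ≤ ρ ∧ |u - p' * 2^H| < 2^H := by
  obtain ⟨σ, hσ, hu⟩ := pm_of x u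
  have h1' : P.w (i+1) ≤ u.natAbs := by rw [Int.abs_eq_natAbs] at h1; exact_mod_cast h1
  have h2' : u.natAbs ≤ P.w i := by rw [Int.abs_eq_natAbs] at h2; exact_mod_cast h2
  have hpos : 0 < 2^H := by positivity
  have h3 := osc_cell hρ (P.loOK (i+1)) (small_pm h σ) u.natAbs h1' h2'
  have h4 : P.w (i+1) ≤ u.natAbs / 2^H * 2^H := by
    rw [hc]
    apply Nat.mul_le_mul_right
    rw [Nat.le_div_iff_mul_le hpos, ← hc]
    exact h1'
  rw [max_eq_left h4] at h3
  have h5 := Nat.div_mul_le_self u.natAbs (2^H)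
  have h6 := Nat.lt_div_mul_add (a := u.natAbs) hpos
  refine ⟨if σ then ((u.natAbs / 2^H : ℕ) : ℤ) else -((u.natAbs / 2^H : ℕ) : ℤ), ?_, ?_, ?_⟩
  · rw [P.mem_anc]
    refine ⟨u.natAbs / 2^H, h4, h5.trans h2', ?_⟩
    cases σ
    · right; simp
    · left; simp
  · have e : S x ((if σ then ((u.natAbs / 2^H : ℕ) : ℤ) else -((u.natAbs / 2^H : ℕ) : ℤ)) * 2^H) =
        pm x σ (u.natAbs / 2^H * 2^H) := by
      unfold pm
      cases σ <;> simp
    rw [hσ, e]
    exact h3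
  · have e : ((2^H : ℕ) : ℤ) = (2:ℤ)^H := by push_cast; rfl
    rw [← e]
    have e2 : (if σ then ((u.natAbs / 2^H : ℕ) : ℤ) else -((u.natAbs / 2^H : ℕ) : ℤ)) * ((2^H : ℕ) : ℤ) =
        (if σ then ((u.natAbs / 2^H * 2^H : ℕ) : ℤ) else -((u.natAbs / 2^H * 2^H : ℕ) : ℤ)) := by
      cases σ <;> simp
    rw [e2]
    generalize hq : u.natAbs / 2^H * 2^H = q at h5 h6 ⊢
    cases σ
    · rw [if_neg (by simp)] at hu ⊢
      rw [abs_lt]
      constructor <;> omega
    · rw [if_pos rfl] at hu ⊢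
      rw [abs_lt]
      constructor <;> omega

theorem ret_of {n j : ℕ} (hn : 1 ≤ n) (hj : j < P.k) {x : ℤ → E n}
    (h : ∀ i < j, x ∉ P.Fdown n i (j - i)) (u : ℤ) (hu : |u| ≤ P.w 0)
    (hs : ‖S x u‖ < 5 * P.r n j) : |u| ≤ P.w j := by
  by_contra hcon
  push Not at hcon
  have e1 : |u| = (u.natAbs : ℤ) := Int.abs_eq_natAbs u
  rw [e1] at hcon hu
  obtain ⟨i, hi, h1, h2⟩ := P.exists_shell (j := j) (a := u.natAbs) (by exact_mod_cast hcon)
    (by exact_mod_cast hu)
  have h3 := h i hi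
  unfold Fdown SBd at h3
  rw [Set.mem_union, not_or] at h3
  obtain ⟨h4, h5⟩ := h3
  have hij : i + (j - i) = j := by omega
  rw [hij] at h4 h5
  have hr := P.r_pos hn j
  have hexp := P.exp_le (show j ≤ P.k + 1 by omega)
  have hmul : 2*P.β*(i+1) ≤ 2*P.β*j := Nat.mul_le_mul_left _ (by omega)
  obtain ⟨p', hp, h6, -⟩ := P.anchor hr.le (2^(P.N + 2*P.α - 2*P.β*(i+1) - P.Hd i (j-i))) (by
    rw [← pow_add]
    unfold w Hd
    rw [hij]
    congr 1
    omega) h4 u (by rw [e1]; exact_mod_cast h1.le) (by rw [e1]; exact_mod_cast h2)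
  simp only [Set.mem_iUnion, not_exists] at h5
  obtain ⟨p, hpe⟩ : ∃ p : ℤ, p = p' * 2^(P.Hd i (j-i)) := ⟨_, rfl⟩
  rw [← hpe] at hp h6
  have h7 := h5 p hp
  simp only [Set.mem_ofPred_eq, S_zero, sub_zero, not_le] at h7
  have h8 : ‖S x p‖ ≤ ‖S x u‖ + ‖S x u - S x p‖ := by
    have : S x p = S x u - (S x u - S x p) := by abel
    calc ‖S x p‖ = ‖S x u - (S x u - S x p)‖ := by rw [← this]
      _ ≤ _ := norm_sub_le _ _
  linarith

/-- the cells close to the centre -/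
theorem inner {n j : ℕ} (hn : 1 ≤ n) {x : ℤ → E n}
    (hup : ∀ i, j < i → i < P.k → x ∉ P.Fup n i (i - j)) (hc : x ∉ P.Fcore n (P.k - j)) :
    ∀ m i, i + m = P.k → j + 1 ≤ i → ∀ u : ℕ, u ≤ P.w i → ∀ σ,
      ‖pm x σ u‖ ≤ 2 * P.Dc * P.r n (j+1) * (1/2)^(i-j-1) := by
  have hr := P.r_pos hn (j+1)
  have hD := P.Dc_pos
  have hrad : ∀ i, j + 1 ≤ i → P.Dc * P.r n i * ((2:ℝ)^P.β / 2)^(i-j-1) =
      P.Dc * P.r n (j+1) * (1/2)^(i-j-1) := by
    intro i hi
    have e1 : i = (j+1) + (i-j-1) := by omega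
    have e2 := P.r_shift n (j+1) (i-j-1)
    rw [← e1] at e2
    rw [e2, div_pow, div_pow, one_pow, ← pow_mul]
    field_simp
  intro m
  induction m with
  | zero =>
    intro i hi hji u hu σ
    have hik : i = P.k := by omega
    subst hik
    unfold Fcore at hc
    have hr2 := P.r_pos hn P.k
    have h3 := osc_cell (by positivity) (Or.inl rfl) (small_pm hc σ) u (Nat.zero_le _) hu
    have hexp := P.exp_le (show P.k ≤ P.k + 1 by omega)
    have h4 : u / 2^(P.N + 2*P.α + 1 - 2*P.β*P.k) = 0 := by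
      apply Nat.div_eq_of_lt
      refine lt_of_le_of_lt hu ?_
      unfold w
      exact Nat.pow_lt_pow_right (by norm_num) (by omega)
    rw [h4, zero_mul, max_self, pm_zero, sub_zero, hrad P.k hji] at h3
    have : (0:ℝ) ≤ P.Dc * P.r n (j+1) * (1/2)^(P.k-j-1) := by positivity
    linarith
  | succ m ih =>
    intro i hi hji u hu σ
    have h1 := ih (i+1) (by omega) (by omega)
    rcases Nat.lt_or_ge (P.w (i+1)) u with h2 | h2
    · have h5 := hup i (by omega) (by omega)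
      unfold Fup at h5
      have hr2 := P.r_pos hn i
      have h3 := osc_cell (by positivity) (P.loOK (i+1)) (small_pm h5 σ) u h2.le hu
      have hexp := P.exp_le (show i ≤ P.k + 1 by omega)
      have h4 : u / 2^(P.N + 2*P.α + 1 - 2*P.β*i) = 0 := by
        apply Nat.div_eq_of_lt
        refine lt_of_le_of_lt hu ?_
        unfold w
        exact Nat.pow_lt_pow_right (by norm_num) (by omega)
      rw [h4, zero_mul, max_eq_right (Nat.zero_le _), hrad i hji] at h3
      have h6 := h1 (P.w (i+1)) le_rfl σ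
      have e1 : i + 1 - j - 1 = (i - j - 1) + 1 := by omega
      rw [e1, pow_succ] at h6
      have h8 : ‖pm x σ u‖ ≤ ‖pm x σ u - pm x σ (P.w (i+1))‖ + ‖pm x σ (P.w (i+1))‖ := by
        have := norm_add_le (pm x σ u - pm x σ (P.w (i+1))) (pm x σ (P.w (i+1)))
        rwa [sub_add_cancel] at this
      linarith
    · refine (h1 u h2 σ).trans ?_
      apply mul_le_mul_of_nonneg_left _ (by positivity)
      exact pow_le_pow_of_le_one (by norm_num) (by norm_num) (by omega)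

theorem inner' {n j : ℕ} (hn : 1 ≤ n) (hj : j < P.k) {x : ℤ → E n}
    (hup : ∀ i, j < i → i < P.k → x ∉ P.Fup n i (i - j)) (hc : x ∉ P.Fcore n (P.k - j))
    (u : ℤ) (hu : |u| ≤ P.w (j+1)) : ‖S x u‖ ≤ 2 * P.Dc * P.r n (j+1) := by
  obtain ⟨σ, h1, -⟩ := pm_of x u
  rw [h1]
  have h2 := P.inner hn hup hc (P.k - (j+1)) (j+1) (by omega) le_rfl u.natAbs (by
    rw [Int.abs_eq_natAbs] at hu; exact_mod_cast hu) σ
  have e : j + 1 - j - 1 = 0 := by omega
  rwa [e, pow_zero, mul_one] at h2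

theorem hd_dvd {j : ℕ} (hj : j < P.k) :
    P.w (j+1) = 2^(P.N + 2*P.α - 2*P.β*(j+1) - P.Hd j 1) * 2^(P.Hd j 1) := by
  have hexp := P.exp_le (show j + 1 ≤ P.k + 1 by omega)
  rw [← pow_add]
  unfold w Hd
  congr 1
  omega

theorem s2 {j : ℕ} (hj : j < P.k) : 4 * 2^(P.Hd j 1) ≤ P.sp j := by
  have hexp := P.exp_le (show j + 1 ≤ P.k + 1 by omega)
  have h2 := P.β_pos
  unfold sp Hd
  have : 4 = 2^2 := by norm_num
  rw [this, ← pow_add]
  refine Nat.pow_le_pow_right (by norm_num) ?_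
  have e : 2*P.β*(j+1) = 2*P.β*j + 2*P.β := by ring
  omega

theorem sep_of {n j : ℕ} (hn : 1 ≤ n) (hj : j < P.k) {x : ℤ → E n} (hown : x ∉ P.Fown n j)
    (hup : ∀ i, j < i → i < P.k → x ∉ P.Fup n i (i - j)) (hc : x ∉ P.Fcore n (P.k - j))
    (u v : ℤ) (hu : |u| ≤ P.w j) (hv : |v| ≤ P.w j) (hs : ‖S x u - S x v‖ < 5 * P.r n (j+1)) :
    |u - v| ≤ 2 * P.sp j := by
  have hr := P.r_pos hn (j+1)
  have hexp := P.exp_le (show j + 1 ≤ P.k + 1 by omega)
  unfold Fown at hown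
  rw [Set.mem_union, Set.mem_union, Set.mem_union, Set.mem_union, not_or, not_or, not_or,
    not_or] at hown
  obtain ⟨⟨⟨-, h1⟩, h2, h3⟩, -⟩ := hown
  -- the scales
  have s1 : 2 * P.w (j+1) ≤ P.sp j := P.w_le_sp (by omega)
  have s2 : 4 * 2^(P.Hd j 1) ≤ P.sp j := P.s2 hj
  have s1' : 2 * (P.w (j+1) : ℤ) ≤ P.sp j := by exact_mod_cast s1
  have s2' : 4 * (2:ℤ)^(P.Hd j 1) ≤ P.sp j := by exact_mod_cast s2
  have hw0 : (0:ℤ) ≤ P.w (j+1) := Int.natCast_nonneg _
  have hH0 : (0:ℤ) ≤ (2:ℤ)^(P.Hd j 1) := by positivity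
  -- pairs in order
  have hpair : ∀ a b : ℤ, a ≤ b → |a| ≤ P.w j → |b| ≤ P.w j → ‖S x b - S x a‖ < 5 * P.r n (j+1) →
      b - a ≤ 2 * P.sp j := by
    intro a b hab ha hb hsab
    by_contra hcon
    push Not at hcon
    have h2' : ∀ p q, p ∈ P.anc j (P.Hd j 1) → q ∈ P.anc j (P.Hd j 1) → p + P.sp j ≤ q →
        7 * P.r n (j+1) < ‖S x q - S x p‖ := by
      intro p q hp hq hpq
      unfold SBp at h2
      simp only [Set.mem_iUnion, not_exists] at h2
      have := h2 (p, q) (Finset.mem_filter.mpr ⟨Finset.mem_product.mpr ⟨hp, hq⟩, hpq⟩)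
      simpa only [Set.mem_ofPred_eq, not_le] using this
    have h3' : ∀ p, p ∈ P.anc j (P.Hd j 1) → (P.sp j : ℤ) ≤ |p| → (2 * P.Dc + 6) * P.r n (j+1) < ‖S x p‖ := by
      intro p hp hpp
      unfold SBc at h3
      simp only [Set.mem_iUnion, not_exists] at h3
      have := h3 p (Finset.mem_filter.mpr ⟨hp, hpp⟩)
      simpa only [Set.mem_ofPred_eq, not_le, S_zero, sub_zero] using this
    -- a point of the shell and a point of the core
    have hmix : ∀ c d : ℤ, |c| ≤ P.w (j+1) → P.w (j+1) ≤ |d| → |d| ≤ P.w j →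
        2 * (P.sp j : ℤ) ≤ |d - c| → 5 * P.r n (j+1) ≤ ‖S x d - S x c‖ := by
      intro c d hc' hd1 hd2 hcd
      obtain ⟨p', hp, h6, h7⟩ := P.anchor hr.le _ (P.hd_dvd hj) h1 d hd1 hd2
      obtain ⟨p, hpe⟩ : ∃ p : ℤ, p = p' * 2^(P.Hd j 1) := ⟨_, rfl⟩
      rw [← hpe] at hp h6 h7
      rw [abs_lt] at h7
      have h8 := P.inner' hn hj hup hc c hc'
      have h9 : (P.sp j : ℤ) ≤ |p| := by
        rw [abs_le] at hc'
        rw [le_abs] at hcd ⊢
        omega
      have h10 := h3' p hp h9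
      have h11 : ‖S x p‖ ≤ ‖S x d - S x c‖ + ‖S x c‖ + ‖S x d - S x p‖ := by
        have e : S x p = (S x d - S x c) + S x c - (S x d - S x p) := by abel
        calc ‖S x p‖ = ‖(S x d - S x c) + S x c - (S x d - S x p)‖ := by rw [← e]
          _ ≤ ‖(S x d - S x c) + S x c‖ + ‖S x d - S x p‖ := norm_sub_le _ _
          _ ≤ _ := by have := norm_add_le (S x d - S x c) (S x c); linarith
      linarith
    rcases le_total |a| (P.w (j+1) : ℤ) with ca | ca
    · rcases le_total |b| (P.w (j+1) : ℤ) with cb | cb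
      · rw [abs_le] at ca cb
        omega
      · have := hmix a b ca cb hb (by rw [abs_of_nonneg (by omega)]; omega)
        linarith
    · rcases le_total |b| (P.w (j+1) : ℤ) with cb | cb
      · have := hmix b a cb ca ha (by rw [abs_sub_comm, abs_of_nonneg (by omega)]; omega)
        rw [norm_sub_rev] at this
        linarith
      · obtain ⟨p', hp, h6, h7⟩ := P.anchor hr.le _ (P.hd_dvd hj) h1 a ca ha
        obtain ⟨q', hq, h8, h9⟩ := P.anchor hr.le _ (P.hd_dvd hj) h1 b cb hb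
        obtain ⟨p, hpe⟩ : ∃ p : ℤ, p = p' * 2^(P.Hd j 1) := ⟨_, rfl⟩
        rw [← hpe] at hp h6 h7
        obtain ⟨q, hqe⟩ : ∃ q : ℤ, q = q' * 2^(P.Hd j 1) := ⟨_, rfl⟩
        rw [← hqe] at hq h8 h9
        have h10 := h2' p q hp hq (by
          rw [abs_lt] at h7 h9
          omega)
        have h11 : ‖S x q - S x p‖ ≤ ‖S x b - S x a‖ + ‖S x a - S x p‖ + ‖S x b - S x q‖ := by
          have e : S x q - S x p = (S x b - S x a) + (S x a - S x p) - (S x b - S x q) := by abel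
          calc ‖S x q - S x p‖ = ‖(S x b - S x a) + (S x a - S x p) - (S x b - S x q)‖ := by rw [← e]
            _ ≤ ‖(S x b - S x a) + (S x a - S x p)‖ + ‖S x b - S x q‖ := norm_sub_le _ _
            _ ≤ _ := by have := norm_add_le (S x b - S x a) (S x a - S x p); linarith
        linarith
  rcases le_total u v with huv | huv
  · have := hpair u v huv hu hv (by rwa [norm_sub_rev])
    rw [abs_sub_comm, abs_of_nonneg (by omega)]
    exact this
  · have := hpair v u huv hv hu hs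
    rw [abs_of_nonneg (by omega)]
    exact this

theorem osc_of {n j : ℕ} (hn : 1 ≤ n) (hj : j < P.k) {x : ℤ → E n} (hown : x ∉ P.Fown n j)
    (hup : ∀ i, j < i → i < P.k → x ∉ P.Fup n i (i - j)) (hc : x ∉ P.Fcore n (P.k - j))
    (u v : ℤ) (hu : |u| ≤ P.w j) (hv : |v| ≤ P.w j) (hs : P.r n j / 2 < ‖S x u - S x v‖) :
    2^(P.Hk j) ≤ |u - v| := by
  by_contra hcon
  push Not at hcon
  have hr := P.r_pos hn (j+1)
  have hr0 := P.r_pos hn j
  have hexp := P.exp_le (show j + 1 ≤ P.k + 1 by omega)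
  unfold Fown at hown
  rw [Set.mem_union, Set.mem_union, Set.mem_union, Set.mem_union, not_or, not_or, not_or,
    not_or] at hown
  obtain ⟨⟨⟨h1, -⟩, -, -⟩, -⟩ := hown
  have hH1 : 1 ≤ P.Hk j := by
    unfold Hk
    have := P.exp_le (show j ≤ P.k + 1 by omega)
    omega
  have hratio : 4 * P.Dc * P.r n (j+1) ≤ P.r n j / 16 := by
    rw [P.r_shift n j 1, mul_one]
    have h2 := P.hβ
    have h3 := P.hα
    have h4 : (2:ℝ)^P.β = 2^(3*P.α - P.q - 6) * P.Dc := by
      unfold Dc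
      rw [← pow_add]
      congr 1
      omega
    have hD := P.Dc_pos
    have h5 : (64:ℝ) ≤ 2^(3*P.α - P.q - 6) := by
      calc (64:ℝ) = 2^6 := by norm_num
        _ ≤ _ := pow_le_pow_right₀ (by norm_num) (by omega)
    rw [h4]
    have h6 : 4 * P.Dc * (P.r n j / (2^(3*P.α - P.q - 6) * P.Dc)) = 4 * P.r n j / 2^(3*P.α - P.q - 6) := by
      field_simp
    rw [h6, div_le_div_iff₀ (by positivity) (by norm_num)]
    nlinarith
  -- points close to the edge of the core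
  have hedge : ∀ (σ : Bool) (a : ℕ), a ≤ P.w j → a ≤ P.w (j+1) + 2^(P.Hk j) →
      ‖pm x σ a‖ ≤ 3 * (P.r n j / 32) + 2 * P.Dc * P.r n (j+1) := by
    intro σ a ha1 ha2
    rcases Nat.lt_or_ge (P.w (j+1)) a with h2 | h2
    · have h3 := near (by positivity) (P.loOK (j+1)) hH1 (small_pm h1 σ) (P.w (j+1)) a le_rfl h2.le
        ha1 ha2
      have h4 := P.inner hn hup hc (P.k - (j+1)) (j+1) (by omega) le_rfl (P.w (j+1)) le_rfl σ
      have e : j + 1 - j - 1 = 0 := by omega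
      rw [e, pow_zero, mul_one] at h4
      have h8 : ‖pm x σ a‖ ≤ ‖pm x σ a - pm x σ (P.w (j+1))‖ + ‖pm x σ (P.w (j+1))‖ := by
        have := norm_add_le (pm x σ a - pm x σ (P.w (j+1))) (pm x σ (P.w (j+1)))
        rwa [sub_add_cancel] at this
      linarith
    · have h4 := P.inner hn hup hc (P.k - (j+1)) (j+1) (by omega) le_rfl a h2 σ
      have e : j + 1 - j - 1 = 0 := by omega
      rw [e, pow_zero, mul_one] at h4
      linarith
  obtain ⟨σ, hσ, hu'⟩ := pm_of x u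
  obtain ⟨τ, hτ, hv'⟩ := pm_of x v
  have hua : u.natAbs ≤ P.w j := by rw [Int.abs_eq_natAbs] at hu; exact_mod_cast hu
  have hva : v.natAbs ≤ P.w j := by rw [Int.abs_eq_natAbs] at hv; exact_mod_cast hv
  have hcast : ((2^(P.Hk j) : ℕ) : ℤ) = (2:ℤ)^(P.Hk j) := by push_cast; rfl
  rw [← hcast] at hcon
  -- same sign, both in the shell
  by_cases hsame : σ = τ ∧ P.w (j+1) ≤ u.natAbs ∧ P.w (j+1) ≤ v.natAbs
  · obtain ⟨rfl, hu1, hv1⟩ := hsame
    have hd : u.natAbs ≤ v.natAbs + 2^(P.Hk j) ∧ v.natAbs ≤ u.natAbs + 2^(P.Hk j) := by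
      rw [abs_lt] at hcon
      cases σ
      · rw [if_neg (by simp)] at hu' hv'
        omega
      · rw [if_pos rfl] at hu' hv'
        omega
    have h5 : ‖S x u - S x v‖ ≤ 3 * (P.r n j / 32) := by
      rw [hσ, hτ]
      rcases le_total u.natAbs v.natAbs with h | h
      · rw [norm_sub_rev]
        exact near (by positivity) (P.loOK (j+1)) hH1 (small_pm h1 σ) _ _ hu1 h hva hd.2
      · exact near (by positivity) (P.loOK (j+1)) hH1 (small_pm h1 σ) _ _ hv1 h hua hd.1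
    linarith
  · have hd : u.natAbs ≤ P.w (j+1) + 2^(P.Hk j) ∧ v.natAbs ≤ P.w (j+1) + 2^(P.Hk j) := by
      rw [abs_lt] at hcon
      by_contra hcc
      apply hsame
      have hcast2 : (0:ℤ) ≤ ((2^(P.Hk j) : ℕ) : ℤ) := Int.natCast_nonneg _
      generalize (2^(P.Hk j) : ℕ) = q at hcon hcc hcast2
      generalize u.natAbs = a at hu' hcc ⊢
      generalize v.natAbs = b at hv' hcc ⊢
      cases σ
      · cases τ
        · rw [if_neg (by simp)] at hu' hv'
          exact ⟨rfl, by omega, by omega⟩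
        · rw [if_neg (by simp)] at hu'
          rw [if_pos rfl] at hv'
          exfalso
          omega
      · cases τ
        · rw [if_neg (by simp)] at hv'
          rw [if_pos rfl] at hu'
          exfalso
          omega
        · rw [if_pos rfl] at hu' hv'
          exact ⟨rfl, by omega, by omega⟩
    have h5 := hedge σ u.natAbs hua hd.1
    have h6 := hedge τ v.natAbs hva hd.2
    have h7 := norm_sub_le (S x u) (S x v)
    rw [hσ, hτ] at h7
    rw [hσ, hτ] at hs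
    linarith

/-- the anchors of a macroscopic block -/
theorem chain_of {n j : ℕ} (hn : 1 ≤ n) (hj : j < P.k) {x : ℤ → E n} (hown : x ∉ P.Fown n j)
    (hup : ∀ i, j < i → i < P.k → x ∉ P.Fup n i (i - j)) (hc : x ∉ P.Fcore n (P.k - j))
    (c : ℤ) (hcs : c ∈ P.Cs j) :
    ∃ T ⊆ Finset.Ico (c * (P.n1 : ℤ)) ((c + 1) * P.n1), 4 * T.card ≤ P.n1 ∧
    ∀ a ∈ Finset.Ico (c * (P.n1 : ℤ)) ((c + 1) * P.n1), a ∉ T → ∀ u v : ℤ, |u| ≤ P.w j →
      |v| ≤ P.w j → u ≤ a * 2^(P.Hd j 1) → a * 2^(P.Hd j 1) ≤ v →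
      ‖S x u - S x v‖ < 5 * P.r n (j+1) → v - u ≤ (P.k0 + 1) * 2^(P.Hd j 1) := by
  classical
  have hsep := P.sep_of hn hj hown hup hc
  have hr := P.r_pos hn (j+1)
  have hn1 := P.n1_eq
  have hm := P.m_pos
  have hmH : (P.m : ℤ) * 2^(P.Hd j 1) = 4 * P.sp j := by exact_mod_cast P.mH j (by omega)
  have hspw : (2:ℤ) * P.w (j+1) ≤ P.sp j := by exact_mod_cast P.w_le_sp (show j + 1 ≤ P.k by omega)
  have hH := P.H_pos j
  unfold Fown at hown
  rw [Set.mem_union, Set.mem_union, Set.mem_union, Set.mem_union, not_or, not_or, not_or,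
    not_or] at hown
  obtain ⟨⟨⟨-, h1⟩, -, -⟩, hmeso⟩ := hown
  have s2 : 4 * 2^(P.Hd j 1) ≤ P.sp j := P.s2 hj
  have s2' : 4 * (2:ℤ)^(P.Hd j 1) ≤ P.sp j := by exact_mod_cast s2
  have h2m : 2 * P.m ≤ P.n1 := by
    rw [hn1]
    have : 1 ≤ 2^(P.β - 2) := Nat.one_le_two_pow
    nlinarith
  have h2m' : (2:ℤ) * P.m ≤ P.n1 := by exact_mod_cast h2m
  have hsp0 : (0:ℤ) < P.sp j := by linarith
  have hw0 : (0:ℤ) ≤ P.w (j+1) := Int.natCast_nonneg _
  have hcs' := hcs
  unfold Cs at hcs'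
  rw [Finset.mem_filter] at hcs'
  obtain ⟨-, ⟨hc1, hc2⟩, -, -⟩ := hcs'
  have hpow : 2^(P.β-2) = 4 * 2^(P.β-4) := by
    have := P.β_pos
    rw [show (4:ℕ) = 2^2 by norm_num, ← pow_add]
    congr 1
    omega
  refine ⟨(Finset.Ico (c * (P.n1 : ℤ)) ((c + 1) * P.n1)).filter fun a => x ∈ P.Cov n j a,
    Finset.filter_subset _ _, ?_, ?_⟩
  · -- there are few covered anchors
    by_contra hcon
    push Not at hcon
    obtain ⟨T, hT⟩ : ∃ T, T = (Finset.Ico (c * (P.n1 : ℤ)) ((c + 1) * P.n1)).filter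
      fun a => x ∈ P.Cov n j a := ⟨_, rfl⟩
    rw [← hT] at hcon
    have hmaps : ∀ a ∈ T, (a - c * P.n1).toNat % (4 * P.m) ∈ Finset.range (4 * P.m) := by
      intro a _
      rw [Finset.mem_range]
      exact Nat.mod_lt _ (by omega)
    have hlt : (Finset.range (4 * P.m)).card * 2^(P.β-4) < T.card := by
      rw [Finset.card_range]
      rw [hn1, hpow] at hcon
      nlinarith
    obtain ⟨e, he, hecard⟩ := Finset.exists_lt_card_fiber_of_mul_lt_card_of_maps_to hmaps hlt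
    obtain ⟨U, hU⟩ : ∃ U, U = T.filter fun a => (a - c * P.n1).toNat % (4 * P.m) = e := ⟨_, rfl⟩
    rw [← hU] at hecard
    have hmemU : ∀ a ∈ U, a = c * P.n1 + (((a - c * P.n1).toNat / (4 * P.m)) * (4 * P.m) + e : ℕ) ∧
        (a - c * P.n1).toNat / (4 * P.m) < 2^(P.β-2) ∧ x ∈ P.Cov n j a := by
      intro a ha
      rw [hU, Finset.mem_filter, hT, Finset.mem_filter, Finset.mem_Ico] at ha
      obtain ⟨⟨⟨ha1, ha2⟩, ha3⟩, ha4⟩ := ha
      refine ⟨?_, ?_, ha3⟩
      · have h3 := Nat.div_add_mod' (a - c * P.n1).toNat (4 * P.m)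
        rw [ha4] at h3
        rw [h3, Int.toNat_of_nonneg (by linarith)]
        ring
      · rw [Nat.div_lt_iff_lt_mul (by omega), ← hn1]
        zify
        rw [Int.toNat_of_nonneg (by linarith)]
        linarith
    have hinj : Set.InjOn (fun a : ℤ => (a - c * P.n1).toNat / (4 * P.m)) U := by
      intro a ha b hb hab
      have h3 := (hmemU a ha).1
      have h4 := (hmemU b hb).1
      beta_reduce at hab
      rw [hab] at h3
      rw [h3, ← h4]
    have hcardi := Finset.card_image_of_injOn hinj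
    obtain ⟨T', hT', hT'c⟩ := Finset.exists_subset_card_eq (s := U.image
      fun a : ℤ => (a - c * P.n1).toNat / (4 * P.m)) (n := 2^(P.β-4)) (by rw [hcardi]; omega)
    apply hmeso
    unfold Meso
    simp only [Set.mem_iUnion]
    refine ⟨c, hcs, e, he, T', ?_, ?_⟩
    · rw [Finset.mem_powersetCard]
      refine ⟨?_, hT'c⟩
      intro k hk
      obtain ⟨a, ha, hka⟩ := Finset.mem_image.mp (hT' hk)
      rw [Finset.mem_range, ← hka]
      exact (hmemU a ha).2.1
    · simp only [Set.mem_iInter]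
      intro k hk
      obtain ⟨a, ha, hka⟩ := Finset.mem_image.mp (hT' hk)
      have h3 := (hmemU a ha).1
      beta_reduce at hka
      rw [hka] at h3
      rw [← h3]
      exact (hmemU a ha).2.2
  · intro a ha haT u v hu hv hua hav hs
    rw [Finset.mem_filter, not_and] at haT
    have hcov := haT ha
    rw [Finset.mem_Ico] at ha
    have hvu : v - u ≤ 2 * P.sp j := by
      have h3 := hsep u v hu hv hs
      rw [abs_sub_comm, abs_of_nonneg (by linarith)] at h3
      exact h3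
    -- the two points are far from the core
    have hfar : (P.w (j+1) : ℤ) ≤ |u| ∧ (P.w (j+1) : ℤ) ≤ |v| := by
      rcases lt_or_ge c 0 with h | h
      · have hc' : c + 1 ≤ -1 := by omega
        have h3 : a + 1 ≤ -(2 * P.m) := by nlinarith [ha.2]
        have h4 : (a + 1) * 2^(P.Hd j 1) ≤ -(2 * P.m) * 2^(P.Hd j 1) :=
          mul_le_mul_of_nonneg_right h3 hH.le
        have h4' : a * 2^(P.Hd j 1) ≤ - (8 * P.sp j) := by
          have e1 : (a + 1) * (2:ℤ)^(P.Hd j 1) = a * 2^(P.Hd j 1) + 2^(P.Hd j 1) := by ring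
          have e2 : -(2 * (P.m : ℤ)) * 2^(P.Hd j 1) = - (8 * P.sp j) := by
            rw [neg_mul, mul_assoc, hmH]; ring
          rw [e1, e2] at h4
          linarith
        have h5 : u < 0 := by linarith
        have h6 : v < 0 := by linarith
        rw [abs_of_neg h5, abs_of_neg h6]
        constructor <;> linarith
      · have hc' : 1 ≤ c := by omega
        have h3 : 2 * (P.m : ℤ) ≤ a := by nlinarith [ha.1]
        have h4 : (2 * (P.m : ℤ)) * 2^(P.Hd j 1) ≤ a * 2^(P.Hd j 1) :=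
          mul_le_mul_of_nonneg_right h3 hH.le
        have h4' : 8 * (P.sp j : ℤ) ≤ a * 2^(P.Hd j 1) := by
          have e2 : (2 * (P.m : ℤ)) * 2^(P.Hd j 1) = 8 * P.sp j := by
            rw [mul_assoc, hmH]; ring
          rw [e2] at h4
          exact h4
        have h5 : 0 < v := by linarith
        have h6 : 0 < u := by linarith
        rw [abs_of_pos h5, abs_of_pos h6]
        constructor <;> linarith
    obtain ⟨p, hp, h6, h7⟩ := P.anchor hr.le _ (P.hd_dvd hj) h1 u hfar.1 hu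
    obtain ⟨q, hq, h8, h9⟩ := P.anchor hr.le _ (P.hd_dvd hj) h1 v hfar.2 hv
    rw [abs_lt] at h7 h9
    have hpa : p ≤ a := by
      have : p * 2^(P.Hd j 1) < (a + 1) * 2^(P.Hd j 1) := by linarith
      have := lt_of_mul_lt_mul_right this hH.le
      omega
    have haq : a ≤ q := by
      have : (a - 1) * 2^(P.Hd j 1) < q * 2^(P.Hd j 1) := by linarith
      have := lt_of_mul_lt_mul_right this hH.le
      omega
    by_contra hcon
    push Not at hcon
    have hk1 : (P.k0 : ℤ) ≤ q - p := by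
      by_contra hcc
      push Not at hcc
      have h10 : (q - p) * 2^(P.Hd j 1) ≤ (P.k0 - 1) * 2^(P.Hd j 1) :=
        mul_le_mul_of_nonneg_right (by omega) hH.le
      linarith
    have hk2 : q - p ≤ P.m := by
      by_contra hcc
      push Not at hcc
      have h10 : (P.m : ℤ) * 2^(P.Hd j 1) ≤ (q - p) * 2^(P.Hd j 1) :=
        mul_le_mul_of_nonneg_right hcc.le hH.le
      linarith
    apply hcov
    unfold Cov
    simp only [Set.mem_iUnion]
    refine ⟨(q - p).toNat, ?_, (a - p).toNat, ?_, ?_⟩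
    · rw [Finset.mem_Icc]
      omega
    · rw [Finset.mem_range]
      omega
    · rw [Set.mem_ofPred_eq, Int.toNat_of_nonneg (by omega), Int.toNat_of_nonneg (by omega)]
      have e1 : a - (a - p) + (q - p) = q := by ring
      have e2 : a - (a - p) = p := by ring
      rw [e1, e2]
      have h11 : ‖S x (q * 2^(P.Hd j 1)) - S x (p * 2^(P.Hd j 1))‖ ≤ ‖S x u - S x v‖ +
          ‖S x u - S x (p * 2^(P.Hd j 1))‖ + ‖S x v - S x (q * 2^(P.Hd j 1))‖ := by
        rw [norm_sub_rev (S x u) (S x v)]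
        have e : S x (q * 2^(P.Hd j 1)) - S x (p * 2^(P.Hd j 1)) = (S x v - S x u) +
          (S x u - S x (p * 2^(P.Hd j 1))) - (S x v - S x (q * 2^(P.Hd j 1))) := by abel
        rw [e]
        refine (norm_sub_le _ _).trans ?_
        have := norm_add_le (S x v - S x u) (S x u - S x (p * 2^(P.Hd j 1)))
        linarith
      linarith

/-- **attribution** -/
theorem good_of {n j : ℕ} (hn : 1 ≤ n) (hj : j < P.k) {x : ℤ → E n}
    (hdown : ∀ i < j, x ∉ P.Fdown n i (j - i)) (hown : x ∉ P.Fown n j)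
    (hup : ∀ i, j < i → i < P.k → x ∉ P.Fup n i (i - j)) (hc : x ∉ P.Fcore n (P.k - j)) :
    P.GG n j x where
  ret u hu hs := P.ret_of hn hj hdown u hu hs
  osc u v hu hv hs := P.osc_of hn hj hown hup hc u v hu hv hs
  chain c hcs := P.chain_of hn hj hown hup hc c hcs

end Par

end Pool.Agent.L7h96.CD
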