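import Pool.Agent.R966.CD.Cover

/-!
The events of the blocks and their conditional probabilities (new parameters: all the thresholds
depend on the ratio of the radii, the dimension is fixed).
-/

set_option autoImplicit false

namespace Pool.Agent.L7h96.CD

open MeasureTheory ProbabilityTheory
open scoped NNReal ENNReal
open Pool.Agent.R966.CD (E gam S S_zero S_sub measurable_S Q Q_eq Q_mono Q_union Q_biUnion Q_small
  Q_large OE measurable_OE Q_OE)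

/-- parameters: resolution `2 ^ (-N)`, ratio of the radii `2 ^ β`, `β = 4 α`, number of levels `k`,
a bound `2 ^ q` of `β` -/
structure Par where
  N : ℕ
  β : ℕ
  α : ℕ
  q : ℕ
  k : ℕ
  hβ : β = 4 * α
  hq : β ≤ 2^q
  hα : 100 * (q + 50) ≤ α
  hN : 2 * β * (k + 2) + 2 * k + 100 + q ≤ N

namespace Par

variable (P : Par)

/-- variance of a cell -/
noncomputable def v : ℝ≥0 := ((2:ℝ≥0)^P.N)⁻¹

theorem v_pos : 0 < P.v := by unfold v; positivity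

/-- window of level `i`, in cells -/
def w (i : ℕ) : ℕ := 2^(P.N + 2*P.α - 2*P.β*i)

/-- scale of the cells for the returns -/
def Hd (i l : ℕ) : ℕ := P.N - 2*P.β*(i+l) - 11 - l - P.q

/-- scale of the cells for the oscillations -/
def Hk (i : ℕ) : ℕ := P.N - 2*P.β*i - 21 - P.q

/-- half of the separation scale -/
def sp (i : ℕ) : ℕ := 2^(P.N - 2*P.β*i - P.β - 27 - P.q)

/-- radius of level `i` -/
noncomputable def r (n : ℕ) (i : ℕ) : ℝ := Real.sqrt n / 2^(P.β*i)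

/-- bound for the displacement in the core -/
noncomputable def Dc : ℝ := 2^(P.α + P.q + 6)

theorem exp_le {i : ℕ} (h : i ≤ P.k + 1) : 2*P.β*i + 2 * P.β + 2 * P.k + 100 + P.q ≤ P.N := by
  have h1 := P.hN
  have h2 : 2*P.β*i ≤ 2*P.β*(P.k+1) := Nat.mul_le_mul_left _ h
  have h3 : 2 * P.β * (P.k + 2) = 2*P.β*(P.k+1) + 2 * P.β := by ring
  omega

theorem w_real {i : ℕ} (h : i ≤ P.k + 1) : (P.w i : ℝ) * P.v = 2^(2*P.α) / 2^(2*P.β*i) := by
  unfold w v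
  have h1 := P.exp_le h
  push_cast
  obtain ⟨c, hc⟩ : ∃ c, P.N = 2*P.β*i + c := ⟨P.N - 2*P.β*i, by omega⟩
  have e1 : P.N + 2*P.α - 2*P.β*i = c + 2*P.α := by omega
  rw [e1, hc, pow_add, pow_add]
  field_simp

theorem w_ratio {i : ℕ} (h : i + 1 ≤ P.k + 1) : P.w i = 2^(2*P.β) * P.w (i+1) := by
  unfold w
  have h1 := P.exp_le h
  rw [← pow_add]
  congr 1
  have : 2*P.β*(i+1) = 2*P.β*i + 2*P.β := by ring
  omega

theorem α_pos : 5000 ≤ P.α := by have := P.hα; omega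

theorem β_pos : 20000 ≤ P.β := by have := P.hα; have := P.hβ; omega

theorem four_w {i : ℕ} (h : i + 1 ≤ P.k + 1) : 4 * P.w (i+1) ≤ P.w i := by
  rw [P.w_ratio h]
  apply Nat.mul_le_mul_right
  have h1 := P.β_pos
  calc 4 = 2^2 := by norm_num
    _ ≤ 2^(2*P.β) := Nat.pow_le_pow_right (by norm_num) (by omega)

/-- window of level `i` as a set of cells -/
noncomputable def W (i : ℕ) : Finset ℤ := Finset.Ico (-(P.w i : ℤ)) (P.w i)

/-- the cells of block `i` -/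
noncomputable def A (i : ℕ) : Finset ℤ := P.W i \ P.W (i+2)

/-- anchors at scale `2 ^ H` in the shell `i` -/
noncomputable def anc (i H : ℕ) : Finset ℤ :=
  (((Finset.range (P.w i / 2^H + 1)).filter fun a => P.w (i+1) ≤ a * 2^H ∧ a * 2^H ≤ P.w i).image
    fun a : ℕ => ((a * 2^H : ℕ) : ℤ)) ∪
  (((Finset.range (P.w i / 2^H + 1)).filter fun a => P.w (i+1) ≤ a * 2^H ∧ a * 2^H ≤ P.w i).image
    fun a : ℕ => -((a * 2^H : ℕ) : ℤ))

theorem card_anc (i H : ℕ) : (P.anc i H).card ≤ 2 * (P.w i / 2^H + 1) := by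
  unfold anc
  refine (Finset.card_union_le _ _).trans ?_
  have h1 : ∀ f : ℕ → ℤ, (((Finset.range (P.w i / 2^H + 1)).filter
      fun a => P.w (i+1) ≤ a * 2^H ∧ a * 2^H ≤ P.w i).image f).card ≤ P.w i / 2^H + 1 := by
    intro f
    refine Finset.card_image_le.trans ((Finset.card_filter_le _ _).trans ?_)
    rw [Finset.card_range]
  have := h1 fun a : ℕ => ((a * 2^H : ℕ) : ℤ)
  have := h1 fun a : ℕ => -((a * 2^H : ℕ) : ℤ)
  omega

theorem mem_anc {i H : ℕ} {p : ℤ} : p ∈ P.anc i H ↔ ∃ a : ℕ, P.w (i+1) ≤ a * 2^H ∧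
    a * 2^H ≤ P.w i ∧ (p = ((a * 2^H : ℕ) : ℤ) ∨ p = -((a * 2^H : ℕ) : ℤ)) := by
  unfold anc
  rw [Finset.mem_union, Finset.mem_image, Finset.mem_image]
  have hr : ∀ a : ℕ, a * 2^H ≤ P.w i → a ∈ Finset.range (P.w i / 2^H + 1) := by
    intro a ha
    rw [Finset.mem_range]
    have : a ≤ P.w i / 2^H := by
      rw [Nat.le_div_iff_mul_le (by positivity)]; exact ha
    omega
  constructor
  · rintro (⟨a, ha, rfl⟩ | ⟨a, ha, rfl⟩)
    · rw [Finset.mem_filter] at ha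
      exact ⟨a, ha.2.1, ha.2.2, Or.inl rfl⟩
    · rw [Finset.mem_filter] at ha
      exact ⟨a, ha.2.1, ha.2.2, Or.inr rfl⟩
  · rintro ⟨a, h1, h2, h3 | h3⟩
    · left
      exact ⟨a, Finset.mem_filter.mpr ⟨hr a h2, h1, h2⟩, h3.symm⟩
    · right
      exact ⟨a, Finset.mem_filter.mpr ⟨hr a h2, h1, h2⟩, h3.symm⟩

theorem anc_abs {i H : ℕ} {p : ℤ} (h : p ∈ P.anc i H) : (P.w (i+1) : ℤ) ≤ |p| ∧ |p| ≤ P.w i := by
  obtain ⟨a, h1, h2, h3⟩ := P.mem_anc.mp h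
  have h1' : (P.w (i+1) : ℤ) ≤ ((a * 2^H : ℕ) : ℤ) := by exact_mod_cast h1
  have h2' : ((a * 2^H : ℕ) : ℤ) ≤ P.w i := by exact_mod_cast h2
  have h0 : (0:ℤ) ≤ ((a * 2^H : ℕ) : ℤ) := Int.natCast_nonneg _
  rcases h3 with rfl | rfl
  · rw [abs_of_nonneg h0]; exact ⟨h1', h2'⟩
  · rw [abs_neg, abs_of_nonneg h0]; exact ⟨h1', h2'⟩

/-- small balls: returns to the centre -/
def SBd (n i l : ℕ) : Set (ℤ → E n) :=
  ⋃ p ∈ P.anc i (P.Hd i l), {x | ‖S x p - S x 0‖ ≤ 6 * P.r n (i+l)}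

/-- small balls: pairs -/
def SBp (n i : ℕ) : Set (ℤ → E n) :=
  ⋃ pq ∈ ((P.anc i (P.Hd i 1)) ×ˢ (P.anc i (P.Hd i 1))).filter fun pq : ℤ × ℤ => pq.1 + (P.sp i : ℤ) ≤ pq.2,
    {x | ‖S x pq.2 - S x pq.1‖ ≤ 7 * P.r n (i+1)}

/-- small balls: from the centre to a far cell -/
def SBc (n i : ℕ) : Set (ℤ → E n) :=
  ⋃ p ∈ (P.anc i (P.Hd i 1)).filter fun p : ℤ => (P.sp i : ℤ) ≤ |p|,
    {x | ‖S x p - S x 0‖ ≤ (2 * P.Dc + 6) * P.r n (i+1)}

/-- number of anchors in a mesoscopic block -/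
def m : ℕ := 2^(P.β - 13)

/-- number of anchors in a macroscopic block -/
def n1 : ℕ := 2^(2*P.β - 13)

/-- lower limit of the mesoscopic separations, in anchors -/
def k0 : ℕ := 2^(30 + 2*P.q)

/-- the anchor `z` is covered by a pair of neighbours in space which are not neighbours in time -/
def Cov (n i : ℕ) (z : ℤ) : Set (ℤ → E n) :=
  ⋃ k ∈ Finset.Icc P.k0 P.m, ⋃ j ∈ Finset.range (k+1),
    {x | ‖S x ((z - j + k) * 2^(P.Hd i 1)) - S x ((z - j) * 2^(P.Hd i 1))‖ ≤ 7 * P.r n (i+1)}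

/-- the macroscopic blocks -/
noncomputable def Cs (i : ℕ) : Finset ℤ :=
  (Finset.Icc (-(2:ℤ)^(2*P.α + 25 + P.q)) ((2:ℤ)^(2*P.α + 25 + P.q))).filter fun c : ℤ =>
    (c ≠ -1 ∧ c ≠ 0) ∧ (-(P.w i : ℤ) ≤ (c - 1) * P.n1 * 2^(P.Hd i 1) ∧
      (c + 2) * P.n1 * 2^(P.Hd i 1) ≤ (P.w i : ℤ))

/-- too many covered anchors in some arithmetic progression of a macroscopic block -/
def Meso (n i : ℕ) : Set (ℤ → E n) :=
  ⋃ c ∈ P.Cs i, ⋃ e ∈ Finset.range (4 * P.m), ⋃ T ∈ (Finset.range (2^(P.β-2))).powersetCard (2^(P.β-4)),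
    ⋂ k ∈ T, P.Cov n i (c * P.n1 + (k * (4 * P.m) + e : ℕ))

/-- block `i` spoils the level `i + l` -/
def Fdown (n i l : ℕ) : Set (ℤ → E n) :=
  OE n (P.w (i+1)) (P.w i) (P.Hd i l) (P.r n (i+l)) ∪ P.SBd n i l

/-- block `i` spoils the level `i - l` -/
def Fup (n i l : ℕ) : Set (ℤ → E n) :=
  OE n (P.w (i+1)) (P.w i) (P.N + 2*P.α + 1 - 2*P.β*i) (P.Dc * P.r n i * ((2:ℝ)^P.β / 2)^(l-1))

/-- block `i` spoils the level `i` -/
def Fown (n i : ℕ) : Set (ℤ → E n) :=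
  ((OE n (P.w (i+1)) (P.w i) (P.Hk i) (P.r n i / 32) ∪
    OE n (P.w (i+1)) (P.w i) (P.Hd i 1) (P.r n (i+1))) ∪ (P.SBp n i ∪ P.SBc n i)) ∪ P.Meso n i

/-- the core spoils the level `k - l` -/
def Fcore (n l : ℕ) : Set (ℤ → E n) :=
  OE n 0 (P.w P.k) (P.N + 2*P.α + 1 - 2*P.β*P.k) (P.Dc * P.r n P.k * ((2:ℝ)^P.β / 2)^(l-1))

/-- the event of the block `i` -/
def F (n i l : ℕ) : Set (ℤ → E n) :=
  ((if i + l ≤ P.k then P.Fdown n i l else ∅) ∪ P.Fup n i l) ∪ (if l = 1 then P.Fown n i else ∅)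

theorem measurable_ball (n : ℕ) (u w : ℤ) (ρ : ℝ) : MeasurableSet {x : ℤ → E n | ‖S x u - S x w‖ ≤ ρ} :=
  measurableSet_le ((measurable_S _).sub (measurable_S _)).norm measurable_const

theorem measurable_Cov (n i : ℕ) (z : ℤ) : MeasurableSet (P.Cov n i z) := by
  unfold Cov
  exact Finset.measurableSet_biUnion _ fun k _ => Finset.measurableSet_biUnion _ fun j _ =>
    measurable_ball n _ _ _

theorem measurable_Meso (n i : ℕ) : MeasurableSet (P.Meso n i) := by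
  unfold Meso
  exact Finset.measurableSet_biUnion _ fun c _ => Finset.measurableSet_biUnion _ fun e _ =>
    Finset.measurableSet_biUnion _ fun T _ => Finset.measurableSet_biInter _ fun k _ =>
      P.measurable_Cov n i _

theorem measurable_F (n i l : ℕ) : MeasurableSet (P.F n i l) := by
  unfold F Fdown Fup Fown SBd SBp SBc
  refine MeasurableSet.union (MeasurableSet.union ?_ (measurable_OE _ _ _ _ _)) ?_
  · split
    · refine MeasurableSet.union (measurable_OE _ _ _ _ _) ?_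
      exact Finset.measurableSet_biUnion _ fun p _ => measurable_ball n _ _ _
    · exact MeasurableSet.empty
  · split
    · refine MeasurableSet.union (MeasurableSet.union (MeasurableSet.union (measurable_OE _ _ _ _ _)
        (measurable_OE _ _ _ _ _)) (MeasurableSet.union ?_ ?_)) (P.measurable_Meso n i)
      · exact Finset.measurableSet_biUnion _ fun p _ => measurable_ball n _ _ _
      · exact Finset.measurableSet_biUnion _ fun p _ => measurable_ball n _ _ _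
    · exact MeasurableSet.empty

theorem measurable_Fcore (n l : ℕ) : MeasurableSet (P.Fcore n l) := measurable_OE _ _ _ _ _

/-! ### conditional probabilities -/

theorem card_inter (i : ℕ) {u w : ℤ} (h1 : -(P.w i : ℤ) ≤ u) (h2 : w ≤ P.w i) :
    ((w - u : ℤ) : ℝ) - 2 * P.w (i+2) ≤ ((P.A i ∩ Finset.Ico u w).card : ℝ) := by
  have hsub : Finset.Ico u w ⊆ (P.A i ∩ Finset.Ico u w) ∪ P.W (i+2) := by
    intro j hj
    rw [Finset.mem_union]
    by_cases h : j ∈ P.W (i+2)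
    · exact Or.inr h
    · left
      rw [Finset.mem_inter]
      refine ⟨?_, hj⟩
      unfold A
      rw [Finset.mem_sdiff]
      refine ⟨?_, h⟩
      unfold W
      rw [Finset.mem_Ico] at hj ⊢
      omega
  have h3 := (Finset.card_le_card hsub).trans (Finset.card_union_le _ _)
  rw [Int.card_Ico] at h3
  have h4 : (P.W (i+2)).card = 2 * P.w (i+2) := by
    unfold W
    rw [Int.card_Ico]
    omega
  rw [h4] at h3
  have h5 : (w - u : ℤ) ≤ ((w - u).toNat : ℤ) := Int.self_le_toNat _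
  have h6 : (((w - u).toNat : ℕ) : ℝ) ≤ (P.A i ∩ Finset.Ico u w).card + 2 * P.w (i+2) := by
    exact_mod_cast h3
  have h7 : ((w - u : ℤ) : ℝ) ≤ (((w - u).toNat : ℕ) : ℝ) := by exact_mod_cast h5
  linarith

theorem r_pos {n : ℕ} (hn : 1 ≤ n) (i : ℕ) : 0 < P.r n i := by
  unfold r
  have : (0:ℝ) < n := by exact_mod_cast hn
  positivity

theorem r_sq (n i : ℕ) : P.r n i ^ 2 = n / 2^(2*P.β*i) := by
  unfold r
  rw [div_pow, Real.sq_sqrt (Nat.cast_nonneg n), ← pow_mul]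
  congr 2
  ring

theorem Dc_pos : 0 < P.Dc := by unfold Dc; positivity

theorem Dc_sq : P.Dc^2 = 2^(2*P.α + 2*P.q + 12) := by
  unfold Dc
  rw [← pow_mul]
  congr 1
  ring

/-- small ball estimate for a block -/
theorem Q_sb {n : ℕ} (hn : 1 ≤ n) (i : ℕ) (hi : i + 1 ≤ P.k) {u w : ℤ} (h1 : -(P.w i : ℤ) ≤ u)
    (h2 : w ≤ P.w i) (d : ℕ) (hd : P.w (i+1) ≤ d) (h3 : u + d ≤ w) (ρ m : ℝ) (hm : 0 < m)
    (hρ : 0 < ρ) (h : 6 * m^2 * ρ^2 ≤ n * (d * P.v)) (x : ℤ → E n) :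
    Q n P.v (P.A i) {x | ‖S x w - S x u‖ ≤ ρ} x ≤ ENNReal.ofReal ((1/m)^n) := by
  have hw1 := P.four_w (show i + 1 + 1 ≤ P.k + 1 by omega)
  have hv : (0:ℝ) ≤ P.v := P.v.2
  refine Q_small P.v (P.A i) (by omega) ρ ((d:ℝ)/2 * P.v) m hm hρ ?_ ?_ x
  · apply mul_le_mul_of_nonneg_right _ hv
    refine le_trans ?_ (P.card_inter i h1 h2)
    have e1 : (d : ℝ) ≤ ((w - u : ℤ) : ℝ) := by exact_mod_cast (by omega : (d : ℤ) ≤ w - u)
    have e2 : 4 * (P.w (i+2) : ℝ) ≤ P.w (i+1) := by exact_mod_cast hw1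
    have e3 : (P.w (i+1) : ℝ) ≤ d := by exact_mod_cast hd
    linarith
  · have : (n:ℝ) * ((d:ℝ)/2 * P.v) = n * (d * P.v) / 2 := by ring
    rw [this]
    linarith

theorem shell_sub (i : ℕ) (hi : i + 1 ≤ P.k) (j : ℤ)
    (h : (P.w (i+1) : ℤ) ≤ j ∧ j < P.w i ∨ -(P.w i : ℤ) ≤ j ∧ j < -(P.w (i+1) : ℤ)) : j ∈ P.A i := by
  have hw1 := P.four_w (show i + 1 + 1 ≤ P.k + 1 by omega)
  have hw2 : (4:ℤ) * P.w (i+2) ≤ P.w (i+1) := by exact_mod_cast hw1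
  unfold A W
  rw [Finset.mem_sdiff, Finset.mem_Ico, Finset.mem_Ico]
  omega

theorem scale_d {i l : ℕ} (hil : i + l ≤ P.k + 1) (hl : l ≤ P.k + 1) :
    (2:ℝ)^(P.Hd i l) * P.v = 1 / (2^(2*P.β*(i+l)) * 2^(11+l+P.q)) := by
  unfold Hd v
  have h1 := P.exp_le hil
  push_cast
  obtain ⟨c, hc⟩ : ∃ c, P.N = 2*P.β*(i+l) + (11 + l + P.q) + c :=
    ⟨P.N - (2*P.β*(i+l) + (11 + l + P.q)), by omega⟩
  have e1 : P.N - 2*P.β*(i+l) - 11 - l - P.q = c := by omega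
  rw [e1, hc, pow_add, pow_add]
  field_simp

theorem count_d {i l : ℕ} (hil : i + l ≤ P.k + 1) (hl : l ≤ P.k + 1) :
    P.w i = 2^(2*P.α + 11 + l + P.q + 2*P.β*l) * 2^(P.Hd i l) := by
  unfold Hd w
  have h1 := P.exp_le hil
  rw [← pow_add]
  congr 1
  have : 2*P.β*(i+l) = 2*P.β*i + 2*P.β*l := by ring
  omega

theorem exp_bound (n l : ℕ) : Real.exp (-(7 * (l:ℝ) * n)) ≤ (1/4 : ℝ)^(l*n) :=
  Pool.Agent.R966.CD.Par.exp_bound n l

/-- powers of two -/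
theorem pw {a b c : ℕ} (h : a + c ≤ b) : (2:ℝ)^a * (1/2)^b ≤ (1/2)^c := by
  obtain ⟨d, rfl⟩ : ∃ d, b = a + c + d := ⟨b - (a+c), by omega⟩
  rw [pow_add, pow_add]
  have e : (2:ℝ)^a * (1/2)^a = 1 := by rw [← mul_pow]; norm_num
  have h2 : (1/2:ℝ)^d ≤ 1 := pow_le_one₀ (by norm_num) (by norm_num)
  have h3 : (0:ℝ) ≤ (1/2)^c := by positivity
  calc (2:ℝ)^a * ((1/2)^a * (1/2)^c * (1/2)^d) = ((2:ℝ)^a * (1/2)^a) * ((1/2)^c * (1/2)^d) := by ring
    _ = (1/2)^c * (1/2)^d := by rw [e, one_mul]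
    _ ≤ (1/2)^c * 1 := mul_le_mul_of_nonneg_left h2 h3
    _ = _ := mul_one _

/-- the exponential bound in powers of two -/
theorem exp_bound' {n : ℕ} (hn : 512 ≤ n) (l : ℕ) :
    Real.exp (-(7 * ((P.β * l : ℕ) : ℝ) * n)) ≤ (1/2 : ℝ)^(1024 * (P.β * l)) := by
  refine (exp_bound n (P.β * l)).trans ?_
  have e : (1/4 : ℝ) = (1/2)^2 := by norm_num
  rw [e, ← pow_mul]
  apply pow_le_pow_of_le_one (by norm_num) (by norm_num)
  nlinarith [Nat.mul_le_mul_left (P.β * l) hn]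

theorem r_shift (n i j : ℕ) : P.r n (i + j) = P.r n i / 2^(P.β*j) := by
  unfold r
  rw [mul_add, pow_add, div_div]

theorem qβ : (P.β : ℝ) ≤ 2^P.q := by exact_mod_cast P.hq

theorem lβ {l : ℕ} (hl : 1 ≤ l) : P.β ≤ P.β * l := Nat.le_mul_of_pos_right _ hl

theorem Q_OEd {n : ℕ} (hn : 512 ≤ n) (i l : ℕ) (hl : 1 ≤ l) (hil : i + l ≤ P.k) (x : ℤ → E n) :
    Q n P.v (P.A i) (OE n (P.w (i+1)) (P.w i) (P.Hd i l) (P.r n (i+l))) x ≤
      ENNReal.ofReal ((1/2 : ℝ)^(20*P.β*l + 5)) := by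
  have hl' : (1:ℝ) ≤ l := by exact_mod_cast hl
  have hβ := P.β_pos
  have hβ' : (1:ℝ) ≤ ((P.β * l : ℕ) : ℝ) := by
    have : 1 ≤ P.β * l := le_trans (by omega) (P.lβ hl)
    exact_mod_cast this
  refine (Q_OE P.v_pos (P.r_pos (by omega) _).le (P.shell_sub i (by omega)) _ hβ' (by omega) ?_ x).trans ?_
  · rw [P.scale_d (by omega) (by omega), P.r_sq]
    have h1 : (1152:ℝ) * ((P.β * l : ℕ) : ℝ) ≤ 2^(11+l+P.q) := by
      have h3 : (l:ℝ) ≤ 2^l := by exact_mod_cast Nat.lt_two_pow_self.le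
      have h4 := P.qβ
      rw [pow_add, pow_add]
      push_cast
      have h5 : (P.β : ℝ) * l ≤ 2^P.q * 2^l := mul_le_mul h4 h3 (by positivity) (by positivity)
      nlinarith
    have h2 : (0:ℝ) < 2^(2*P.β*(i+l)) := by positivity
    have h3 : (0:ℝ) < 2^(11+l+P.q) := by positivity
    rw [mul_one_div, div_le_div_iff₀ (by positivity) h2]
    have hn0 : (0:ℝ) ≤ n := Nat.cast_nonneg n
    calc 1152 * ((P.β * l : ℕ) : ℝ) * n * 2^(2*P.β*(i+l)) =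
          (1152 * ((P.β * l : ℕ) : ℝ)) * (n * 2^(2*P.β*(i+l))) := by ring
      _ ≤ 2^(11+l+P.q) * (n * 2^(2*P.β*(i+l))) := mul_le_mul_of_nonneg_right h1 (by positivity)
      _ = _ := by ring
  · apply ENNReal.ofReal_le_ofReal
    have h4 : (P.w i : ℝ) / 2^(P.Hd i l) = 2^(2*P.α + 11 + l + P.q + 2*P.β*l) := by
      rw [P.count_d (show i + l ≤ P.k + 1 by omega) (by omega)]
      push_cast
      field_simp
    rw [h4]
    have h5 := P.exp_bound' hn l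
    calc 2 * (2:ℝ)^(2*P.α + 11 + l + P.q + 2*P.β*l) * Real.exp (-(7 * ((P.β * l : ℕ) : ℝ) * n))
        ≤ 2 * (2:ℝ)^(2*P.α + 11 + l + P.q + 2*P.β*l) * (1/2 : ℝ)^(1024 * (P.β * l)) :=
          mul_le_mul_of_nonneg_left h5 (by positivity)
      _ = (2:ℝ)^(2*P.α + 11 + l + P.q + 2*P.β*l + 1) * (1/2 : ℝ)^(1024 * (P.β * l)) := by
          rw [pow_succ (2:ℝ) (2*P.α + 11 + l + P.q + 2*P.β*l)]
          ring
      _ ≤ _ := by
          apply pw
          have h6 := P.lβ hl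
          have h7 := P.hβ
          have h8 := P.hα
          have h9 : l ≤ P.β * l := Nat.le_mul_of_pos_left _ (by omega)
          have e1 : 2*P.β*l = 2*(P.β*l) := by ring
          have e2 : 20*P.β*l = 20*(P.β*l) := by ring
          rw [e1, e2]
          generalize P.β * l = z at *
          omega

/-- anchors as endpoints -/
theorem Q_anc {n : ℕ} (hn : 1 ≤ n) (i H : ℕ) (hi : i + 1 ≤ P.k) {p : ℤ} (hp : p ∈ P.anc i H)
    (d : ℕ) (hd : P.w (i+1) ≤ d) (hdp : (d : ℤ) ≤ |p|) (ρ m : ℝ) (hm : 0 < m)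
    (hρ : 0 < ρ) (h : 6 * m^2 * ρ^2 ≤ n * (d * P.v)) (x : ℤ → E n) :
    Q n P.v (P.A i) {x | ‖S x p - S x 0‖ ≤ ρ} x ≤ ENNReal.ofReal ((1/m)^n) := by
  obtain ⟨h1, h2⟩ := P.anc_abs hp
  rcases le_total 0 p with hp0 | hp0
  · rw [abs_of_nonneg hp0] at h1 h2 hdp
    exact P.Q_sb hn i hi (by omega) h2 d hd (by omega) ρ m hm hρ h x
  · rw [abs_of_nonpos hp0] at h1 h2 hdp
    have e : {x : ℤ → E n | ‖S x p - S x 0‖ ≤ ρ} = {x | ‖S x 0 - S x p‖ ≤ ρ} := by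
      ext y
      simp only [Set.mem_ofPred_eq]
      rw [norm_sub_rev]
    rw [e]
    exact P.Q_sb hn i hi (by omega) (by omega) d hd (by omega) ρ m hm hρ h x

theorem card_anc_real {i l : ℕ} (hl : 1 ≤ l) (hil : i + l ≤ P.k) :
    ((P.anc i (P.Hd i l)).card : ℝ) ≤ 2^(2*P.α + 13 + l + P.q + 2*P.β*l) := by
  have h1 := P.card_anc i (P.Hd i l)
  have h2 : P.w i / 2^(P.Hd i l) = 2^(2*P.α + 11 + l + P.q + 2*P.β*l) := by
    rw [P.count_d (show i + l ≤ P.k + 1 by omega) (by omega)]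
    exact Nat.mul_div_cancel _ (by positivity)
  rw [h2] at h1
  have h3 : 1 ≤ 2^(2*P.α + 11 + l + P.q + 2*P.β*l) := Nat.one_le_two_pow
  have h4 : (P.anc i (P.Hd i l)).card ≤ 2^(2*P.α + 13 + l + P.q + 2*P.β*l) := by
    have : 2*P.α + 13 + l + P.q + 2*P.β*l = (2*P.α + 11 + l + P.q + 2*P.β*l) + 2 := by ring
    rw [this, pow_add]
    omega
  exact_mod_cast h4

/-- powers of a small number -/
theorem inv_pow_le {n e : ℕ} (hn : 512 ≤ n) : (1 / (2:ℝ)^e)^n ≤ (1/2)^(512 * e) := by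
  have h1 : (1 / (2:ℝ)^e) = (1/2)^e := by rw [div_pow, one_pow]
  rw [h1, ← pow_mul]
  apply pow_le_pow_of_le_one (by norm_num) (by norm_num)
  rw [mul_comm]
  exact Nat.mul_le_mul_left _ hn

theorem Q_SBd {n : ℕ} (hn : 512 ≤ n) (i l : ℕ) (hl : 1 ≤ l) (hil : i + l ≤ P.k) (x : ℤ → E n) :
    Q n P.v (P.A i) (P.SBd n i l) x ≤ ENNReal.ofReal ((1/2 : ℝ)^(20*P.β*l + 5)) := by
  unfold SBd
  have hα := P.hα
  refine (Q_biUnion P.v (P.A i) _ _ x).trans ?_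
  have hstep : ∀ p ∈ P.anc i (P.Hd i l), Q n P.v (P.A i)
      {x | ‖S x p - S x 0‖ ≤ 6 * P.r n (i+l)} x ≤
        ENNReal.ofReal ((1/2 : ℝ)^(512 * (P.α - 4 + P.β*(l-1)))) := by
    intro p hp
    refine (P.Q_anc (by omega) i _ (by omega) hp (P.w (i+1)) le_rfl (P.anc_abs hp).1
      (6 * P.r n (i+l)) (2^(P.α - 4 + P.β*(l-1))) (by positivity)
      (by have := P.r_pos (show 1 ≤ n by omega) (i+l); positivity) ?_ x).trans ?_
    · rw [P.w_real (by omega), mul_pow, P.r_sq]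
      have e1 : 2*P.β*(i+l) = 2*P.β*(i+1) + 2*(P.β*(l-1)) := by
        have : i + l = i + 1 + (l-1) := by omega
        rw [this]; ring
      rw [e1, pow_add, pow_add]
      obtain ⟨a, ha⟩ : ∃ a, P.α = a + 4 := ⟨P.α - 4, by omega⟩
      have e2 : P.α - 4 = a := by omega
      have e3 : 2 * P.α = 2 * a + 8 := by omega
      rw [e2, e3, pow_add (2:ℝ) (2*a) 8, mul_pow, ← pow_mul, ← pow_mul, mul_comm a 2,
        mul_comm (P.β*(l-1)) 2]
      have h2 : (0:ℝ) < 2^(2*P.β*(i+1)) := by positivity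
      have h3 : (0:ℝ) < 2^(2*(P.β*(l-1))) := by positivity
      have h4 : (0:ℝ) < 2^(2*a) := by positivity
      have e3 : 6 * ((2:ℝ)^(2*a) * 2^(2*(P.β*(l-1)))) * (6^2 * (n / (2^(2*P.β*(i+1)) * 2^(2*(P.β*(l-1)))))) =
          216 * ((2:ℝ)^(2*a) * (n / 2^(2*P.β*(i+1)))) := by
        field_simp
        norm_num
      have e4 : (n:ℝ) * (2^(2*a) * 2^8 / 2^(2*P.β*(i+1))) = 256 * ((2:ℝ)^(2*a) * (n / 2^(2*P.β*(i+1)))) := by
        ring
      rw [e3, e4]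
      apply mul_le_mul_of_nonneg_right (by norm_num)
      positivity
    · exact ENNReal.ofReal_le_ofReal (inv_pow_le hn)
  refine (Finset.sum_le_sum hstep).trans ?_
  rw [Finset.sum_const, nsmul_eq_mul, ← ENNReal.ofReal_natCast, ← ENNReal.ofReal_mul (by positivity)]
  apply ENNReal.ofReal_le_ofReal
  refine (mul_le_mul_of_nonneg_right (P.card_anc_real hl hil) (by positivity)).trans ?_
  apply pw
  have h7 := P.hβ
  obtain ⟨l', rfl⟩ : ∃ l', l = l' + 1 := ⟨l - 1, by omega⟩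
  rw [Nat.add_sub_cancel]
  have h9 : l' ≤ P.β * l' := Nat.le_mul_of_pos_left _ (by omega)
  have e1 : 2*P.β*(l'+1) = 2*(P.β*l') + 2 * P.β := by ring
  have e2 : 20*P.β*(l'+1) = 20*(P.β*l') + 20*P.β := by ring
  rw [e1, e2]
  generalize P.β * l' = z at *
  omega

theorem up_scale {i : ℕ} (hi : i ≤ P.k) (l : ℕ) (hl : 1 ≤ l) (n : ℕ) :
    1152 * ((P.β * l : ℕ) : ℝ) * n * (2^(P.N + 2*P.α + 1 - 2*P.β*i) * P.v) ≤
      (P.Dc * P.r n i * ((2:ℝ)^P.β / 2)^(l-1))^2 := by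
  have e1 : (2:ℝ)^(P.N + 2*P.α + 1 - 2*P.β*i) * P.v = 2 * ((P.w i : ℝ) * P.v) := by
    unfold w
    have h1 := P.exp_le (show i ≤ P.k + 1 by omega)
    have : P.N + 2*P.α + 1 - 2*P.β*i = (P.N + 2*P.α - 2*P.β*i) + 1 := by omega
    rw [this, pow_succ]
    push_cast
    ring
  rw [e1, P.w_real (by omega), mul_pow, mul_pow, P.r_sq, P.Dc_sq]
  have h2 : (0:ℝ) < 2^(2*P.β*i) := by positivity
  have h3 : (l:ℝ) ≤ (((2:ℝ)^P.β / 2)^(l-1))^2 := by
    have h4 : (2:ℝ) ≤ (2:ℝ)^P.β / 2 := by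
      rw [le_div_iff₀ (by norm_num)]
      have : (2:ℝ)^2 ≤ 2^P.β := pow_le_pow_right₀ (by norm_num) (by have := P.β_pos; omega)
      linarith
    have h5 : (2:ℝ)^(l-1) ≤ ((2:ℝ)^P.β / 2)^(l-1) := pow_le_pow_left₀ (by norm_num) h4 _
    have h6 : ((l - 1 : ℕ) : ℝ) + 1 ≤ 2^(l-1) := by exact_mod_cast Nat.lt_two_pow_self
    have h7 : ((l - 1 : ℕ) : ℝ) + 1 = l := by
      have : (l - 1) + 1 = l := by omega
      exact_mod_cast this
    have h8 : (1:ℝ) ≤ ((2:ℝ)^P.β / 2)^(l-1) := one_le_pow₀ (by linarith)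
    nlinarith
  have h4 := P.qβ
  have h5 : (1:ℝ) ≤ 2^P.q := one_le_pow₀ (by norm_num)
  have h6 : (P.β : ℝ) ≤ 2^(2*P.q) := by
    rw [two_mul, pow_add]
    nlinarith
  have h7 : 1152 * ((P.β * l : ℕ) : ℝ) * 2 ≤ (((2:ℝ)^P.β / 2)^(l-1))^2 * (2^(2*P.q) * 2^12) := by
    push_cast
    have : (P.β : ℝ) * l ≤ 2^(2*P.q) * (((2:ℝ)^P.β / 2)^(l-1))^2 :=
      mul_le_mul h6 h3 (by positivity) (by positivity)
    nlinarith
  have e5 : 1152 * ((P.β * l : ℕ) : ℝ) * n * (2 * (2^(2*P.α) / 2^(2*P.β*i))) =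
      (1152 * ((P.β * l : ℕ) : ℝ) * 2) * (2^(2*P.α) * (n / 2^(2*P.β*i))) := by ring
  have e6 : (2:ℝ)^(2*P.α + 2*P.q + 12) * (n / 2^(2*P.β*i)) * (((2:ℝ)^P.β / 2)^(l-1))^2 =
      ((((2:ℝ)^P.β / 2)^(l-1))^2 * (2^(2*P.q) * 2^12)) * (2^(2*P.α) * (n / 2^(2*P.β*i))) := by
    rw [pow_add, pow_add]
    ring
  rw [e5, e6]
  exact mul_le_mul_of_nonneg_right h7 (by positivity)

theorem up_count {i : ℕ} (hi : i ≤ P.k) : 2 * ((P.w i : ℝ) / 2^(P.N + 2*P.α + 1 - 2*P.β*i)) = 1 := by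
  have h1 := P.exp_le (show i ≤ P.k + 1 by omega)
  unfold w
  have : P.N + 2*P.α + 1 - 2*P.β*i = (P.N + 2*P.α - 2*P.β*i) + 1 := by omega
  rw [this, pow_succ]
  push_cast
  field_simp

theorem Q_Fup {n : ℕ} (hn : 512 ≤ n) (i l : ℕ) (hl : 1 ≤ l) (hi : i + 1 ≤ P.k) (x : ℤ → E n) :
    Q n P.v (P.A i) (P.Fup n i l) x ≤ ENNReal.ofReal ((1/2 : ℝ)^(20*P.β*l + 5)) := by
  unfold Fup
  have hβ := P.β_pos
  have hβ' : (1:ℝ) ≤ ((P.β * l : ℕ) : ℝ) := by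
    have : 1 ≤ P.β * l := le_trans (by omega) (P.lβ hl)
    exact_mod_cast this
  have hr := P.r_pos (show 1 ≤ n by omega) i
  have hD := P.Dc_pos
  refine (Q_OE P.v_pos (by positivity) (P.shell_sub i (by omega)) _ hβ' (by omega)
    (P.up_scale (by omega) l hl n) x).trans ?_
  apply ENNReal.ofReal_le_ofReal
  rw [P.up_count (by omega), one_mul]
  refine (P.exp_bound' hn l).trans ?_
  apply pow_le_pow_of_le_one (by norm_num) (by norm_num)
  have h6 := P.lβ hl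
  have e2 : 20*P.β*l = 20*(P.β*l) := by ring
  rw [e2]
  omega

theorem sp_real {i : ℕ} (hi : i + 1 ≤ P.k) :
    (P.sp i : ℝ) * P.v = 2^(4*P.α - 27 - P.q) / 2^(2*P.β*(i+1)) := by
  unfold sp v
  have h1 := P.exp_le (show i + 1 ≤ P.k + 1 by omega)
  have h2 := P.hβ
  have h3 := P.hα
  push_cast
  have e0 : 2*P.β*(i+1) = 2*P.β*i + 2*P.β := by ring
  obtain ⟨c, hc⟩ : ∃ c, P.N = 2*P.β*(i+1) + c := ⟨P.N - 2*P.β*(i+1), by omega⟩
  have e1 : P.N - 2*P.β*i - P.β - 27 - P.q = c + (4*P.α - 27 - P.q) := by omega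
  rw [e1, hc, pow_add, pow_add]
  field_simp

theorem w_le_sp {i : ℕ} (hi : i + 1 ≤ P.k) : 2 * P.w (i+1) ≤ P.sp i := by
  unfold w sp
  rw [← pow_succ']
  apply Nat.pow_le_pow_right (by norm_num)
  have h1 := P.exp_le (show i + 1 ≤ P.k + 1 by omega)
  have h2 := P.hβ
  have h3 := P.hα
  have e0 : 2*P.β*(i+1) = 2*P.β*i + 2*P.β := by ring
  omega

theorem Q_own1 {n : ℕ} (hn : 512 ≤ n) (i : ℕ) (hi : i + 1 ≤ P.k) (x : ℤ → E n) :
    Q n P.v (P.A i) (OE n (P.w (i+1)) (P.w i) (P.Hk i) (P.r n i / 32)) x ≤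
      ENNReal.ofReal ((1/2 : ℝ)^(20*P.β + 5)) := by
  have hβ := P.β_pos
  have hr := P.r_pos (show 1 ≤ n by omega) i
  have hβ' : (1:ℝ) ≤ ((P.β * 1 : ℕ) : ℝ) := by
    have : 1 ≤ P.β * 1 := by omega
    exact_mod_cast this
  refine (Q_OE P.v_pos (by positivity) (P.shell_sub i (by omega)) _ hβ' (by omega) ?_ x).trans ?_
  · have h1 := P.exp_le (show i ≤ P.k + 1 by omega)
    have e1 : (2:ℝ)^(P.Hk i) * P.v = 1 / (2^(2*P.β*i) * 2^(21 + P.q)) := by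
      unfold Hk v
      push_cast
      obtain ⟨c, hc⟩ : ∃ c, P.N = 2*P.β*i + (21 + P.q) + c := ⟨P.N - (2*P.β*i + (21 + P.q)), by omega⟩
      have e1 : P.N - 2*P.β*i - 21 - P.q = c := by omega
      rw [e1, hc, pow_add, pow_add]
      field_simp
    rw [e1, div_pow, P.r_sq]
    have h2 : (0:ℝ) < 2^(2*P.β*i) := by positivity
    have h3 : (0:ℝ) < 2^P.q := by positivity
    have h4 := P.qβ
    have e2 : 1152 * (((P.β * 1 : ℕ) : ℝ)) * n * (1 / (2^(2*P.β*i) * 2^(21+P.q))) =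
        (1152/2^21 * (P.β / 2^P.q)) * (n / 2^(2*P.β*i)) := by
      rw [pow_add]
      push_cast
      field_simp
    have e3 : (n:ℝ) / 2^(2*P.β*i) / 32^2 = (1/1024) * (n / 2^(2*P.β*i)) := by ring
    rw [e2, e3]
    apply mul_le_mul_of_nonneg_right _ (by positivity)
    have h5 : (P.β : ℝ) / 2^P.q ≤ 1 := by rw [div_le_one h3]; exact h4
    have h6 : (0:ℝ) ≤ (P.β : ℝ) / 2^P.q := by positivity
    norm_num
    nlinarith
  · apply ENNReal.ofReal_le_ofReal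
    have h1 := P.exp_le (show i ≤ P.k + 1 by omega)
    have e1 : (P.w i : ℝ) / 2^(P.Hk i) = 2^(2*P.α + 21 + P.q) := by
      unfold w Hk
      have : P.N + 2*P.α - 2*P.β*i = (P.N - 2*P.β*i - 21 - P.q) + (2*P.α + 21 + P.q) := by omega
      rw [this, pow_add]
      push_cast
      field_simp
    rw [e1]
    have h5 := P.exp_bound' hn 1
    calc _ ≤ 2 * (2:ℝ)^(2*P.α + 21 + P.q) * (1/2 : ℝ)^(1024 * (P.β * 1)) :=
          mul_le_mul_of_nonneg_left h5 (by positivity)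
      _ = (2:ℝ)^(2*P.α + 21 + P.q + 1) * (1/2 : ℝ)^(1024 * (P.β * 1)) := by
          rw [pow_succ (2:ℝ) (2*P.α + 21 + P.q)]; ring
      _ ≤ _ := by
          apply pw
          have h2 := P.hβ
          have h3 := P.hα
          omega

theorem Q_SBp {n : ℕ} (hn : 512 ≤ n) (i : ℕ) (hi : i + 1 ≤ P.k) (x : ℤ → E n) :
    Q n P.v (P.A i) (P.SBp n i) x ≤ ENNReal.ofReal ((1/2 : ℝ)^(20*P.β + 5)) := by
  have h2 := P.hβ
  have h3 := P.hα
  have hcard := P.card_anc_real (i := i) (l := 1) le_rfl (by omega)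
  have hspw := P.w_le_sp hi
  have hr1 := P.r_pos (show 1 ≤ n by omega) (i+1)
  unfold SBp
  refine (Q_biUnion P.v (P.A i) _ _ x).trans ?_
  have hstep : ∀ pq ∈ ((P.anc i (P.Hd i 1)) ×ˢ (P.anc i (P.Hd i 1))).filter
      (fun pq : ℤ × ℤ => pq.1 + (P.sp i : ℤ) ≤ pq.2), Q n P.v (P.A i)
      {x | ‖S x pq.2 - S x pq.1‖ ≤ 7 * P.r n (i+1)} x ≤ ENNReal.ofReal ((1/2 : ℝ)^(512 * P.α)) := by
    intro pq hpq
    rw [Finset.mem_filter, Finset.mem_product] at hpq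
    obtain ⟨⟨hp, hq⟩, hd⟩ := hpq
    have a1 := (P.anc_abs hp).2
    have a2 := (P.anc_abs hq).2
    rw [abs_le] at a1 a2
    refine (P.Q_sb (by omega) i hi a1.1 a2.2 (P.sp i) (by omega) hd _ (2^P.α) (by positivity)
      (by positivity) ?_ x).trans (ENNReal.ofReal_le_ofReal (inv_pow_le hn))
    rw [P.sp_real hi, mul_pow, P.r_sq]
    have e1 : 4*P.α - 27 - P.q = 2*P.α + (2*P.α - 27 - P.q) := by omega
    rw [e1, pow_add, ← pow_mul, mul_comm P.α 2]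
    have h4 : (512:ℝ) ≤ 2^(2*P.α - 27 - P.q) := by
      calc (512:ℝ) = 2^9 := by norm_num
        _ ≤ _ := pow_le_pow_right₀ (by norm_num) (by omega)
    have e2 : 6 * (2:ℝ)^(2*P.α) * (7^2 * (n / 2^(2*P.β*(i+1)))) =
        294 * (2^(2*P.α) * (n / 2^(2*P.β*(i+1)))) := by ring
    have e3 : (n:ℝ) * (2^(2*P.α) * 2^(2*P.α - 27 - P.q) / 2^(2*P.β*(i+1))) =
        2^(2*P.α - 27 - P.q) * (2^(2*P.α) * (n / 2^(2*P.β*(i+1)))) := by ring
    rw [e2, e3]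
    exact mul_le_mul_of_nonneg_right (by linarith) (by positivity)
  refine (Finset.sum_le_sum hstep).trans ?_
  rw [Finset.sum_const, nsmul_eq_mul, ← ENNReal.ofReal_natCast, ← ENNReal.ofReal_mul (by positivity)]
  apply ENNReal.ofReal_le_ofReal
  have h1 : ((((P.anc i (P.Hd i 1)) ×ˢ (P.anc i (P.Hd i 1))).filter
      (fun pq : ℤ × ℤ => pq.1 + (P.sp i : ℤ) ≤ pq.2)).card : ℝ) ≤
      2^(2 * (2*P.α + 13 + 1 + P.q + 2*P.β*1)) := by
    have h4 : ((((P.anc i (P.Hd i 1)) ×ˢ (P.anc i (P.Hd i 1))).filter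
      (fun pq : ℤ × ℤ => pq.1 + (P.sp i : ℤ) ≤ pq.2)).card : ℝ) ≤
      ((P.anc i (P.Hd i 1)).card : ℝ) * ((P.anc i (P.Hd i 1)).card : ℝ) := by
      rw [← Nat.cast_mul, ← Finset.card_product]
      exact_mod_cast Finset.card_filter_le _ _
    refine h4.trans ?_
    rw [two_mul, pow_add]
    exact mul_le_mul hcard hcard (Nat.cast_nonneg _) (by positivity)
  refine (mul_le_mul_of_nonneg_right h1 (by positivity)).trans ?_
  apply pw
  omega

theorem Q_SBc {n : ℕ} (hn : 512 ≤ n) (i : ℕ) (hi : i + 1 ≤ P.k) (x : ℤ → E n) :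
    Q n P.v (P.A i) (P.SBc n i) x ≤ ENNReal.ofReal ((1/2 : ℝ)^(20*P.β + 5)) := by
  have h2 := P.hβ
  have h3 := P.hα
  have hcard := P.card_anc_real (i := i) (l := 1) le_rfl (by omega)
  have hspw := P.w_le_sp hi
  have hr1 := P.r_pos (show 1 ≤ n by omega) (i+1)
  have hD := P.Dc_pos
  unfold SBc
  refine (Q_biUnion P.v (P.A i) _ _ x).trans ?_
  have hstep : ∀ p ∈ (P.anc i (P.Hd i 1)).filter (fun p : ℤ => (P.sp i : ℤ) ≤ |p|), Q n P.v (P.A i)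
      {x | ‖S x p - S x 0‖ ≤ (2 * P.Dc + 6) * P.r n (i+1)} x ≤
      ENNReal.ofReal ((1/2 : ℝ)^(512 * (P.α - 24 - 2*P.q))) := by
    intro p hp
    rw [Finset.mem_filter] at hp
    refine (P.Q_anc (by omega) i _ hi hp.1 (P.sp i) (by omega) hp.2 _ (2^(P.α - 24 - 2*P.q))
      (by positivity) (by positivity) ?_ x).trans (ENNReal.ofReal_le_ofReal (inv_pow_le hn))
    rw [P.sp_real hi, mul_pow, P.r_sq]
    have h4 : (2 * P.Dc + 6)^2 ≤ 2^(2*P.α + 2*P.q + 16) := by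
      have h5 : (6:ℝ) ≤ 2 * P.Dc := by
        unfold Dc
        have : (2:ℝ)^6 ≤ 2^(P.α + P.q + 6) := pow_le_pow_right₀ (by norm_num) (by omega)
        linarith
      have e : (2:ℝ)^(2*P.α + 2*P.q + 16) = (4 * P.Dc)^2 := by
        rw [mul_pow, P.Dc_sq]
        have : 2*P.α + 2*P.q + 16 = 2*P.α + 2*P.q + 12 + 4 := by ring
        rw [this, pow_add]
        ring
      rw [e]
      apply pow_le_pow_left₀ (by positivity)
      linarith
    have e1 : 4*P.α - 27 - P.q = (P.α - 24 - 2*P.q)*2 + ((2*P.α + 2*P.q + 16) + (P.q + 5)) := by omega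
    rw [e1, pow_add, pow_add, ← pow_mul]
    have h6 : (6:ℝ) ≤ 2^(P.q + 5) := by
      calc (6:ℝ) ≤ 2^5 := by norm_num
        _ ≤ _ := pow_le_pow_right₀ (by norm_num) (by omega)
    have h7 : (0:ℝ) < 2^((P.α - 24 - 2*P.q)*2) := by positivity
    have h8 : (0:ℝ) ≤ (n:ℝ) / 2^(2*P.β*(i+1)) := by positivity
    have h9 : 6 * (2 * P.Dc + 6)^2 ≤ 2^(P.q+5) * 2^(2*P.α + 2*P.q + 16) :=
      mul_le_mul h6 h4 (by positivity) (by positivity)
    have e2 : 6 * (2:ℝ)^((P.α - 24 - 2*P.q)*2) * ((2 * P.Dc + 6)^2 * (n / 2^(2*P.β*(i+1)))) =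
        (6 * (2 * P.Dc + 6)^2) * (2^((P.α - 24 - 2*P.q)*2) * (n / 2^(2*P.β*(i+1)))) := by ring
    have e3 : (n:ℝ) * (2^((P.α - 24 - 2*P.q)*2) * (2^(2*P.α + 2*P.q + 16) * 2^(P.q+5)) / 2^(2*P.β*(i+1))) =
        (2^(P.q+5) * 2^(2*P.α + 2*P.q + 16)) * (2^((P.α - 24 - 2*P.q)*2) * (n / 2^(2*P.β*(i+1)))) := by
      ring
    rw [e2, e3]
    exact mul_le_mul_of_nonneg_right h9 (by positivity)
  refine (Finset.sum_le_sum hstep).trans ?_
  rw [Finset.sum_const, nsmul_eq_mul, ← ENNReal.ofReal_natCast, ← ENNReal.ofReal_mul (by positivity)]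
  apply ENNReal.ofReal_le_ofReal
  have h1 : (((P.anc i (P.Hd i 1)).filter (fun p : ℤ => (P.sp i : ℤ) ≤ |p|)).card : ℝ) ≤
      2^(2*P.α + 13 + 1 + P.q + 2*P.β*1) := by
    refine le_trans ?_ hcard
    exact_mod_cast Finset.card_filter_le _ _
  refine (mul_le_mul_of_nonneg_right h1 (by positivity)).trans ?_
  apply pw
  omega

end Par

end Pool.Agent.L7h96.CD
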