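import Pool.Agent.L7h96.CD.Prod

/-!
Counting the bad levels.
-/

set_option autoImplicit false

namespace Pool.Agent.L7h96.CD

open MeasureTheory ProbabilityTheory
open scoped NNReal ENNReal
open Pool.Agent.R966.CD (E gam S top le_top pow_top_le lmarginal_le_of_subset')
open Pool.Agent.R966.CD.Par (Zs measurable_Zs geo lmarginal_Zs prod_split amgm)

namespace Par

variable (P : Par) {n : ℕ}

/-- number of bad levels of the walk -/
noncomputable def NB (n : ℕ) (x : ℤ → E n) : ℕ :=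
  open Classical in ((Finset.range P.k).filter fun j => ¬ P.GG n j x).card

/-- largest scale of the events of a block -/
noncomputable def L (i : ℕ) (x : ℤ → E n) : ℕ := top P.k (P.F n i) x

/-- largest scale of the events of the core -/
noncomputable def Lc (x : ℤ → E n) : ℕ := top P.k (P.Fcore n) x

theorem NB_le (hn : 1 ≤ n) (x : ℤ → E n) :
    P.NB n x ≤ ∑ i ∈ Finset.range P.k, 3 * P.L i x + P.Lc x := by
  classical
  have hsub : ((Finset.range P.k).filter fun j => ¬ P.GG n j x) ⊆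
      ((Finset.range P.k).biUnion fun i => if P.L i x = 0 then (∅ : Finset ℕ) else
        Finset.Icc (i - P.L i x) (i + P.L i x)) ∪ Finset.Ico (P.k - P.Lc x) P.k := by
    intro j hj
    rw [Finset.mem_filter, Finset.mem_range] at hj
    obtain ⟨hjk, hbad⟩ := hj
    rw [Finset.mem_union]
    by_contra hcon
    rw [not_or] at hcon
    obtain ⟨hc1, hc2⟩ := hcon
    have hkey : ∀ i l, i < P.k → 1 ≤ l → l ≤ P.k → x ∈ P.F n i l → (i ≤ j + l ∧ j ≤ i + l) → False := by
      intro i l hi h1 h2 h3 h4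
      have h5 : l ≤ P.L i x := le_top h1 h2 h3
      apply hc1
      rw [Finset.mem_biUnion]
      refine ⟨i, Finset.mem_range.mpr hi, ?_⟩
      rw [if_neg (by omega), Finset.mem_Icc]
      omega
    apply hbad
    apply P.good_of hn hjk
    · intro i hi hmem
      refine hkey i (j - i) (by omega) (by omega) (by omega) ?_ (by omega)
      unfold F
      rw [if_pos (by omega)]
      exact Or.inl (Or.inl hmem)
    · intro hmem
      refine hkey j 1 (by omega) le_rfl (by omega) ?_ (by omega)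
      unfold F
      rw [if_pos rfl]
      exact Or.inr hmem
    · intro i hi hik hmem
      refine hkey i (i - j) (by omega) (by omega) (by omega) ?_ (by omega)
      exact Or.inl (Or.inr hmem)
    · intro hmem
      have h5 : P.k - j ≤ P.Lc x := le_top (by omega) (by omega) hmem
      apply hc2
      rw [Finset.mem_Ico]
      omega
  have h1 := (Finset.card_le_card hsub).trans (Finset.card_union_le _ _)
  have h2 : ((Finset.range P.k).biUnion fun i => if P.L i x = 0 then (∅ : Finset ℕ) else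
        Finset.Icc (i - P.L i x) (i + P.L i x)).card ≤ ∑ i ∈ Finset.range P.k, 3 * P.L i x := by
    refine Finset.card_biUnion_le.trans (Finset.sum_le_sum fun i _ => ?_)
    split
    · simp
    · rw [Nat.card_Icc]
      omega
  have h3 : (Finset.Ico (P.k - P.Lc x) P.k).card ≤ P.Lc x := by
    rw [Nat.card_Ico]
    omega
  have h4 : P.NB n x = ((Finset.range P.k).filter fun j => ¬ P.GG n j x).card := rfl
  omega

theorem prod_le_Pr (c : ℝ≥0∞) (x : ℤ → E n) : ∀ m i,
    ∏ t ∈ Finset.range m, c^(P.L (i + 2*t) x) ≤ P.Pr c m i x := by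
  intro m
  induction m with
  | zero =>
    intro i
    rw [Finset.prod_range_zero]
    exact le_refl _
  | succ m ih =>
    intro i
    rw [Finset.prod_range_succ']
    have h1 : ∏ t ∈ Finset.range m, c^(P.L (i + 2*(t+1)) x) = ∏ t ∈ Finset.range m, c^(P.L ((i+2) + 2*t) x) := by
      apply Finset.prod_congr rfl
      intro t _
      congr 2
      ring
    rw [h1, mul_comm]
    show _ ≤ P.Z c i x * P.Pr c m (i+2) x
    exact mul_le_mul' (pow_top_le _ _ _ _) (ih (i+2))

/-- measurable majorant of the weight -/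
noncomputable def Gm (c : ℝ≥0∞) (x : ℤ → E n) : ℝ≥0∞ :=
  P.Pr (c^9) ((P.k+1)/2) 0 x + P.Pr (c^9) (P.k/2) 1 x + Zs P.k (c^9) (P.Fcore n) x

theorem measurable_Gm (c : ℝ≥0∞) : Measurable (P.Gm (n := n) c) :=
  ((P.measurable_Pr _ _ _).add (P.measurable_Pr _ _ _)).add
    (measurable_Zs _ _ _ fun l => P.measurable_Fcore n l)

theorem pow_NB_le (hn : 1 ≤ n) (c : ℝ≥0∞) (hc : 1 ≤ c) (x : ℤ → E n) : c^(P.NB n x) ≤ P.Gm c x := by
  have h1 : c^(P.NB n x) ≤ c^(∑ i ∈ Finset.range P.k, 3 * P.L i x + P.Lc x) :=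
    pow_le_pow_right₀ hc (P.NB_le hn x)
  refine h1.trans ?_
  rw [pow_add, ← Finset.prod_pow_eq_pow_sum, prod_split]
  refine (amgm _ _ _).trans ?_
  unfold Gm
  refine add_le_add (add_le_add ?_ ?_) ?_
  · rw [← Finset.prod_pow]
    refine le_trans (le_of_eq ?_) (P.prod_le_Pr (c^9) x ((P.k+1)/2) 0)
    apply Finset.prod_congr rfl
    intro t _
    rw [← pow_mul, ← pow_mul]
    congr 1
    ring
  · rw [← Finset.prod_pow]
    refine le_trans (le_of_eq ?_) (P.prod_le_Pr (c^9) x (P.k/2) 1)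
    apply Finset.prod_congr rfl
    intro t _
    rw [← pow_mul, ← pow_mul]
    congr 1
    ring
  · refine le_trans ?_ (pow_top_le P.k (c^9) (P.Fcore n) x)
    rw [← pow_mul, ← pow_mul]
    apply pow_le_pow_right₀ hc
    have : P.Lc x = top P.k (P.Fcore n) x := rfl
    rw [this]
    omega

/-- **expected weight of the bad levels** -/
theorem lmarginal_Gm (hn : 512 ≤ n) (c : ℝ≥0∞)
    (hc : c^9 * ENNReal.ofReal ((1/2 : ℝ)^(20*P.β)) ≤ 2⁻¹) (x : ℤ → E n) :
    (∫⋯∫⁻_(P.W 0), P.Gm c ∂(fun _ => gam n P.v)) x ≤ 2^(P.k+2) := by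
  have h1 := P.Pr_bound hn (c^9) hc ((P.k+1)/2) 0 (by omega) x
  have h2 : (∫⋯∫⁻_(P.W 0), P.Pr (c^9) (P.k/2) 1 ∂(fun _ => gam n P.v)) x ≤ 2^(P.k/2) :=
    lmarginal_le_of_subset' P.v (P.W_sub (Nat.zero_le 1)) _ (P.measurable_Pr _ _ _) _
      (P.Pr_bound hn (c^9) hc (P.k/2) 1 (by omega)) x
  have h3 := lmarginal_Zs P.v (P.W 0) P.k (c^9) _ (P.Fcore n) (fun l => P.measurable_Fcore n l) x
    (fun l hl => by
      refine (P.Q_Fcore hn l hl x).trans (le_of_eq ?_)
      rw [ENNReal.ofReal_pow (by positivity)]) hc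
  have h4 : (∫⋯∫⁻_(P.W 0), P.Gm c ∂(fun _ => gam n P.v)) x =
      (∫⋯∫⁻_(P.W 0), P.Pr (c^9) ((P.k+1)/2) 0 ∂(fun _ => gam n P.v)) x +
      (∫⋯∫⁻_(P.W 0), P.Pr (c^9) (P.k/2) 1 ∂(fun _ => gam n P.v)) x +
      (∫⋯∫⁻_(P.W 0), Zs P.k (c^9) (P.Fcore n) ∂(fun _ => gam n P.v)) x := by
    unfold lmarginal
    have m1 := (P.measurable_Pr (n := n) (c^9) ((P.k+1)/2) 0).comp
      (measurable_updateFinset (s := P.W 0) (x := x))
    have m2 := (P.measurable_Pr (n := n) (c^9) (P.k/2) 1).comp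
      (measurable_updateFinset (s := P.W 0) (x := x))
    have e1 := lintegral_add_left (μ := Measure.pi fun i : P.W 0 => gam n P.v)
      m1 (fun y => P.Pr (c^9) (P.k/2) 1 (Function.updateFinset x (P.W 0) y))
    have e2 := lintegral_add_left (μ := Measure.pi fun i : P.W 0 => gam n P.v)
      (m1.add m2) (fun y => Zs P.k (c^9) (P.Fcore n) (Function.updateFinset x (P.W 0) y))
    refine e2.trans ?_
    congr 1
  rw [h4]
  have p1 : (2:ℝ≥0∞)^((P.k+1)/2) ≤ 2^P.k + 0 := by
    rw [add_zero]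
    exact pow_le_pow_right₀ (by norm_num) (by omega)
  have p2 : (2:ℝ≥0∞)^(P.k/2) ≤ 2^P.k := pow_le_pow_right₀ (by norm_num) (by omega)
  have p3 : (2:ℝ≥0∞) ≤ 2 * 2^P.k := by
    nth_rewrite 1 [← mul_one (2:ℝ≥0∞)]
    exact mul_le_mul_right (one_le_pow₀ (by norm_num)) _
  calc _ ≤ (2^((P.k+1)/2) + 2^(P.k/2)) + 2 := add_le_add (add_le_add h1 h2) h3
    _ ≤ (2^P.k + 0 + 2^P.k) + 2 * 2^P.k := add_le_add (add_le_add p1 p2) p3
    _ = 2^(P.k+2) := by rw [add_zero, pow_add]; ring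

end Par

end Pool.Agent.L7h96.CD
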