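import Pool.Agent.L7h96.CD.Blocks

/-!
Events depending on disjoint sets of cells.
-/

set_option autoImplicit false

namespace Pool.Agent.L7h96.CD

open MeasureTheory ProbabilityTheory
open scoped NNReal ENNReal
open Pool.Agent.R966.CD (E gam S S_zero S_sub measurable_S Q Q_eq Q_mono Q_union Q_biUnion Q_small
  Q_large)
open Pool.Agent.R966.CD.Par (lmarginal_const_mul)

variable {n : ℕ}

/-- the event `s` only depends on the cells of `D` -/
def Dep (D : Finset ℤ) (s : Set (ℤ → E n)) : Prop :=
  ∀ x y : ℤ → E n, (∀ j ∈ D, x j = y j) → (x ∈ s ↔ y ∈ s)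

theorem Q_le_one (v : ℝ≥0) (A : Finset ℤ) (s : Set (ℤ → E n)) (x : ℤ → E n) : Q n v A s x ≤ 1 := by
  unfold Q
  exact prob_le_one

/-- **independence** -/
theorem Q_inter {ι : Type*} [DecidableEq ι] (v : ℝ≥0) (ε : ℝ≥0∞) (D : ι → Finset ℤ)
    (s : ι → Set (ℤ → E n)) (T : Finset ι) : (∀ k ∈ T, MeasurableSet (s k)) →
    (∀ k ∈ T, Dep (D k) (s k)) → (∀ k ∈ T, ∀ k' ∈ T, k ≠ k' → Disjoint (D k) (D k')) →
    (∀ k ∈ T, ∀ x, Q n v (D k) (s k) x ≤ ε) → ∀ (A : Finset ℤ), (∀ k ∈ T, D k ⊆ A) →
    ∀ x, Q n v A (⋂ k ∈ T, s k) x ≤ ε ^ T.card := by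
  induction T using Finset.induction_on with
  | empty =>
    intro _ _ _ _ A _ x
    rw [Finset.card_empty, pow_zero]
    exact Q_le_one _ _ _ _
  | insert k T hk ih =>
    intro hm hdep hdis hQ A hA x
    have ih' := ih (fun j hj => hm j (Finset.mem_insert_of_mem hj))
      (fun j hj => hdep j (Finset.mem_insert_of_mem hj))
      (fun j hj j' hj' => hdis j (Finset.mem_insert_of_mem hj) j' (Finset.mem_insert_of_mem hj'))
      (fun j hj => hQ j (Finset.mem_insert_of_mem hj)) (A \ D k)
      (fun j hj => by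
        intro a ha
        rw [Finset.mem_sdiff]
        refine ⟨hA j (Finset.mem_insert_of_mem hj) ha, ?_⟩
        exact Finset.disjoint_left.mp (hdis j (Finset.mem_insert_of_mem hj) k
          (Finset.mem_insert_self _ _) (by rintro rfl; exact hk hj)) ha)
    have hmk := hm k (Finset.mem_insert_self _ _)
    have hmT : MeasurableSet (⋂ j ∈ T, s j) :=
      Finset.measurableSet_biInter _ fun j hj => hm j (Finset.mem_insert_of_mem hj)
    have hset : (⋂ j ∈ insert k T, s j) = s k ∩ ⋂ j ∈ T, s j := by
      rw [Finset.set_biInter_insert]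
    rw [hset]
    have hAe : A = (A \ D k) ∪ D k := by
      rw [Finset.sdiff_union_of_subset (hA k (Finset.mem_insert_self _ _))]
    have hdd : Disjoint (A \ D k) (D k) := Finset.sdiff_disjoint
    have hmI : Measurable ((s k ∩ ⋂ j ∈ T, s j).indicator (1 : (ℤ → E n) → ℝ≥0∞)) :=
      measurable_one.indicator (hmk.inter hmT)
    rw [← Q_eq v A _ (hmk.inter hmT) x]
    conv_lhs => rw [hAe]
    rw [lmarginal_union _ _ hmI hdd]
    have hstep : (∫⋯∫⁻_(D k), (s k ∩ ⋂ j ∈ T, s j).indicator (1 : (ℤ → E n) → ℝ≥0∞)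
        ∂(fun _ => gam n v)) ≤ fun y => ε * (⋂ j ∈ T, s j).indicator (1 : (ℤ → E n) → ℝ≥0∞) y := by
      intro y
      by_cases hy : y ∈ ⋂ j ∈ T, s j
      · beta_reduce
        rw [Set.indicator_of_mem hy, Pi.one_apply, mul_one]
        refine le_trans ?_ (hQ k (Finset.mem_insert_self _ _) y)
        rw [← Q_eq v (D k) _ hmk y]
        refine lmarginal_mono ?_ y
        intro z
        exact Set.indicator_le_indicator_of_subset (Set.inter_subset_left) (fun _ => zero_le) z
      · beta_reduce
        rw [Set.indicator_of_notMem hy, mul_zero]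
        have hz : ∀ z : (D k) → E n, Function.updateFinset y (D k) z ∉ ⋂ j ∈ T, s j := by
          intro z hz
          apply hy
          rw [Set.mem_iInter₂] at hz ⊢
          intro j hj
          refine ((hdep j (Finset.mem_insert_of_mem hj)) _ _ ?_).mp (hz j hj)
          intro a ha
          rw [Function.updateFinset, dif_neg]
          intro ha'
          exact Finset.disjoint_left.mp (hdis j (Finset.mem_insert_of_mem hj) k
            (Finset.mem_insert_self _ _) (by rintro rfl; exact hk hj)) ha ha'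
        unfold lmarginal
        refine le_of_eq ?_
        rw [lintegral_eq_zero_iff]
        · refine Filter.Eventually.of_forall fun z => ?_
          beta_reduce
          rw [Pi.zero_apply, Set.indicator_of_notMem]
          intro h
          exact hz z h.2
        · exact hmI.comp measurable_updateFinset
    refine (lmarginal_mono hstep x).trans ?_
    have h2 : (∫⋯∫⁻_(A \ D k), (fun y => ε * (⋂ j ∈ T, s j).indicator (1 : (ℤ → E n) → ℝ≥0∞) y)
        ∂(fun _ => gam n v)) x = ε * Q n v (A \ D k) (⋂ j ∈ T, s j) x := by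
      rw [← Q_eq v (A \ D k) _ hmT x]
      exact lmarginal_const_mul _ _ _ _ (measurable_one.indicator hmT) x
    rw [h2, Finset.card_insert_of_notMem hk, pow_succ']
    exact mul_le_mul_right (ih' x) _

end Pool.Agent.L7h96.CD
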