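import Pool.Agent.R966.CD.Path

/-!
Weights on the image of a path, from good levels: a level is good if most of the instants of each
macroscopic block are not covered by a pair of neighbours in space which are not neighbours in time.
-/

set_option autoImplicit false

namespace Pool.Agent.L7h96.CD

open scoped NNReal ENNReal
open Pool.Agent.R966.CD (Steps lst Tr BadSet BD Wt)

variable {E : Type*} [MetricSpace E]

/-- level `j` is good at time `t`: no returns from afar, no large oscillations, and few covered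
instants -/
structure GoodLevel (γ : ℝ → E) (R b M δ : ℝ) (n1 K0 : ℕ) (j : ℕ) (t : ℝ) : Prop where
  ret : ∀ u ∈ Set.Icc (0:ℝ) 1, dist (γ t) (γ u) < 5 * (R / b^j) → |u - t| ≤ M / b^(2*j)
  osc : ∀ u ∈ Set.Icc (0:ℝ) 1, ∀ v ∈ Set.Icc (0:ℝ) 1, |u - t| ≤ M / b^(2*j) →
    |v - t| ≤ M / b^(2*j) → (R / b^j) / 2 < dist (γ u) (γ v) →
    16 * (n1 * (δ / b^(2*(j+1)))) ≤ |u - v|
  chain : ∀ c : ℤ, c ≠ -1 → c ≠ 0 → -(M / b^(2*j)) ≤ (c - 1) * (n1 * (δ / b^(2*(j+1)))) →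
    (c + 2) * (n1 * (δ / b^(2*(j+1)))) ≤ M / b^(2*j) →
    ∃ T ⊆ Finset.Ico (c * (n1 : ℤ)) ((c + 1) * n1), 4 * T.card ≤ n1 ∧
    ∀ a ∈ Finset.Ico (c * (n1 : ℤ)) ((c + 1) * n1), a ∉ T → ∀ u ∈ Set.Icc (0:ℝ) 1,
      ∀ v ∈ Set.Icc (0:ℝ) 1, |u - t| ≤ M / b^(2*j) → |v - t| ≤ M / b^(2*j) →
      u ≤ t + a * (δ / b^(2*(j+1))) → t + a * (δ / b^(2*(j+1))) ≤ v →
      dist (γ u) (γ v) < 5 * (R / b^(j+1)) → v - u ≤ K0 * (δ / b^(2*(j+1)))

theorem grid_card {dt t u w : ℝ} (hdt : 0 < dt) {K0 : ℕ} (h : |u - w| ≤ K0 * dt) (G : Finset ℤ)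
    (hG : ∀ a ∈ G, t + a * dt ∈ Set.uIcc u w) : G.card ≤ K0 + 1 := by
  rcases G.eq_empty_or_nonempty with rfl | hne
  · simp
  · have hsub : G ⊆ Finset.Icc (G.min' hne) (G.min' hne + K0) := by
      intro a ha
      rw [Finset.mem_Icc]
      refine ⟨G.min'_le a ha, ?_⟩
      have h1 := hG a ha
      have h2 := hG _ (G.min'_mem hne)
      rw [Set.mem_uIcc] at h1 h2
      have h3 : ((a:ℝ) - (G.min' hne : ℤ)) * dt ≤ |u - w| := by
        have e : ((a:ℝ) - (G.min' hne : ℤ)) * dt = (t + a * dt) - (t + (G.min' hne : ℤ) * dt) := by ring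
        rw [e]
        rcases h1 with h1 | h1 <;> rcases h2 with h2 | h2
        · have := neg_abs_le (u - w)
          linarith [h1.1, h1.2, h2.1, h2.2]
        · have := neg_abs_le (u - w)
          linarith [h1.1, h1.2, h2.1, h2.2]
        · have := le_abs_self (u - w)
          linarith [h1.1, h1.2, h2.1, h2.2]
        · have := le_abs_self (u - w)
          linarith [h1.1, h1.2, h2.1, h2.2]
      have h4 : ((a:ℝ) - (G.min' hne : ℤ)) * dt ≤ K0 * dt := h3.trans h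
      have h5 := le_of_mul_le_mul_right h4 hdt
      have h6 : (a:ℝ) ≤ ((G.min' hne + K0 : ℤ) : ℝ) := by push_cast; linarith
      exact_mod_cast h6
    refine (Finset.card_le_card hsub).trans ?_
    rw [Int.card_Icc]
    omega

/-- instants which are not covered -/
def Uncov (γ : ℝ → E) (R b M δ : ℝ) (K0 : ℕ) (j : ℕ) (t : ℝ) (a : ℤ) : Prop :=
  ∀ u ∈ Set.Icc (0:ℝ) 1, ∀ v ∈ Set.Icc (0:ℝ) 1, |u - t| ≤ M / b^(2*j) → |v - t| ≤ M / b^(2*j) →
    u ≤ t + a * (δ / b^(2*(j+1))) → t + a * (δ / b^(2*(j+1))) ≤ v →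
    dist (γ u) (γ v) < 5 * (R / b^(j+1)) → v - u ≤ K0 * (δ / b^(2*(j+1)))

theorem follow {γ : ℝ → E} {R b M δ : ℝ} {n1 K0 : ℕ} {j : ℕ} {t : ℝ}
    (h : GoodLevel γ R b M δ n1 K0 j t) (hR : 0 < R) (hb : 0 < b) (hδ : 0 < δ) :
    ∀ (L : List (Tr γ)) (y : Tr γ) (u : ℝ), u ∈ Set.Icc (0:ℝ) 1 → γ u = y → |u - t| ≤ M / b^(2*j) →
      Steps (4 * (R / b^(j+1))) y L → (∀ z ∈ L, dist (γ t) (z : E) < 5 * (R / b^j)) →
      ∃ v ∈ Set.Icc (0:ℝ) 1, γ v = (lst y L : Tr γ) ∧ |v - t| ≤ M / b^(2*j) ∧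
        ∀ G : Finset ℤ, (∀ a ∈ G, Uncov γ R b M δ K0 j t a) →
          (∀ a ∈ G, t + a * (δ / b^(2*(j+1))) ∈ Set.uIcc u v) →
          G.card ≤ L.length * (K0 + 1) + 1 := by
  classical
  have hdt : 0 < δ / b^(2*(j+1)) := by positivity
  intro L
  induction L with
  | nil =>
    intro y u hu hγ ht _ _
    refine ⟨u, hu, hγ, ht, ?_⟩
    intro G' _ hG'
    have h1 := grid_card hdt (K0 := 0) (u := u) (w := u) (by simp) G' hG'
    simpa using h1
  | cons z L ih =>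
    intro y u hu hγ ht hS hz
    obtain ⟨v, hv, hγv⟩ := z.2
    have h1 : |v - t| ≤ M / b^(2*j) := by
      apply h.ret v hv
      rw [hγv]
      exact hz z List.mem_cons_self
    have h3 : dist (γ u) (γ v) < 5 * (R / b^(j+1)) := by
      rw [hγ, hγv]
      have h3 : dist (y : E) (z : E) ≤ 4 * (R / b^(j+1)) := hS.1
      have h4 : 0 < R / b^(j+1) := by positivity
      linarith
    obtain ⟨v', hv', e1, e2, e3⟩ := ih z v hv hγv h1 hS.2
      (fun w hw => hz w (List.mem_cons_of_mem _ hw))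
    refine ⟨v', hv', e1, e2, ?_⟩
    intro G hGG hG
    obtain ⟨G1, hG1⟩ : ∃ G1 : Finset ℤ, G1 = G.filter
      (fun a : ℤ => t + a * (δ / b^(2*(j+1))) ∈ Set.uIcc u v) := ⟨_, rfl⟩
    obtain ⟨G2, hG2⟩ : ∃ G2 : Finset ℤ, G2 = G.filter
      (fun a : ℤ => t + a * (δ / b^(2*(j+1))) ∈ Set.uIcc v v') := ⟨_, rfl⟩
    have hcard1 : G1.card ≤ K0 + 1 := by
      rcases G1.eq_empty_or_nonempty with he | ⟨a, ha⟩
      · rw [he]; simp
      · have hG1u : ∀ a ∈ G1, t + a * (δ / b^(2*(j+1))) ∈ Set.uIcc u v := by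
          intro a ha
          rw [hG1, Finset.mem_filter] at ha
          exact ha.2
        have haG : a ∈ G := by
          rw [hG1, Finset.mem_filter] at ha
          exact ha.1
        refine grid_card hdt (t := t) (u := u) (w := v) ?_ _ hG1u
        have h5 := hG1u a ha
        rw [Set.mem_uIcc] at h5
        rcases h5 with h5 | h5
        · have h6 := hGG a haG u hu v hv ht h1 h5.1 h5.2 h3
          rw [abs_sub_comm, abs_of_nonneg (by linarith [h5.1, h5.2])]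
          exact h6
        · have h6 := hGG a haG v hv u hu h1 ht h5.1 h5.2 (by rwa [dist_comm])
          rw [abs_of_nonneg (by linarith [h5.1, h5.2])]
          exact h6
    have hcard2 : G2.card ≤ L.length * (K0 + 1) + 1 := by
      apply e3 G2
      · intro a ha
        rw [hG2, Finset.mem_filter] at ha
        exact hGG a ha.1
      · intro a ha
        rw [hG2, Finset.mem_filter] at ha
        exact ha.2
    have hsub : G ⊆ G1 ∪ G2 := by
      intro a ha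
      rw [Finset.mem_union, hG1, hG2, Finset.mem_filter, Finset.mem_filter]
      have h5 := Set.uIcc_subset_uIcc_union_uIcc (b := v) (hG a ha)
      rcases h5 with h5 | h5
      · exact Or.inl ⟨ha, h5⟩
      · exact Or.inr ⟨ha, h5⟩
    have h6 := (Finset.card_le_card hsub).trans (Finset.card_union_le _ _)
    rw [List.length_cons]
    nlinarith

/-- choice of a block -/
theorem exists_block {B lo hi : ℝ} (hB : 0 < B) (h : 16 * B ≤ hi - lo) :
    ∃ c : ℤ, c ≠ -1 ∧ c ≠ 0 ∧ lo ≤ (c - 1) * B ∧ (c + 2) * B ≤ hi := by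
  have h1 := Int.le_ceil (lo / B)
  have h2 := Int.ceil_lt_add_one (lo / B)
  rw [div_le_iff₀ hB] at h1
  have h3 : (⌈lo / B⌉ : ℝ) * B < lo + B := by
    have := mul_lt_mul_of_pos_right h2 hB
    rwa [add_mul, div_mul_cancel₀ _ hB.ne', one_mul] at this
  rcases eq_or_ne (⌈lo / B⌉ + 1) (-1) with h4 | h4
  · refine ⟨⌈lo / B⌉ + 3, by omega, by omega, ?_, ?_⟩
    · push_cast; nlinarith
    · push_cast; nlinarith
  · rcases eq_or_ne (⌈lo / B⌉ + 1) 0 with h5 | h5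
    · refine ⟨⌈lo / B⌉ + 3, by omega, by omega, ?_, ?_⟩
      · push_cast; nlinarith
      · push_cast; nlinarith
    · refine ⟨⌈lo / B⌉ + 1, h4, h5, ?_, ?_⟩
      · push_cast; nlinarith
      · push_cast; nlinarith

theorem not_near_bad {γ : ℝ → E} {R b M δ s : ℝ} {n1 K0 : ℕ} {j : ℕ} {t : ℝ}
    (ht : t ∈ Set.Icc (0:ℝ) 1)
    (h : GoodLevel γ R b M δ n1 K0 j t) (hR : 0 < R) (hb : 0 < b) (hδ : 0 < δ) (hn1 : 0 < n1)
    (hs : (2 / s) * (K0 + 1) ≤ 3 / 4 * n1) (y : Tr γ) (hy : y ∈ BadSet γ R b s j) :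
    3 * (R / b^j) ≤ dist (⟨γ t, t, ht, rfl⟩ : Tr γ) y := by
  classical
  by_contra hc
  have hc' : dist (γ t) (y : E) < 3 * (R / b^j) := not_le.mp hc
  obtain ⟨L, hS, hL, hr, hlen⟩ := hy
  obtain ⟨u, hu, hγu⟩ := y.2
  have hrj : 0 < R / b^j := by positivity
  obtain ⟨dt, hdt⟩ : ∃ dt, dt = δ / b^(2*(j+1)) := ⟨_, rfl⟩
  have hdt0 : 0 < dt := by rw [hdt]; positivity
  have hn1' : (0:ℝ) < n1 := by exact_mod_cast hn1
  have h1 : |u - t| ≤ M / b^(2*j) := by
    apply h.ret u hu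
    rw [hγu]
    linarith
  have hLt : ∀ z ∈ L, dist (γ t) (z : E) < 5 * (R / b^j) := by
    intro z hz
    have h2 : dist (y : E) (z : E) ≤ 2 * (R / b^j) := hL z hz
    have h3 := dist_triangle (γ t) (y : E) (z : E)
    linarith
  -- the good instants of a block
  have key : ∀ lo hi : ℝ, -(M / b^(2*j)) ≤ lo - t → hi - t ≤ M / b^(2*j) → 16 * (n1 * dt) ≤ hi - lo →
      ∃ G : Finset ℤ, 3 * n1 ≤ 4 * G.card ∧ (∀ a ∈ G, lo ≤ t + a * dt ∧ t + a * dt ≤ hi) ∧
      (∀ a ∈ G, Uncov γ R b M δ K0 j t a) := by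
    intro lo hi hlo hhi hd
    obtain ⟨c, hc1, hc2, hc3, hc4⟩ := exists_block (lo := lo - t) (hi := hi - t)
      (show 0 < n1 * dt by positivity) (by linarith)
    have hB : 0 < n1 * dt := by positivity
    obtain ⟨T, hT, hTc, hTa⟩ := h.chain c hc1 hc2 (by rw [← hdt]; linarith) (by rw [← hdt]; linarith)
    refine ⟨Finset.Ico (c * (n1 : ℤ)) ((c + 1) * n1) \ T, ?_, ?_, ?_⟩
    · have h2 := Finset.card_sdiff_of_subset hT
      rw [h2, Int.card_Ico]
      have h3 : (((c + 1) * n1 - c * n1 : ℤ)).toNat = n1 := by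
        have : ((c + 1) * n1 - c * n1 : ℤ) = n1 := by ring
        rw [this, Int.toNat_natCast]
      rw [h3]
      omega
    · intro a ha
      rw [Finset.mem_sdiff, Finset.mem_Ico] at ha
      have h3 : ((c * (n1 : ℤ) : ℤ) : ℝ) ≤ a := by exact_mod_cast ha.1.1
      have h4 : (a : ℝ) ≤ (((c + 1) * (n1 : ℤ) : ℤ) : ℝ) := by exact_mod_cast ha.1.2.le
      push_cast at h3 h4
      have h5 : (c * n1 : ℝ) * dt ≤ a * dt := mul_le_mul_of_nonneg_right h3 hdt0.le
      have h6 : a * dt ≤ ((c + 1) * n1 : ℝ) * dt := mul_le_mul_of_nonneg_right h4 hdt0.le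
      have e1 : (c * n1 : ℝ) * dt = (c - 1) * (n1 * dt) + n1 * dt := by ring
      have e2 : ((c + 1) * n1 : ℝ) * dt = (c + 2) * (n1 * dt) - n1 * dt := by ring
      constructor <;> linarith
    · intro a ha
      rw [Finset.mem_sdiff] at ha
      exact hTa a ha.1 ha.2
  have hfin : ∃ G : Finset ℤ, 3 * n1 ≤ 4 * G.card ∧ G.card ≤ L.length * (K0 + 1) + 1 := by
    obtain ⟨v, hv, e1, e2, e3⟩ := follow h hR hb hδ L y u hu hγu h1 hS hLt
    have h4 : 16 * (n1 * (δ / b^(2*(j+1)))) ≤ |u - v| := by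
      apply h.osc u hu v hv h1 e2
      rw [hγu, e1]
      have h5 : R / b^j ≤ dist (y : E) ((lst y L : Tr γ) : E) := hr
      linarith
    rw [← hdt] at h4
    have hu' := abs_le.mp h1
    have hv' := abs_le.mp e2
    rcases le_total u v with huv | huv
    · rw [abs_sub_comm, abs_of_nonneg (by linarith)] at h4
      obtain ⟨G, hG1, hG2, hG3⟩ := key u v hu'.1 hv'.2 h4
      refine ⟨G, hG1, e3 G hG3 ?_⟩
      intro a ha
      rw [← hdt, Set.mem_uIcc]
      exact Or.inl (hG2 a ha)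
    · rw [abs_of_nonneg (by linarith)] at h4
      obtain ⟨G, hG1, hG2, hG3⟩ := key v u hv'.1 hu'.2 h4
      refine ⟨G, hG1, e3 G hG3 ?_⟩
      intro a ha
      rw [← hdt, Set.mem_uIcc]
      exact Or.inr (hG2 a ha)
  obtain ⟨G, hG1, hG2⟩ := hfin
  have h5 : (3:ℝ) * n1 ≤ 4 * G.card := by exact_mod_cast hG1
  have h6 : (G.card : ℝ) ≤ L.length * (K0 + 1) + 1 := by exact_mod_cast hG2
  have h7 : ((L.length : ℝ) + 1) * (K0 + 1) < (2 / s) * (K0 + 1) := by
    apply mul_lt_mul_of_pos_right hlen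
    positivity
  have h8 : (0:ℝ) ≤ K0 := Nat.cast_nonneg _
  nlinarith

open Classical in
/-- number of bad levels -/
noncomputable def badCount (γ : ℝ → E) (R b M δ : ℝ) (n1 K0 : ℕ) (k : ℕ) (t : ℝ) : ℕ :=
  ((Finset.range k).filter fun j => ¬ GoodLevel γ R b M δ n1 K0 j t).card

/-- numerical constants -/
structure Cst (R b δ : ℝ) (n1 K0 : ℕ) (s τ : ℝ) : Prop where
  hR : 0 < R
  hb : 11 ≤ b
  hδ : 0 < δ
  hn1 : 0 < n1
  hs : 0 < s
  hsτ : s ≤ τ
  hτ : τ < 1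
  hτb : 8 ≤ τ * b
  hlog : 4 * Real.log (τ / s) ≤ (b - 1) * Real.log 2
  hsK : (2 / s) * (K0 + 1) ≤ 3 / 4 * n1

/-- the data of the construction on the trace -/
def bd (γ : ℝ → E) {R b δ s τ : ℝ} {n1 K0 : ℕ} (C : Cst R b δ n1 K0 s τ) : BD (Tr γ) where
  R := R
  b := b
  s := s
  τ := τ
  Bad := BadSet γ R b s
  hR := C.hR
  hb := C.hb
  hs := C.hs
  hsτ := C.hsτ
  hτ := C.hτ
  hτb := C.hτb
  hlog := C.hlog
  good := by
    intro k x L hx hS hL hr
    by_contra hc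
    exact hx ⟨L, hS, hL, hr, not_le.mp hc⟩

/-- **Deterministic theorem.** -/
theorem det (γ : ℝ → E) (hγ : ContinuousOn γ (Set.Icc 0 1)) {R b M δ s τ : ℝ} {n1 K0 : ℕ}
    (C : Cst R b δ n1 K0 s τ) (q : ℝ≥0)
    (h : ∀ (ε : ℝ) (k0 : ℕ), 0 < ε → ∃ k n : ℕ, k0 ≤ k ∧ 0 < n ∧
      (∀ u ∈ Set.Icc (0:ℝ) 1, ∃ i ∈ Finset.range (n+1), dist (γ (i / n)) (γ u) ≤ R / b^k) ∧
      ∑ i ∈ Finset.range (n+1), (s^k * (τ / s)^(badCount γ R b M δ n1 K0 k (i / n))) ^ (q : ℝ) ≤ ε) :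
    ∃ W : Wt (Tr γ), (∃ η : ℝ≥0 ≃ₜ ℝ≥0, ∀ (x a c : Tr γ) (t : ℝ≥0), dist x a ≤ t * dist x c →
      dist (W.homeo x) (W.homeo a) ≤ η t * dist (W.homeo x) (W.homeo c)) ∧
      dimH (Set.univ : Set W.Y) ≤ q := by
  classical
  refine ⟨(bd γ C).wt, ?_, ?_⟩
  · have hcomp : IsCompact (Tr γ) := isCompact_Icc.image_of_continuousOn hγ
    obtain ⟨D, hD⟩ := (Metric.isBounded_iff.mp hcomp.isBounded)
    obtain ⟨η, hη⟩ := (bd γ C).wt.qs D (fun x y => hD x.2 y.2)
    exact ⟨η, fun x a c t ht => hη x a c t ht⟩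
  · apply Wt.dimH_le
    intro ε k0 hε
    obtain ⟨k, n, hk, hn, hcov, hsum⟩ := h ε k0 hε
    have hmem : ∀ i ∈ Finset.range (n+1), ((i : ℝ) / n) ∈ Set.Icc (0:ℝ) 1 := by
      intro i hi
      have hi' : i ≤ n := by have := Finset.mem_range.mp hi; omega
      have hn' : (0:ℝ) < n := by exact_mod_cast hn
      constructor
      · positivity
      · rw [div_le_one hn']; exact_mod_cast hi'
    set pt : ℕ → Tr γ := fun i => if hi : ((i : ℝ) / n) ∈ Set.Icc (0:ℝ) 1 then ⟨γ (i / n), _, hi, rfl⟩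
      else ⟨γ 0, 0, by simp, rfl⟩ with hpt
    have hpt' : ∀ i ∈ Finset.range (n+1), (pt i : E) = γ (i / n) := by
      intro i hi
      rw [hpt]
      simp only
      rw [dif_pos (hmem i hi)]
    refine ⟨k, hk, (Finset.range (n+1)).image pt, ?_, ?_⟩
    · intro x
      obtain ⟨u, hu, hγu⟩ := x.2
      obtain ⟨i, hi, hd⟩ := hcov u hu
      refine ⟨pt i, Finset.mem_image_of_mem _ hi, ?_⟩
      show dist (pt i : E) (x : E) ≤ _
      rw [hpt' i hi, ← hγu]
      exact hd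
    · refine le_trans (Finset.sum_image_le_of_nonneg ?_) (le_trans (Finset.sum_le_sum ?_) hsum)
      · intro y _
        have := (bd γ C).wt.p_pos k y
        positivity
      · intro i hi
        apply Real.rpow_le_rpow ((bd γ C).wt.p_pos k _).le _ q.2
        refine (bd γ C).p_le k (pt i) _ ?_
        unfold badCount
        apply Finset.card_le_card
        intro j hj
        rw [Finset.mem_filter] at hj ⊢
        refine ⟨hj.1, fun hg => ?_⟩
        obtain ⟨y, hy, hd⟩ := hj.2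
        have h1 := not_near_bad (hmem i hi) hg C.hR (by linarith [C.hb]) C.hδ C.hn1 C.hsK y hy
        have h2 : pt i = ⟨γ (i / n), _, hmem i hi, rfl⟩ := by
          rw [hpt]; simp only; rw [dif_pos (hmem i hi)]
        rw [h2] at hd
        have h3 : (bd γ C).r j = R / b^j := rfl
        rw [h3] at hd
        linarith

end Pool.Agent.L7h96.CD
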