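import Pool.Agent.L7h96.CD.Count
import Pool.Agent.L7h96.CD.Path

/-!
From the walks to the path.
-/

set_option autoImplicit false

namespace Pool.Agent.L7h96.CD

open MeasureTheory ProbabilityTheory Filter Topology
open scoped NNReal ENNReal
open Pool.Agent.R966.CD (E gam S S_zero S_sub tr tr_abs tr_near tr_range tr_tendsto)

/-- the parameters which do not depend on the resolution -/
structure Prm where
  β : ℕ
  α : ℕ
  q : ℕ
  hβ : β = 4 * α
  hq : β ≤ 2^q
  hα : 100 * (q + 50) ≤ α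

/-- the exponent of the resolution -/
def NN (D : Prm) (k m a : ℕ) : ℕ := 2*D.β*(k+2) + 2*k + 100 + D.q + m + a

/-- the parameters along the refinements -/
def PP (D : Prm) (k m : ℕ) (a : ℕ) : Par where
  N := NN D k m a
  β := D.β
  α := D.α
  q := D.q
  k := k
  hβ := D.hβ
  hq := D.hq
  hα := D.hα
  hN := by unfold NN; omega

/-- number of instants of a macroscopic block -/
def Prm.n1 (D : Prm) : ℕ := 2^(2*D.β - 13)

/-- mesoscopic scale -/
def Prm.K0 (D : Prm) : ℕ := 2^(30 + 2*D.q) + 1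

/-- step -/
noncomputable def Prm.δ (D : Prm) : ℝ := 1 / 2^(12 + D.q)

theorem NN_tendsto (D : Prm) (k m : ℕ) : Tendsto (NN D k m) atTop atTop := by
  refine tendsto_atTop_mono (f := fun a => a) (fun a => ?_) tendsto_id
  unfold NN
  omega

theorem tr_le {t u : ℝ} {N : ℕ} {z : ℤ} (h : (u - t) * 2^N ≤ z) : tr t u N ≤ z := by
  unfold tr
  split
  · rename_i h0
    have h1 : 0 ≤ (u - t) * 2^N := by
      have : 0 ≤ u - t := by linarith
      positivity
    have h2 := Nat.floor_le h1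
    have h3 : ((⌊(u - t) * 2^N⌋₊ : ℤ) : ℝ) ≤ (z : ℝ) := by push_cast; linarith
    exact_mod_cast h3
  · rename_i h0
    have h1 : 0 ≤ (t - u) * 2^N := by
      have : 0 ≤ t - u := by linarith
      positivity
    have h2 : (-z).toNat ≤ ⌊(t - u) * 2^N⌋₊ := by
      apply Nat.le_floor
      rcases le_total 0 (-z) with h3 | h3
      · have h4 : (((-z).toNat : ℕ) : ℝ) = ((-z : ℤ) : ℝ) := by
          have := Int.toNat_of_nonneg h3
          exact_mod_cast this
        rw [h4]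
        push_cast
        linarith
      · rw [Int.toNat_of_nonpos h3]
        simpa using h1
    omega

theorem le_tr {t u : ℝ} {N : ℕ} {z : ℤ} (h : z ≤ (u - t) * 2^N) : z ≤ tr t u N := by
  unfold tr
  split
  · rename_i h0
    have h1 : 0 ≤ (u - t) * 2^N := by
      have : 0 ≤ u - t := by linarith
      positivity
    have h2 : z.toNat ≤ ⌊(u - t) * 2^N⌋₊ := by
      apply Nat.le_floor
      rcases le_total 0 z with h3 | h3
      · have h4 : ((z.toNat : ℕ) : ℝ) = (z : ℝ) := by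
          have := Int.toNat_of_nonneg h3
          exact_mod_cast this
        rw [h4]
        exact h
      · rw [Int.toNat_of_nonpos h3]
        simpa using h1
    omega
  · rename_i h0
    have h1 : 0 ≤ (t - u) * 2^N := by
      have : 0 ≤ t - u := by linarith
      positivity
    have h2 := Nat.floor_le h1
    have h3 : (z : ℝ) ≤ ((-(⌊(t - u) * 2^N⌋₊ : ℤ) : ℤ) : ℝ) := by push_cast; linarith
    exact_mod_cast h3

/-- **a level which is good for the walks infinitely often is good for the path** -/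
theorem good_of_frequently {n : ℕ} (γ : ℝ → E n) (hγ : ContinuousOn γ (Set.Icc 0 1)) (D : Prm)
    (k m i : ℕ) (hi : i ≤ 2^m) (j : ℕ) (hj : j < k) (x : ℕ → ℤ → E n)
    (hx : ∀ a : ℕ, ∀ u : ℤ, -((i * 2^(NN D k m a - m) : ℕ) : ℤ) ≤ u →
      u ≤ (2^(NN D k m a) : ℕ) - ((i * 2^(NN D k m a - m) : ℕ) : ℤ) →
      S (x a) u = γ ((i:ℝ)/2^m + u / 2^(NN D k m a)) - γ ((i:ℝ)/2^m))
    (hf : ∃ᶠ a in atTop, (PP D k m a).GG n j (x a)) :
    GoodLevel γ (Real.sqrt n) (2^D.β) (2^(2*D.α)) D.δ D.n1 D.K0 j ((i:ℝ)/2^m) := by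
  set t : ℝ := (i:ℝ)/2^m with ht
  have ht01 : t ∈ Set.Icc (0:ℝ) 1 := by
    constructor
    · positivity
    · rw [ht, div_le_one (by positivity)]
      exact_mod_cast hi
  have hNm : ∀ a, m ≤ NN D k m a := by intro a; unfold NN; omega
  have hc : ∀ a, ((i * 2^(NN D k m a - m) : ℕ) : ℝ) = t * 2^(NN D k m a) := by
    intro a
    push_cast
    obtain ⟨e, he⟩ : ∃ e, NN D k m a = m + e := ⟨NN D k m a - m, by have := hNm a; omega⟩
    rw [he, Nat.add_sub_cancel_left, pow_add, ht]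
    field_simp
  have hP : ∀ a, (PP D k m a).N = NN D k m a := fun a => rfl
  -- the value of the walk at the truncations
  have hval : ∀ u ∈ Set.Icc (0:ℝ) 1, ∀ a, S (x a) (tr t u (NN D k m a)) =
      γ (t + (tr t u (NN D k m a)) / 2^(NN D k m a)) - γ t := by
    intro u hu a
    obtain ⟨h1, h2⟩ := tr_range ht01.2 hu (NN D k m a) _ (hc a)
    exact hx a _ h1 h2
  have hmem : ∀ u ∈ Set.Icc (0:ℝ) 1, ∀ a, t + (tr t u (NN D k m a)) / 2^(NN D k m a) ∈ Set.Icc (0:ℝ) 1 := by
    intro u hu a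
    obtain ⟨h1, h2⟩ := tr_range ht01.2 hu (NN D k m a) _ (hc a)
    have h1' : -(((i * 2^(NN D k m a - m) : ℕ) : ℝ)) ≤ (tr t u (NN D k m a) : ℝ) := by exact_mod_cast h1
    have h2' : (tr t u (NN D k m a) : ℝ) ≤ ((2^(NN D k m a) : ℕ) : ℝ) - ((i * 2^(NN D k m a - m) : ℕ) : ℝ) := by
      exact_mod_cast h2
    rw [hc a] at h1' h2'
    push_cast at h2'
    have hpos : (0:ℝ) < 2^(NN D k m a) := by positivity
    constructor
    · have : -t ≤ (tr t u (NN D k m a) : ℝ) / 2^(NN D k m a) := by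
        rw [le_div_iff₀ hpos]; linarith
      linarith
    · have : (tr t u (NN D k m a) : ℝ) / 2^(NN D k m a) ≤ 1 - t := by
        rw [div_le_iff₀ hpos]; linarith
      linarith
  have hlim : ∀ u ∈ Set.Icc (0:ℝ) 1, Tendsto (fun a => S (x a) (tr t u (NN D k m a))) atTop
      (𝓝 (γ u - γ t)) := by
    intro u hu
    have h1 : Tendsto (fun a => t + (tr t u (NN D k m a) : ℝ) / 2^(NN D k m a)) atTop
        (𝓝[Set.Icc (0:ℝ) 1] u) := by
      rw [tendsto_nhdsWithin_iff]
      refine ⟨?_, Eventually.of_forall (hmem u hu)⟩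
      have := (tr_tendsto t u _ (NN_tendsto D k m)).const_add t
      rwa [add_sub_cancel] at this
    have h2 := (hγ u hu).tendsto.comp h1
    refine (h2.sub_const (γ t)).congr fun a => ?_
    rw [hval u hu a]
    rfl
  have hbp : ∀ j : ℕ, ((2:ℝ)^D.β)^(2*j) = 2^(2*D.β*j) := by
    intro j; rw [← pow_mul]; congr 1; ring
  have hbp1 : ∀ j : ℕ, ((2:ℝ)^D.β)^j = 2^(D.β*j) := by
    intro j; rw [← pow_mul]
  have hr : ∀ a j, (PP D k m a).r n j = Real.sqrt n / ((2:ℝ)^D.β)^j := by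
    intro a j
    rw [hbp1]
    rfl
  -- the windows
  have hw : ∀ a i, i ≤ k + 1 → (((PP D k m a).w i : ℕ) : ℝ) =
      2^(2*D.α) / 2^(2*D.β*i) * 2^(NN D k m a) := by
    intro a i hi
    have h1 := (PP D k m a).w_real (i := i) hi
    have h2 : (((PP D k m a).v : ℝ≥0) : ℝ) = (2^(NN D k m a))⁻¹ := by
      unfold Par.v
      push_cast
      rfl
    rw [h2] at h1
    have h3 : (0:ℝ) < 2^(NN D k m a) := by positivity
    rw [← div_eq_mul_inv, div_eq_iff h3.ne'] at h1
    exact h1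
  -- the step
  have hstep : ∀ a, (2:ℝ)^((PP D k m a).Hd j 1) = D.δ / ((2:ℝ)^D.β)^(2*(j+1)) * 2^(NN D k m a) := by
    intro a
    have h1 := (PP D k m a).scale_d (i := j) (l := 1) (by show j + 1 ≤ k + 1; omega)
      (by show 1 ≤ k + 1; omega)
    have h2 : (((PP D k m a).v : ℝ≥0) : ℝ) = (2^(NN D k m a))⁻¹ := by
      unfold Par.v
      push_cast
      rfl
    rw [h2] at h1
    have h3 : (0:ℝ) < 2^(NN D k m a) := by positivity
    rw [← div_eq_mul_inv, div_eq_iff h3.ne'] at h1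
    rw [h1, hbp]
    congr 1
    unfold Prm.δ
    have e1 : (PP D k m a).β = D.β := rfl
    have e2 : (PP D k m a).q = D.q := rfl
    rw [e1, e2, div_div]
    congr 1
    rw [mul_comm]
  have hnormlim : ∀ u ∈ Set.Icc (0:ℝ) 1, ∀ v ∈ Set.Icc (0:ℝ) 1,
      Tendsto (fun a => ‖S (x a) (tr t u (NN D k m a)) - S (x a) (tr t v (NN D k m a))‖) atTop
      (𝓝 (dist (γ u) (γ v))) := by
    intro u hu v hv
    have h1 := ((hlim u hu).sub (hlim v hv)).norm
    have e : ‖γ u - γ t - (γ v - γ t)‖ = dist (γ u) (γ v) := by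
      rw [dist_eq_norm]; congr 1; abel
    rwa [e] at h1
  have hdifflim' : ∀ u v : ℝ, Tendsto (fun a => (tr t u (NN D k m a) : ℝ) / 2^(NN D k m a) -
      (tr t v (NN D k m a) : ℝ) / 2^(NN D k m a)) atTop (𝓝 (u - v)) := by
    intro u v
    have h1 := ((tr_tendsto t u _ (NN_tendsto D k m)).sub (tr_tendsto t v _ (NN_tendsto D k m)))
    have e : u - t - (v - t) = u - v := by ring
    rwa [e] at h1
  have hdifflim : ∀ u v : ℝ, Tendsto (fun a => |(tr t u (NN D k m a) : ℝ) / 2^(NN D k m a) -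
      (tr t v (NN D k m a) : ℝ) / 2^(NN D k m a)|) atTop (𝓝 |u - v|) := by
    intro u v
    exact (hdifflim' u v).abs
  have hwin : ∀ u : ℝ, |u - t| ≤ 2^(2*D.α) / ((2:ℝ)^D.β)^(2*j) → ∀ a,
      |tr t u (NN D k m a)| ≤ ((PP D k m a).w j : ℤ) := by
    intro u hu a
    have h1 := tr_abs t u (NN D k m a)
    have h2 := hw a j (by omega)
    have h3 : (0:ℝ) < 2^(NN D k m a) := by positivity
    rw [hbp] at hu
    have h4 : |(tr t u (NN D k m a) : ℝ)| ≤ (((PP D k m a).w j : ℕ) : ℝ) := by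
      rw [h2]
      exact h1.trans (mul_le_mul_of_nonneg_right hu h3.le)
    exact_mod_cast h4
  refine ⟨?_, ?_, ?_⟩
  · intro u hu hd
    refine le_of_tendsto_of_frequently (hdifflim u t) ?_
    have htt : ∀ a, tr t t (NN D k m a) = 0 := by
      intro a; unfold tr; rw [if_pos le_rfl]; simp
    have hev : ∀ᶠ a in atTop, ‖S (x a) (tr t u (NN D k m a)) - S (x a) (tr t t (NN D k m a))‖ <
        5 * (Real.sqrt n / ((2:ℝ)^D.β)^j) := by
      refine (hnormlim u hu t ht01).eventually_lt_const ?_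
      rwa [dist_comm]
    refine (hf.and_eventually hev).mono ?_
    rintro a ⟨hG, h1⟩
    rw [htt a, S_zero, sub_zero, ← hr a j] at h1
    have h2 := hG.ret _ (by
      have h3 := tr_abs t u (NN D k m a)
      have h4 := hw a 0 (by omega)
      rw [mul_zero, pow_zero, div_one] at h4
      have h5 : |(tr t u (NN D k m a) : ℝ)| ≤ (((PP D k m a).w 0 : ℕ) : ℝ) := by
        rw [h4]
        refine h3.trans (mul_le_mul_of_nonneg_right ?_ (by positivity))
        rw [abs_le]
        obtain ⟨h6, h7⟩ := hu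
        obtain ⟨h8, h9⟩ := ht01
        have h10 : (1:ℝ) ≤ 2^(2*D.α) := one_le_pow₀ (by norm_num)
        constructor <;> linarith
      exact_mod_cast h5) h1
    have h3 : |(tr t u (NN D k m a) : ℝ)| ≤ (((PP D k m a).w j : ℕ) : ℝ) := by exact_mod_cast h2
    rw [hw a j (by omega)] at h3
    rw [htt a]
    have h6 : (0:ℝ) < 2^(NN D k m a) := by positivity
    rw [Int.cast_zero, zero_div, sub_zero, abs_div, abs_of_pos h6, div_le_iff₀ h6, hbp]
    exact h3
  · intro u hu v hv hut hvt hd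
    refine ge_of_tendsto_of_frequently (hdifflim u v) ?_
    have hev : ∀ᶠ a in atTop, (Real.sqrt n / ((2:ℝ)^D.β)^j) / 2 <
        ‖S (x a) (tr t u (NN D k m a)) - S (x a) (tr t v (NN D k m a))‖ :=
      (hnormlim u hu v hv).eventually_const_lt hd
    refine (hf.and_eventually hev).mono ?_
    rintro a ⟨hG, h1⟩
    rw [← hr a j] at h1
    have h2 := hG.osc _ _ (hwin u hut a) (hwin v hvt a) h1
    have h3 : (2:ℝ)^((PP D k m a).Hk j) ≤ |((tr t u (NN D k m a) : ℝ)) - (tr t v (NN D k m a) : ℝ)| := by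
      exact_mod_cast h2
    have h4 : (2:ℝ)^((PP D k m a).Hk j) = 16 * (D.n1 * (2:ℝ)^((PP D k m a).Hd j 1)) := by
      have h5 : 2*D.β*(j+1) + 2 * D.β + 2 * k + 100 + D.q ≤ NN D k m a :=
        (PP D k m a).exp_le (i := j+1) (by show j + 1 ≤ k + 1; omega)
      have h6 : 20000 ≤ D.β := (PP D k m a).β_pos
      have e1 : (PP D k m a).Hk j = NN D k m a - 2*D.β*j - 21 - D.q := rfl
      have e2 : (PP D k m a).Hd j 1 = NN D k m a - 2*D.β*(j+1) - 11 - 1 - D.q := rfl
      rw [e1, e2]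
      unfold Prm.n1
      push_cast
      have e3 : (16:ℝ) = 2^4 := by norm_num
      rw [e3, ← pow_add, ← pow_add]
      congr 1
      have e4 : 2*D.β*(j+1) = 2*D.β*j + 2*D.β := by ring
      rw [e4] at h5 ⊢
      omega
    rw [h4, hstep a] at h3
    have h6 : (0:ℝ) < 2^(NN D k m a) := by positivity
    rw [← sub_div, abs_div, abs_of_pos h6, le_div_iff₀ h6]
    refine le_trans (le_of_eq ?_) h3
    ring
  · intro c hc1 hc2 hc3 hc4
    have hβ : 20000 ≤ D.β := (PP D k m 0).β_pos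
    have hB : (D.n1 : ℝ) * (D.δ / ((2:ℝ)^D.β)^(2*(j+1))) = 1 / (2^(25 + D.q) * ((2:ℝ)^D.β)^(2*j)) := by
      unfold Prm.n1 Prm.δ
      push_cast
      rw [hbp, hbp]
      have e4 : 2*D.β*(j+1) = 2*D.β*j + ((2*D.β - 13) + 13) := by
        have : 2*D.β*(j+1) = 2*D.β*j + 2*D.β := by ring
        omega
      rw [e4, pow_add, pow_add, pow_add, pow_add]
      field_simp
    have hpos1 : (0:ℝ) < ((2:ℝ)^D.β)^(2*j) := by positivity
    have hpos2 : (0:ℝ) < 2^(25 + D.q) := by positivity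
    have e1 : (2:ℝ)^(2*D.α + 25 + D.q) = 2^(2*D.α) * 2^(25 + D.q) := by
      rw [← pow_add]; congr 1; ring
    have hc3' : -(2:ℝ)^(2*D.α + 25 + D.q) ≤ c - 1 := by
      rw [hB, ← neg_div, mul_one_div, div_le_div_iff₀ hpos1 (by positivity)] at hc3
      rw [e1]
      have : -(2:ℝ)^(2*D.α) * 2^(25 + D.q) * ((2:ℝ)^D.β)^(2*j) ≤ (c - 1) * ((2:ℝ)^D.β)^(2*j) := by
        linarith
      have := le_of_mul_le_mul_right this hpos1
      linarith
    have hc4' : (c:ℝ) + 2 ≤ (2:ℝ)^(2*D.α + 25 + D.q) := by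
      rw [hB, mul_one_div, div_le_div_iff₀ (by positivity) hpos1] at hc4
      rw [e1]
      have : ((c:ℝ) + 2) * ((2:ℝ)^D.β)^(2*j) ≤ 2^(2*D.α) * 2^(25 + D.q) * ((2:ℝ)^D.β)^(2*j) := by
        linarith
      exact le_of_mul_le_mul_right this hpos1
    have hcs : ∀ a, c ∈ (PP D k m a).Cs j := by
      intro a
      have h6 : (0:ℝ) < 2^(NN D k m a) := by positivity
      have hwa := hw a j (by omega)
      rw [← hbp] at hwa
      have hst := hstep a
      unfold Par.Cs
      rw [Finset.mem_filter, Finset.mem_Icc]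
      refine ⟨⟨?_, ?_⟩, ⟨hc1, hc2⟩, ?_, ?_⟩
      · have : ((-(2:ℤ)^(2*D.α + 25 + D.q) : ℤ) : ℝ) ≤ c := by push_cast; linarith
        exact_mod_cast this
      · have : (c : ℝ) ≤ (((2:ℤ)^(2*D.α + 25 + D.q) : ℤ) : ℝ) := by push_cast; linarith
        exact_mod_cast this
      · have h7 : -(((PP D k m a).w j : ℕ) : ℝ) ≤ (c - 1) * (D.n1 : ℝ) * (2:ℝ)^((PP D k m a).Hd j 1) := by
          rw [hwa, hst]
          have := mul_le_mul_of_nonneg_right hc3 h6.le
          linarith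
        have h8 : ((PP D k m a).n1 : ℕ) = D.n1 := rfl
        rw [h8]
        exact_mod_cast h7
      · have h7 : ((c:ℝ) + 2) * (D.n1 : ℝ) * (2:ℝ)^((PP D k m a).Hd j 1) ≤
            (((PP D k m a).w j : ℕ) : ℝ) := by
          rw [hwa, hst]
          have := mul_le_mul_of_nonneg_right hc4 h6.le
          linarith
        have h8 : ((PP D k m a).n1 : ℕ) = D.n1 := rfl
        rw [h8]
        exact_mod_cast h7
    have hpig : ∃ T ∈ (Finset.Ico (c * (D.n1 : ℤ)) ((c + 1) * D.n1)).powerset, ∃ᶠ a in atTop,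
        (4 * T.card ≤ D.n1 ∧
        ∀ b ∈ Finset.Ico (c * (D.n1 : ℤ)) ((c + 1) * D.n1), b ∉ T → ∀ u v : ℤ,
          |u| ≤ (PP D k m a).w j → |v| ≤ (PP D k m a).w j → u ≤ b * 2^((PP D k m a).Hd j 1) →
          b * 2^((PP D k m a).Hd j 1) ≤ v →
          ‖S (x a) u - S (x a) v‖ < 5 * (PP D k m a).r n (j+1) →
          v - u ≤ ((PP D k m a).k0 + 1) * 2^((PP D k m a).Hd j 1)) := by
      by_contra hcon
      have h1 : ∀ᶠ a in atTop, ∀ T ∈ (Finset.Ico (c * (D.n1 : ℤ)) ((c + 1) * D.n1)).powerset, ¬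
        (4 * T.card ≤ D.n1 ∧
        ∀ b ∈ Finset.Ico (c * (D.n1 : ℤ)) ((c + 1) * D.n1), b ∉ T → ∀ u v : ℤ,
          |u| ≤ (PP D k m a).w j → |v| ≤ (PP D k m a).w j → u ≤ b * 2^((PP D k m a).Hd j 1) →
          b * 2^((PP D k m a).Hd j 1) ≤ v →
          ‖S (x a) u - S (x a) v‖ < 5 * (PP D k m a).r n (j+1) →
          v - u ≤ ((PP D k m a).k0 + 1) * 2^((PP D k m a).Hd j 1)) := by
        rw [Filter.eventually_all_finset]
        intro T hT
        exact not_frequently.mp fun h => hcon ⟨T, hT, h⟩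
      obtain ⟨a, hG, h2⟩ := (hf.and_eventually h1).exists
      obtain ⟨T, hT1, hT2, hT3⟩ := hG.chain c (hcs a)
      exact h2 T (Finset.mem_powerset.mpr hT1) ⟨hT2, hT3⟩
    obtain ⟨T, hT, hfreq⟩ := hpig
    refine ⟨T, Finset.mem_powerset.mp hT, ?_, ?_⟩
    · obtain ⟨a, ha⟩ := hfreq.exists
      exact ha.1
    · intro b hb hbT u hu v hv hut hvt hub hbv hd
      have hlim1 := hdifflim' v u
      refine le_of_tendsto_of_frequently hlim1 ?_
      have hev : ∀ᶠ a in atTop, ‖S (x a) (tr t u (NN D k m a)) - S (x a) (tr t v (NN D k m a))‖ <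
          5 * (Real.sqrt n / ((2:ℝ)^D.β)^(j+1)) :=
        (hnormlim u hu v hv).eventually_lt_const hd
      refine (hfreq.and_eventually hev).mono ?_
      rintro a ⟨hG, h1⟩
      rw [← hr a (j+1)] at h1
      have h6 : (0:ℝ) < 2^(NN D k m a) := by positivity
      have h2 := hG.2 b hb hbT _ _ (hwin u hut a) (hwin v hvt a) (by
        apply tr_le
        push_cast
        rw [hstep a]
        have : (u - t) * 2^(NN D k m a) ≤ (b * (D.δ / ((2:ℝ)^D.β)^(2*(j+1)))) * 2^(NN D k m a) :=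
          mul_le_mul_of_nonneg_right (by linarith) h6.le
        linarith) (by
        apply le_tr
        push_cast
        rw [hstep a]
        have : (b * (D.δ / ((2:ℝ)^D.β)^(2*(j+1)))) * 2^(NN D k m a) ≤ (v - t) * 2^(NN D k m a) :=
          mul_le_mul_of_nonneg_right (by linarith) h6.le
        linarith) h1
      have h3 : ((tr t v (NN D k m a) : ℤ) : ℝ) - (tr t u (NN D k m a) : ℤ) ≤
          (((PP D k m a).k0 : ℝ) + 1) * (2:ℝ)^((PP D k m a).Hd j 1) := by exact_mod_cast h2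
      rw [hstep a] at h3
      rw [← sub_div, div_le_iff₀ h6]
      refine h3.trans (le_of_eq ?_)
      have e1 : (((PP D k m a).k0 : ℕ) : ℝ) + 1 = D.K0 := by
        unfold Par.k0 Prm.K0
        push_cast
        rfl
      rw [e1]
      ring

end Pool.Agent.L7h96.CD
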