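import Pool.Agent.L7h96.CD.Indep

/-!
The conditional probability that too many anchors are covered.
-/

set_option autoImplicit false

namespace Pool.Agent.L7h96.CD

open MeasureTheory ProbabilityTheory
open scoped NNReal ENNReal
open Pool.Agent.R966.CD (E gam S S_zero S_sub measurable_S Q Q_eq Q_mono Q_union Q_biUnion Q_small
  Q_large)
open Pool.Agent.R966.CD.Par (lmarginal_const_mul)

namespace Par

variable (P : Par) {n : ℕ}

/-- the cells which matter for the anchor `z` -/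
noncomputable def Dz (i : ℕ) (z : ℤ) : Finset ℤ :=
  Finset.Ico ((z - P.m) * 2^(P.Hd i 1)) ((z + P.m) * 2^(P.Hd i 1))

theorem H_pos (i : ℕ) : (0:ℤ) < 2^(P.Hd i 1) := by positivity

theorem dep_Cov (i : ℕ) (z : ℤ) : Dep (n := n) (P.Dz i z) (P.Cov n i z) := by
  have key : ∀ x y : ℤ → E n, (∀ j ∈ P.Dz i z, x j = y j) → x ∈ P.Cov n i z → y ∈ P.Cov n i z := by
    intro x y h hx
    unfold Cov at hx ⊢
    simp only [Set.mem_iUnion] at hx ⊢
    obtain ⟨k, hk, j, hj, hd⟩ := hx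
    refine ⟨k, hk, j, hj, ?_⟩
    rw [Finset.mem_Icc] at hk
    rw [Finset.mem_range] at hj
    have hH := P.H_pos i
    have hle : (z - j) * 2^(P.Hd i 1) ≤ (z - j + k) * 2^(P.Hd i 1) :=
      mul_le_mul_of_nonneg_right (by omega) hH.le
    simp only [Set.mem_ofPred_eq] at hd ⊢
    rw [S_sub _ hle] at hd ⊢
    have e : ∑ a ∈ Finset.Ico ((z - j) * 2^(P.Hd i 1)) ((z - j + k) * 2^(P.Hd i 1)), y a =
        ∑ a ∈ Finset.Ico ((z - j) * 2^(P.Hd i 1)) ((z - j + k) * 2^(P.Hd i 1)), x a := by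
      apply Finset.sum_congr rfl
      intro a ha
      refine (h a ?_).symm
      rw [Finset.mem_Ico] at ha
      unfold Dz
      rw [Finset.mem_Ico]
      refine ⟨le_trans (mul_le_mul_of_nonneg_right ?_ hH.le) ha.1,
        lt_of_lt_of_le ha.2 (mul_le_mul_of_nonneg_right ?_ hH.le)⟩
      · omega
      · omega
    rw [e]
    exact hd
  exact fun x y h => ⟨key x y h, key y x fun j hj => (h j hj).symm⟩

/-- one pair -/
theorem Q_pair (hn : 512 ≤ n) (i : ℕ) (hi : i + 1 ≤ P.k) (z : ℤ) (k j : ℕ) (hk : P.k0 ≤ k)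
    (hkm : k ≤ P.m) (hj : j ≤ k) (x : ℤ → E n) :
    Q n P.v (P.Dz i z) {x | ‖S x ((z - j + k) * 2^(P.Hd i 1)) - S x ((z - j) * 2^(P.Hd i 1))‖ ≤
      7 * P.r n (i+1)} x ≤ ENNReal.ofReal (1 / (k:ℝ)^64) := by
  have hH := P.H_pos i
  have hr := P.r_pos (show 1 ≤ n by omega) (i+1)
  have hle : (z - j) * 2^(P.Hd i 1) ≤ (z - j + k) * 2^(P.Hd i 1) :=
    mul_le_mul_of_nonneg_right (by omega) hH.le
  have hk30 : (2:ℝ)^(30 + 2*P.q) ≤ k := by
    have : 2^(30 + 2*P.q) ≤ k := hk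
    exact_mod_cast this
  have hk0 : (0:ℝ) < k := lt_of_lt_of_le (by positivity) hk30
  -- the fourth and the eighth root
  obtain ⟨t, ht⟩ : ∃ t : ℝ, t = Real.sqrt (Real.sqrt k) := ⟨_, rfl⟩
  have ht0 : 0 < t := by rw [ht]; positivity
  have ht2 : t^2 = Real.sqrt k := by rw [ht]; exact Real.sq_sqrt (Real.sqrt_nonneg _)
  have ht4 : t^4 = k := by
    have : t^4 = (t^2)^2 := by ring
    rw [this, ht2]; exact Real.sq_sqrt hk0.le
  obtain ⟨u, hu⟩ : ∃ u : ℝ, u = Real.sqrt t := ⟨_, rfl⟩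
  have hu0 : 0 < u := by rw [hu]; positivity
  have hu2 : u^2 = t := by rw [hu]; exact Real.sq_sqrt ht0.le
  have h15 : (2:ℝ)^(15 + P.q) ≤ t^2 := by
    rw [ht2]
    apply Real.le_sqrt_of_sq_le
    rw [← pow_mul]
    have : (15 + P.q) * 2 = 30 + 2 * P.q := by ring
    rw [this]
    exact hk30
  have h32 : (32:ℝ) ≤ t := by
    by_contra hcon
    push Not at hcon
    have h1 : t^2 < 2^10 := by nlinarith
    have h2 : (2:ℝ)^15 ≤ 2^(15 + P.q) := pow_le_pow_right₀ (by norm_num) (by omega)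
    have : (2:ℝ)^15 < 2^10 := lt_of_le_of_lt (h2.trans h15) h1
    norm_num at this
  have hcard : ((P.Dz i z ∩ Finset.Ico ((z - j) * 2^(P.Hd i 1)) ((z - j + k) * 2^(P.Hd i 1))).card : ℝ) =
      k * 2^(P.Hd i 1) := by
    have hsub : Finset.Ico ((z - j) * 2^(P.Hd i 1)) ((z - j + k) * 2^(P.Hd i 1)) ⊆ P.Dz i z := by
      intro a ha
      rw [Finset.mem_Ico] at ha
      unfold Dz
      rw [Finset.mem_Ico]
      refine ⟨le_trans (mul_le_mul_of_nonneg_right ?_ hH.le) ha.1,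
        lt_of_lt_of_le ha.2 (mul_le_mul_of_nonneg_right ?_ hH.le)⟩
      · omega
      · omega
    rw [Finset.inter_eq_right.mpr hsub, Int.card_Ico]
    have e : (z - j + k) * 2^(P.Hd i 1) - (z - j) * 2^(P.Hd i 1) = ((k * 2^(P.Hd i 1) : ℕ) : ℤ) := by
      push_cast
      ring
    rw [e, Int.toNat_natCast]
    push_cast
    rfl
  refine (Q_small P.v (P.Dz i z) hle (7 * P.r n (i+1)) (k * 2^(P.Hd i 1) * P.v) u hu0 (by positivity)
    (by rw [hcard]) ?_ x).trans ?_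
  · have hsc := P.scale_d (i := i) (l := 1) (by omega) (by omega)
    rw [mul_assoc (k:ℝ), hsc, mul_pow, P.r_sq, hu2]
    have e1 : 3 * t * (7^2 * ((n:ℝ) / 2^(2*P.β*(i+1)))) = (147 * t) * (n / 2^(2*P.β*(i+1))) := by ring
    have e2 : (n:ℝ) * (k * (1 / (2^(2*P.β*(i+1)) * 2^(11+1+P.q)))) =
        (k / 2^(12 + P.q)) * (n / 2^(2*P.β*(i+1))) := by
      field_simp
    rw [e1, e2]
    apply mul_le_mul_of_nonneg_right _ (by positivity)
    rw [le_div_iff₀ (by positivity), ← ht4]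
    have e3 : (2:ℝ)^(15 + P.q) = 8 * 2^(12 + P.q) := by
      have : 15 + P.q = (12 + P.q) + 3 := by ring
      rw [this, pow_add]; ring
    rw [e3] at h15
    have h16 : 147 * (8 * (2:ℝ)^(12+P.q)) ≤ 147 * t^2 := mul_le_mul_of_nonneg_left h15 (by norm_num)
    have h17 : 32 * (t * t^2) ≤ t * (t * t^2) := mul_le_mul_of_nonneg_right h32 (by positivity)
    have h18 : 147 * t * (2:ℝ)^(12+P.q) ≤ 32 * (t * t^2) := by nlinarith
    nlinarith
  · apply ENNReal.ofReal_le_ofReal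
    have h1 : (1 / u)^n ≤ (1/u)^512 := by
      apply pow_le_pow_of_le_one (by positivity) _ hn
      rw [div_le_one hu0]
      by_contra hcon
      push Not at hcon
      have : u^2 < 1 := by nlinarith
      rw [hu2] at this
      linarith
    have e5 : u^512 = (k:ℝ)^64 := by
      rw [show (512:ℕ) = 2*(4*64) by norm_num, pow_mul u 2 (4*64), hu2, pow_mul t 4 64, ht4]
    rw [div_pow 1 u 512, one_pow, e5] at h1
    exact h1

/-- the probability that an anchor is covered -/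
theorem Q_Cov (hn : 512 ≤ n) (i : ℕ) (hi : i + 1 ≤ P.k) (z : ℤ) (x : ℤ → E n) :
    Q n P.v (P.Dz i z) (P.Cov n i z) x ≤ ENNReal.ofReal (1/32) := by
  unfold Cov
  refine (Q_biUnion _ _ _ _ x).trans ?_
  have h1 : ∀ k ∈ Finset.Icc P.k0 P.m, Q n P.v (P.Dz i z) (⋃ j ∈ Finset.range (k+1),
      {x | ‖S x ((z - j + k) * 2^(P.Hd i 1)) - S x ((z - j) * 2^(P.Hd i 1))‖ ≤ 7 * P.r n (i+1)}) x ≤
      ENNReal.ofReal (1/32 * (1/(k:ℝ) - 1/((k+1 : ℕ):ℝ))) := by
    intro k hk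
    rw [Finset.mem_Icc] at hk
    refine (Q_biUnion _ _ _ _ x).trans ?_
    refine (Finset.sum_le_sum fun j hj => P.Q_pair hn i hi z k j hk.1 hk.2
      (by rw [Finset.mem_range] at hj; omega) x).trans ?_
    rw [Finset.sum_const, Finset.card_range, nsmul_eq_mul, ← ENNReal.ofReal_natCast,
      ← ENNReal.ofReal_mul (by positivity)]
    apply ENNReal.ofReal_le_ofReal
    have hk30 : (2:ℝ)^30 ≤ k := by
      have h2 : 2^(30 + 2*P.q) ≤ k := hk.1
      have h3 : 2^30 ≤ 2^(30 + 2*P.q) := Nat.pow_le_pow_right (by norm_num) (by omega)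
      exact_mod_cast h3.trans h2
    have hk0 : (0:ℝ) < k := lt_of_lt_of_le (by positivity) hk30
    have hk1 : (1:ℝ) ≤ k := le_trans (by norm_num) hk30
    have e1 : 1/(k:ℝ) - 1/((k+1 : ℕ):ℝ) = 1 / (k * (k+1)) := by
      push_cast
      field_simp
      ring
    rw [e1]
    push_cast
    have h4 : (k:ℝ)^4 ≤ k^64 := pow_le_pow_right₀ hk1 (by norm_num)
    rw [mul_one_div, mul_one_div, div_div, div_le_div_iff₀ (by positivity) (by positivity)]
    have h5 : (k:ℝ) + 1 ≤ 2 * k := by linarith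
    have h6 : ((k:ℝ)+1) * (32 * (k * (k+1))) ≤ k^4 := by
      have h7 : ((k:ℝ)+1) * (32 * (k * (k+1))) ≤ (2*k) * (32 * (k * (2*k))) := by
        apply mul_le_mul h5 _ (by positivity) (by positivity)
        apply mul_le_mul_of_nonneg_left _ (by norm_num)
        exact mul_le_mul_of_nonneg_left h5 hk0.le
      have h8 : (2*(k:ℝ)) * (32 * (k * (2*k))) = 128 * k^3 := by ring
      have h9 : (128:ℝ) * k^3 ≤ k * k^3 :=
        mul_le_mul_of_nonneg_right (le_trans (by norm_num) hk30) (by positivity)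
      calc _ ≤ _ := h7
        _ = _ := h8
        _ ≤ _ := h9
        _ = k^4 := by ring
    linarith
  refine (Finset.sum_le_sum h1).trans ?_
  rw [← ENNReal.ofReal_sum_of_nonneg]
  · apply ENNReal.ofReal_le_ofReal
    rw [← Finset.mul_sum]
    have hk0 : 1 ≤ P.k0 := Nat.one_le_two_pow
    have h2 : ∀ M : ℕ, ∑ k ∈ Finset.Icc P.k0 M, (1/(k:ℝ) - 1/((k+1 : ℕ):ℝ)) ≤ 1 := by
      intro M
      rcases Nat.lt_or_ge M P.k0 with h | h
      · rw [Finset.Icc_eq_empty (by omega)]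
        norm_num
      · have h3 : ∑ k ∈ Finset.Icc P.k0 M, (1/(k:ℝ) - 1/((k+1 : ℕ):ℝ)) =
            1/(P.k0:ℝ) - 1/((M+1 : ℕ):ℝ) := by
          induction M, h using Nat.le_induction with
          | base => simp
          | succ M hM ih =>
            rw [Finset.sum_Icc_succ_top (by omega), ih]
            ring
        rw [h3]
        have h4 : 1/(P.k0:ℝ) ≤ 1 := by
          rw [div_le_one (by exact_mod_cast hk0)]
          exact_mod_cast hk0
        have h5 : (0:ℝ) ≤ 1/((M+1 : ℕ):ℝ) := by positivity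
        linarith
    have := h2 P.m
    linarith
  · intro k hk
    rw [Finset.mem_Icc] at hk
    have hk0 : 1 ≤ P.k0 := Nat.one_le_two_pow
    have h3 : (0:ℝ) < k := by exact_mod_cast (by omega : 0 < k)
    have h4 : 1/((k+1 : ℕ):ℝ) ≤ 1/(k:ℝ) := by
      apply one_div_le_one_div_of_le h3
      push_cast
      linarith
    nlinarith

/-! ### the union bound -/

theorem m_pos : 0 < P.m := by unfold m; positivity

theorem n1_eq : P.n1 = 2^(P.β - 2) * (4 * P.m) := by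
  unfold n1 m
  have h1 := P.β_pos
  have : 4 * 2^(P.β - 13) = 2^(P.β - 11) := by
    rw [show (4:ℕ) = 2^2 by norm_num, ← pow_add]
    congr 1
    omega
  rw [this, ← pow_add]
  congr 1
  omega

theorem mH (i : ℕ) (hi : i + 1 ≤ P.k) : P.m * 2^(P.Hd i 1) = 4 * P.sp i := by
  unfold m Hd sp
  have h1 := P.β_pos
  have h2 := P.exp_le (show i + 1 ≤ P.k + 1 by omega)
  have e : 2*P.β*(i+1) = 2*P.β*i + 2*P.β := by ring
  rw [show (4:ℕ) = 2^2 by norm_num, ← pow_add, ← pow_add]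
  congr 1
  omega

theorem Dz_sub {i : ℕ} (hi : i + 1 ≤ P.k) {c : ℤ} (hc : c ∈ P.Cs i) {k e : ℕ}
    (hk : k < 2^(P.β-2)) (he : e < 4 * P.m) : P.Dz i (c * P.n1 + (k * (4 * P.m) + e : ℕ)) ⊆ P.A i := by
  unfold Cs at hc
  rw [Finset.mem_filter] at hc
  obtain ⟨-, ⟨hc1, hc2⟩, hc3, hc4⟩ := hc
  have hm := P.m_pos
  have hn1 := P.n1_eq
  have hH := P.H_pos i
  have hmH : (P.m : ℤ) * 2^(P.Hd i 1) = 4 * P.sp i := by exact_mod_cast P.mH i hi
  have hsp : (2:ℤ) * P.w (i+1) ≤ P.sp i := by exact_mod_cast P.w_le_sp hi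
  have hw : (4:ℤ) * P.w (i+2) ≤ P.w (i+1) := by exact_mod_cast P.four_w (show i + 1 + 1 ≤ P.k + 1 by omega)
  have hlt : k * (4 * P.m) + e < P.n1 := by
    rw [hn1]
    calc k * (4 * P.m) + e < k * (4 * P.m) + 4 * P.m := by omega
      _ = (k+1) * (4 * P.m) := by ring
      _ ≤ _ := Nat.mul_le_mul_right _ hk
  have h2m : 2 * P.m ≤ P.n1 := by
    rw [hn1]
    have : 1 ≤ 2^(P.β - 2) := Nat.one_le_two_pow
    nlinarith
  obtain ⟨s, hs⟩ : ∃ s : ℕ, s = k * (4 * P.m) + e := ⟨_, rfl⟩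
  rw [← hs] at hlt ⊢
  have hlt' : (s : ℤ) + 1 ≤ P.n1 := by exact_mod_cast hlt
  have h2m' : (2:ℤ) * P.m ≤ P.n1 := by exact_mod_cast h2m
  have hm' : (0:ℤ) < P.m := by exact_mod_cast hm
  have hs0 : (0:ℤ) ≤ s := Int.natCast_nonneg _
  have hw0 : (0:ℤ) ≤ P.w (i+2) := Int.natCast_nonneg _
  intro j hj
  unfold Dz at hj
  rw [Finset.mem_Ico] at hj
  have a1 : (c - 1) * P.n1 * 2^(P.Hd i 1) ≤ (c * P.n1 + s - P.m) * 2^(P.Hd i 1) := by
    apply mul_le_mul_of_nonneg_right _ hH.le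
    nlinarith
  have a2 : (c * P.n1 + s + P.m) * 2^(P.Hd i 1) ≤ (c + 2) * P.n1 * 2^(P.Hd i 1) := by
    apply mul_le_mul_of_nonneg_right _ hH.le
    nlinarith
  unfold A W
  rw [Finset.mem_sdiff, Finset.mem_Ico, Finset.mem_Ico]
  refine ⟨⟨by linarith, by linarith⟩, ?_⟩
  rcases lt_or_ge c 0 with h | h
  · -- to the left of the core
    have hc' : c ≤ -2 := by omega
    have a3 : (c * P.n1 + s + P.m) * 2^(P.Hd i 1) ≤ (-(P.m : ℤ)) * 2^(P.Hd i 1) := by
      apply mul_le_mul_of_nonneg_right _ hH.le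
      nlinarith
    have a4 : (-(P.m : ℤ)) * 2^(P.Hd i 1) = - (4 * P.sp i) := by rw [neg_mul, hmH]
    intro h5
    linarith [h5.1, hj.2]
  · have hc' : 1 ≤ c := by omega
    have a3 : (P.m : ℤ) * 2^(P.Hd i 1) ≤ (c * P.n1 + s - P.m) * 2^(P.Hd i 1) := by
      apply mul_le_mul_of_nonneg_right _ hH.le
      nlinarith
    intro h5
    linarith [h5.2, hj.1]

theorem Dz_disj {i : ℕ} {c : ℤ} {e k k' : ℕ} (h : k ≠ k') :
    Disjoint (P.Dz i (c * P.n1 + (k * (4 * P.m) + e : ℕ)))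
      (P.Dz i (c * P.n1 + (k' * (4 * P.m) + e : ℕ))) := by
  have hH := P.H_pos i
  have hm' : (0:ℤ) < P.m := by exact_mod_cast P.m_pos
  have key : ∀ k k' : ℕ, k < k' → Disjoint (P.Dz i (c * P.n1 + (k * (4 * P.m) + e : ℕ)))
      (P.Dz i (c * P.n1 + (k' * (4 * P.m) + e : ℕ))) := by
    intro k k' hkk
    rw [Finset.disjoint_left]
    intro a ha ha'
    unfold Dz at ha ha'
    rw [Finset.mem_Ico] at ha ha'
    have h1 : (c * P.n1 + (k * (4 * P.m) + e : ℕ) + P.m) * 2^(P.Hd i 1) ≤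
        (c * P.n1 + (k' * (4 * P.m) + e : ℕ) - P.m) * 2^(P.Hd i 1) := by
      apply mul_le_mul_of_nonneg_right _ hH.le
      push_cast
      have hkk' : (k:ℤ) + 1 ≤ k' := by exact_mod_cast hkk
      nlinarith
    linarith [ha.2, ha'.1]
  rcases Nat.lt_or_gt_of_ne h with h1 | h1
  · exact key k k' h1
  · exact (key k' k h1).symm

theorem big_β : 100 * P.β ≤ 2^(P.β - 4) := by
  have h1 := P.β_pos
  obtain ⟨a, ha⟩ : ∃ a, P.β = a + 24 := ⟨P.β - 24, by omega⟩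
  have h2 : P.β - 4 = a + 20 := by omega
  rw [h2, pow_add, ha]
  have h3 : a < 2^a := Nat.lt_two_pow_self
  omega

theorem card_Cs (i : ℕ) : (P.Cs i).card ≤ 2^(2*P.α + 27 + P.q) := by
  unfold Cs
  refine (Finset.card_filter_le _ _).trans ?_
  rw [Int.card_Icc]
  have e : (2:ℤ)^(2*P.α + 25 + P.q) + 1 - -(2:ℤ)^(2*P.α + 25 + P.q) =
      ((2 * 2^(2*P.α + 25 + P.q) + 1 : ℕ) : ℤ) := by push_cast; ring
  rw [e, Int.toNat_natCast]
  have e2 : 2*P.α + 27 + P.q = (2*P.α + 25 + P.q) + 2 := by ring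
  rw [e2, pow_add 2 (2*P.α + 25 + P.q) 2]
  have : 1 ≤ 2^(2*P.α + 25 + P.q) := Nat.one_le_two_pow
  omega

theorem Q_Meso (hn : 512 ≤ n) (i : ℕ) (hi : i + 1 ≤ P.k) (x : ℤ → E n) :
    Q n P.v (P.A i) (P.Meso n i) x ≤ ENNReal.ofReal ((1/2 : ℝ)^(20*P.β + 5)) := by
  have h1 := P.β_pos
  have h2 := P.hβ
  have h3 := P.hα
  have h4 := P.big_β
  have hone : ∀ c ∈ P.Cs i, ∀ e ∈ Finset.range (4 * P.m),
      ∀ T ∈ (Finset.range (2^(P.β-2))).powersetCard (2^(P.β-4)),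
      Q n P.v (P.A i) (⋂ k ∈ T, P.Cov n i (c * P.n1 + (k * (4 * P.m) + e : ℕ))) x ≤
        ENNReal.ofReal ((1/2)^(5 * 2^(P.β-4))) := by
    intro c hc e he T hT
    rw [Finset.mem_powersetCard] at hT
    rw [Finset.mem_range] at he
    refine (Q_inter P.v (ENNReal.ofReal (1/32)) (fun k => P.Dz i (c * P.n1 + (k * (4 * P.m) + e : ℕ)))
      (fun k => P.Cov n i (c * P.n1 + (k * (4 * P.m) + e : ℕ))) T ?_ ?_ ?_ ?_ (P.A i) ?_ x).trans ?_
    · exact fun k _ => P.measurable_Cov n i _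
    · exact fun k _ => P.dep_Cov i _
    · exact fun k _ k' _ h => P.Dz_disj h
    · exact fun k _ y => P.Q_Cov hn i hi _ y
    · intro k hk
      have := hT.1 hk
      rw [Finset.mem_range] at this
      exact P.Dz_sub hi hc this he
    · rw [hT.2, ← ENNReal.ofReal_pow (by norm_num)]
      apply ENNReal.ofReal_le_ofReal
      rw [pow_mul]
      norm_num
  unfold Meso
  refine (Q_biUnion _ _ _ _ x).trans ?_
  refine (Finset.sum_le_sum fun c hc => (Q_biUnion _ _ _ _ x).trans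
    (Finset.sum_le_sum fun e he => (Q_biUnion _ _ _ _ x).trans
      (Finset.sum_le_sum fun T hT => hone c hc e he T hT))).trans ?_
  simp only [Finset.sum_const, nsmul_eq_mul, Finset.card_powersetCard, Finset.card_range]
  rw [← ENNReal.ofReal_natCast (Nat.choose _ _), ← ENNReal.ofReal_natCast (4 * P.m),
    ← ENNReal.ofReal_natCast (P.Cs i).card,
    ← ENNReal.ofReal_mul (by positivity), ← ENNReal.ofReal_mul (by positivity),
    ← ENNReal.ofReal_mul (by positivity)]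
  apply ENNReal.ofReal_le_ofReal
  have c1 : (((P.Cs i).card : ℕ) : ℝ) ≤ 2^(2*P.α + 27 + P.q) := by exact_mod_cast P.card_Cs i
  have c2 : ((4 * P.m : ℕ) : ℝ) ≤ 2^P.β := by
    have : 4 * P.m ≤ 2^P.β := by
      unfold m
      rw [show (4:ℕ) = 2^2 by norm_num, ← pow_add]
      exact Nat.pow_le_pow_right (by norm_num) (by omega)
    exact_mod_cast this
  have c3 : ((Nat.choose (2^(P.β-2)) (2^(P.β-4)) : ℕ) : ℝ) ≤ 2^(4 * 2^(P.β-4)) := by
    have h5 := Nat.choose_le_two_pow (2^(P.β-2)) (2^(P.β-4))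
    have h6 : 2^(P.β-2) = 4 * 2^(P.β-4) := by
      rw [show (4:ℕ) = 2^2 by norm_num, ← pow_add]
      congr 1
      omega
    rw [← h6]
    exact_mod_cast h5
  have hp : (0:ℝ) ≤ (1/2)^(5 * 2^(P.β-4)) := by positivity
  calc (((P.Cs i).card : ℕ) : ℝ) * (((4 * P.m : ℕ) : ℝ) *
        (((Nat.choose (2^(P.β-2)) (2^(P.β-4)) : ℕ) : ℝ) * (1/2)^(5 * 2^(P.β-4))))
      ≤ 2^(2*P.α + 27 + P.q) * (2^P.β * (2^(4 * 2^(P.β-4)) * (1/2)^(5 * 2^(P.β-4)))) := by
        apply mul_le_mul c1 _ (by positivity) (by positivity)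
        apply mul_le_mul c2 _ (by positivity) (by positivity)
        exact mul_le_mul_of_nonneg_right c3 hp
    _ = 2^(2*P.α + 27 + P.q + P.β + 4 * 2^(P.β-4)) * (1/2)^(5 * 2^(P.β-4)) := by
        rw [pow_add (2:ℝ) (2*P.α + 27 + P.q + P.β) (4 * 2^(P.β-4)),
          pow_add (2:ℝ) (2*P.α + 27 + P.q) P.β]
        generalize (2:ℝ)^(2*P.α + 27 + P.q) = a
        generalize (2:ℝ)^P.β = b
        generalize (2:ℝ)^(4 * 2^(P.β-4)) = c
        generalize (1/2:ℝ)^(5 * 2^(P.β-4)) = d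
        ring
    _ ≤ _ := by
        apply pw
        omega

end Par

end Pool.Agent.L7h96.CD
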