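import Pool.Agent.L7h96.CD.Meso

/-!
The conditional probabilities of the events of the blocks.
-/

set_option autoImplicit false

namespace Pool.Agent.L7h96.CD

open MeasureTheory ProbabilityTheory
open scoped NNReal ENNReal
open Pool.Agent.R966.CD (E gam S S_zero S_sub measurable_S Q Q_eq Q_mono Q_union Q_biUnion Q_small
  Q_large OE measurable_OE Q_OE)

namespace Par

variable (P : Par) {n : ℕ}

theorem Q_Fown (hn : 512 ≤ n) (i : ℕ) (hi : i + 1 ≤ P.k) (x : ℤ → E n) :
    Q n P.v (P.A i) (P.Fown n i) x ≤ ENNReal.ofReal (5 * (1/2 : ℝ)^(20*P.β + 5)) := by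
  unfold Fown
  have b1 := P.Q_own1 hn i hi x
  have b2 := P.Q_OEd hn i 1 le_rfl (by omega) x
  rw [mul_one] at b2
  have b3 := P.Q_SBp hn i hi x
  have b4 := P.Q_SBc hn i hi x
  have b5 := P.Q_Meso hn i hi x
  refine (Q_union _ _ _ _ x).trans ((add_le_add ((Q_union _ _ _ _ x).trans
    (add_le_add ((Q_union _ _ _ _ x).trans (add_le_add b1 b2))
      ((Q_union _ _ _ _ x).trans (add_le_add b3 b4)))) b5).trans (le_of_eq ?_))
  have hp : (0:ℝ) ≤ (1/2 : ℝ)^(20*P.β + 5) := by positivity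
  rw [← ENNReal.ofReal_add hp hp, ← ENNReal.ofReal_add (by positivity) (by positivity),
    ← ENNReal.ofReal_add (by positivity) (by positivity)]
  congr 1
  ring

/-- **conditional probabilities of the events of a block** -/
theorem Q_F (hn : 512 ≤ n) (i l : ℕ) (hl : 1 ≤ l) (hi : i + 1 ≤ P.k) (x : ℤ → E n) :
    Q n P.v (P.A i) (P.F n i l) x ≤ ENNReal.ofReal (((1/2 : ℝ)^(20*P.β))^l) := by
  unfold F
  have hp : (0:ℝ) ≤ (1/2 : ℝ)^(20*P.β*l + 5) := by positivity
  have b1 : Q n P.v (P.A i) (if i + l ≤ P.k then P.Fdown n i l else ∅) x ≤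
      ENNReal.ofReal ((1/2 : ℝ)^(20*P.β*l + 5) + (1/2 : ℝ)^(20*P.β*l + 5)) := by
    split
    · rename_i hil
      unfold Fdown
      rw [ENNReal.ofReal_add (by positivity) (by positivity)]
      exact (Q_union _ _ _ _ x).trans
        (add_le_add (P.Q_OEd hn i l hl hil x) (P.Q_SBd hn i l hl hil x))
    · unfold Q
      simp
  have b3 := P.Q_Fup hn i l hl hi x
  have b4 : Q n P.v (P.A i) (if l = 1 then P.Fown n i else ∅) x ≤
      ENNReal.ofReal (5 * (1/2 : ℝ)^(20*P.β*l + 5)) := by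
    split
    · rename_i h
      subst h
      have := P.Q_Fown hn i (by omega) x
      rwa [mul_one]
    · unfold Q
      simp
  refine (Q_union _ _ _ _ x).trans ?_
  refine (add_le_add ((Q_union _ _ _ _ x).trans (add_le_add b1 b3)) b4).trans ?_
  rw [← ENNReal.ofReal_add (by positivity) (by positivity),
    ← ENNReal.ofReal_add (by positivity) (by positivity)]
  apply ENNReal.ofReal_le_ofReal
  rw [← pow_mul, pow_add]
  have h1 : (0:ℝ) ≤ (1/2)^(20*P.β*l) := by positivity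
  generalize (1/2:ℝ)^(20*P.β*l) = a at *
  norm_num
  linarith

/-- probabilities of the events of the core -/
theorem Q_Fcore (hn : 512 ≤ n) (l : ℕ) (hl : 1 ≤ l) (x : ℤ → E n) :
    Q n P.v (P.W 0) (P.Fcore n l) x ≤ ENNReal.ofReal (((1/2 : ℝ)^(20*P.β))^l) := by
  unfold Fcore
  have hβ := P.β_pos
  have hβ' : (1:ℝ) ≤ ((P.β * l : ℕ) : ℝ) := by
    have : 1 ≤ P.β * l := le_trans (by omega) (P.lβ hl)
    exact_mod_cast this
  have hr := P.r_pos (show 1 ≤ n by omega) P.k
  have hD := P.Dc_pos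
  have hsub : ∀ j : ℤ, ((0:ℕ) : ℤ) ≤ j ∧ j < P.w P.k ∨ -(P.w P.k : ℤ) ≤ j ∧ j < -((0:ℕ) : ℤ) →
      j ∈ P.W 0 := by
    intro j hj
    have h1 : P.w P.k ≤ P.w 0 := by
      unfold w
      exact Nat.pow_le_pow_right (by norm_num) (by omega)
    have h2 : (P.w P.k : ℤ) ≤ P.w 0 := by exact_mod_cast h1
    unfold W
    rw [Finset.mem_Ico]
    push_cast at hj
    omega
  refine (Q_OE P.v_pos (by positivity) hsub _ hβ' (by omega) (P.up_scale le_rfl l hl n) x).trans ?_
  apply ENNReal.ofReal_le_ofReal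
  rw [P.up_count le_rfl, one_mul]
  refine (P.exp_bound' hn l).trans ?_
  rw [← pow_mul]
  apply pow_le_pow_of_le_one (by norm_num) (by norm_num)
  have e2 : 20*P.β*l = 20*(P.β*l) := by ring
  rw [e2]
  omega

end Par

end Pool.Agent.L7h96.CD
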