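import Pool.Agent.R966.CD.Upper
import Pool.Agent.L7h96.CD.BM

/-!
In every dimension at least `512` the Brownian trace has conformal dimension at most one.
-/

set_option autoImplicit false

namespace Pool.Agent.L7h96.CD

open MeasureTheory ProbabilityTheory Filter Topology
open scoped NNReal ENNReal
open Pool.Agent.R966.CD (E IsBM path Tr Wt continuous_path cover_majorant sq_le_two_pow pow_swap)

theorem exists_prm (p : ℝ) (hp : 1 < p) (hp2 : p ≤ 2) : ∃ D : Prm,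
    (46 + 2 * D.q) * p + 3 ≤ 2 * D.β * (p - 1) := by
  obtain ⟨A0, hA0⟩ := exists_nat_gt (1 / (p - 1))
  have h0 : 0 < p - 1 := by linarith
  rw [div_lt_iff₀ h0] at hA0
  obtain ⟨A, hA⟩ : ∃ A : ℕ, A = max A0 100 := ⟨_, rfl⟩
  have hA1 : 100 ≤ A := by rw [hA]; exact le_max_right _ _
  have hA2 : (A0 : ℝ) ≤ A := by rw [hA]; exact_mod_cast le_max_left _ _
  have hA3 : 1 ≤ (A : ℝ) * (p - 1) := by nlinarith
  refine ⟨⟨4 * (A * (20 * A + 50)), A * (20 * A + 50), 20 * A, rfl, ?_, ?_⟩, ?_⟩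
  · have h1 : 10 * A < 2^(10 * A) := Nat.lt_two_pow_self
    have h2 : 20 * A = 10 * A + 10 * A := by ring
    rw [h2, pow_add]
    have h3 : (10 * A) * (10 * A) ≤ 2^(10 * A) * 2^(10 * A) := Nat.mul_le_mul h1.le h1.le
    nlinarith
  · exact Nat.mul_le_mul_right _ hA1
  · show (46 + 2 * ((20 * A : ℕ) : ℝ)) * p + 3 ≤ 2 * ((4 * (A * (20 * A + 50)) : ℕ) : ℝ) * (p - 1)
    push_cast
    have h4 : (0:ℝ) ≤ A := Nat.cast_nonneg _
    have e : 2 * (4 * ((A:ℝ) * (20 * A + 50))) * (p - 1) = 8 * (20 * A + 50) * (A * (p - 1)) := by ring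
    rw [e]
    have h5 : 8 * (20 * (A:ℝ) + 50) * 1 ≤ 8 * (20 * A + 50) * (A * (p - 1)) :=
      mul_le_mul_of_nonneg_left hA3 (by positivity)
    have h6 : (46 + 2 * (20 * (A:ℝ))) * p ≤ (46 + 2 * (20 * (A:ℝ))) * 2 :=
      mul_le_mul_of_nonneg_left hp2 (by positivity)
    linarith

/-- the constants -/
theorem cst (D : Prm) (n : ℕ) (hn : 1 ≤ n) : Cst (Real.sqrt n) (2^D.β) D.δ D.n1 D.K0
    (2^(46 + 2*D.q) / (2^D.β)^2) (8 / 2^D.β) := by
  have hn' : (0:ℝ) < n := by exact_mod_cast hn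
  have hβ : 20000 ≤ D.β := (PP D 0 0 0).β_pos
  have hα := D.hα
  have hβα := D.hβ
  have h1 : (2:ℝ)^52 ≤ 2^D.β := pow_le_pow_right₀ (by norm_num) (by omega)
  have h0 : (0:ℝ) < 2^D.β := by positivity
  obtain ⟨e, he⟩ : ∃ e, D.β = 43 + 2 * D.q + e := ⟨D.β - 43 - 2 * D.q, by omega⟩
  have e3 : (8:ℝ) = 2^3 := by norm_num
  have h2 : (8 / (2:ℝ)^D.β) / (2^(46 + 2*D.q) / (2^D.β)^2) = 2^e := by
    have e4 : (2:ℝ)^D.β * 2^3 = 2^(46 + 2*D.q) * 2^e := by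
      rw [← pow_add, ← pow_add]; congr 1; omega
    have e5 : (8 / (2:ℝ)^D.β) / (2^(46 + 2*D.q) / (2^D.β)^2) = (2:ℝ)^D.β * 2^3 / 2^(46 + 2*D.q) := by
      rw [e3]
      field_simp
    rw [e5, e4]
    field_simp
  have hs0 : (0:ℝ) < 2^(46 + 2*D.q) / (2^D.β)^2 := by positivity
  refine ⟨Real.sqrt_pos.mpr hn', ?_, ?_, ?_, hs0, ?_, ?_, ?_, ?_, ?_⟩
  · refine le_trans ?_ h1
    norm_num
  · unfold Prm.δ; positivity
  · unfold Prm.n1; positivity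
  · have h3 : (1:ℝ) ≤ (8 / (2:ℝ)^D.β) / (2^(46 + 2*D.q) / (2^D.β)^2) := by
      rw [h2]; exact one_le_pow₀ (by norm_num)
    rwa [le_div_iff₀ hs0, one_mul] at h3
  · rw [div_lt_one h0]
    refine lt_of_lt_of_le ?_ h1
    norm_num
  · rw [div_mul_cancel₀ _ h0.ne']
  · rw [h2, Real.log_pow]
    have hlog : 0 < Real.log 2 := Real.log_pos (by norm_num)
    have h3 : (4:ℝ) * e ≤ 2^D.β - 1 := by
      have h4 : (e:ℝ) + 1 ≤ 2^e := by exact_mod_cast Nat.lt_two_pow_self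
      have h5 : (2:ℝ)^D.β = 2^(43 + 2*D.q) * 2^e := by rw [he, pow_add]
      have h6 : (2:ℝ)^2 ≤ 2^(43 + 2*D.q) := pow_le_pow_right₀ (by norm_num) (by omega)
      have h7 : (0:ℝ) ≤ e := Nat.cast_nonneg _
      rw [h5]
      nlinarith
    calc 4 * ((e:ℝ) * Real.log 2) = (4 * e) * Real.log 2 := by ring
      _ ≤ _ := mul_le_mul_of_nonneg_right h3 hlog.le
  · have e1 : (D.K0 : ℝ) + 1 ≤ 2^(31 + 2*D.q) := by
      unfold Prm.K0
      push_cast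
      have : (2:ℝ)^(31 + 2*D.q) = 2 * 2^(30 + 2*D.q) := by
        rw [← pow_succ']; congr 1; ring
      rw [this]
      have h8 : (2:ℝ)^1 ≤ 2^(30 + 2*D.q) := pow_le_pow_right₀ (by norm_num) (by omega)
      linarith
    have e2 : (2:ℝ) / (2^(46 + 2*D.q) / (2^D.β)^2) = 2^(2*D.β - 45 - 2*D.q) := by
      have e6 : ((2:ℝ)^D.β)^2 * 2 = 2^(2*D.β - 45 - 2*D.q) * 2^(46 + 2*D.q) := by
        rw [← pow_mul, ← pow_succ, ← pow_add]
        congr 1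
        omega
      rw [div_div_eq_mul_div, div_eq_iff (by positivity), ← e6]
      ring
    rw [e2]
    refine (mul_le_mul_of_nonneg_left e1 (by positivity)).trans ?_
    unfold Prm.n1
    push_cast
    have e7 : (2:ℝ)^(2*D.β - 45 - 2*D.q) * 2^(31 + 2*D.q) = 2^(2*D.β - 14) := by
      rw [← pow_add]; congr 1; omega
    have e8 : (2:ℝ)^(2*D.β - 13) = 2 * 2^(2*D.β - 14) := by
      rw [← pow_succ']; congr 1; omega
    rw [e7, e8]
    have h9 : (0:ℝ) ≤ 2^(2*D.β - 14) := by positivity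
    linarith

theorem s_bound (β r : ℕ) (q : ℝ) (h : r * q + 3 ≤ 2 * β * (q - 1)) (k : ℕ) :
    (((2:ℝ)^r / (2^β)^2)^k)^q * (2^((2*β+1)*k) + 1) * 2^(k+2) ≤ 8 * (1/2)^k := by
  have h2 : (0:ℝ) < 2 := by norm_num
  have e1 : (2:ℝ)^r / (2^β)^2 = (2:ℝ)^((r:ℝ) - 2*β) := by
    rw [Real.rpow_sub h2]
    congr 1
    · rw [Real.rpow_natCast]
    · rw [← pow_mul, ← Real.rpow_natCast]
      congr 1
      push_cast
      ring
  have e2 : (((2:ℝ)^r / (2^β)^2)^k)^q = (2:ℝ)^(((r:ℝ) - 2*β)*q*k) := by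
    rw [e1, ← Real.rpow_natCast, ← Real.rpow_mul h2.le, ← Real.rpow_mul h2.le]
    congr 1
    ring
  have e3 : (2:ℝ)^((2*β+1)*k) + 1 ≤ 2 * 2^((2*β+1)*k) := by
    have : (1:ℝ) ≤ 2^((2*β+1)*k) := one_le_pow₀ (by norm_num)
    linarith
  have e4 : (2:ℝ)^((2*β+1)*k) = (2:ℝ)^((2*(β:ℝ)+1)*k) := by
    rw [← Real.rpow_natCast]
    congr 1
    push_cast
    ring
  have e5 : (2:ℝ)^(k+2) = 4 * (2:ℝ)^(k:ℝ) := by
    rw [pow_add, Real.rpow_natCast]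
    ring
  have e6 : (1/2:ℝ)^k = (2:ℝ)^(-(k:ℝ)) := by
    rw [Real.rpow_neg h2.le, Real.rpow_natCast, one_div, inv_pow]
  have hpos1 : (0:ℝ) < (2:ℝ)^(((r:ℝ) - 2*β)*q*k) := Real.rpow_pos_of_pos h2 _
  rw [e2, e5, e6]
  calc (2:ℝ)^(((r:ℝ) - 2*β)*q*k) * (2^((2*β+1)*k) + 1) * (4 * (2:ℝ)^(k:ℝ))
      ≤ (2:ℝ)^(((r:ℝ) - 2*β)*q*k) * (2 * 2^((2*β+1)*k)) * (4 * (2:ℝ)^(k:ℝ)) := by
        gcongr
    _ = 8 * ((2:ℝ)^(((r:ℝ) - 2*β)*q*k) * (2:ℝ)^((2*(β:ℝ)+1)*k) * (2:ℝ)^(k:ℝ)) := by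
        rw [e4]; ring
    _ = 8 * (2:ℝ)^((((r:ℝ) - 2*β)*q*k) + ((2*(β:ℝ)+1)*k) + (k:ℝ)) := by
        rw [← Real.rpow_add h2, ← Real.rpow_add h2]
    _ ≤ 8 * (2:ℝ)^(-(k:ℝ)) := by
        apply mul_le_mul_of_nonneg_left _ (by norm_num)
        apply Real.rpow_le_rpow_of_exponent_le (by norm_num)
        have hk : (0:ℝ) ≤ k := Nat.cast_nonneg _
        have h3 : ((r:ℝ) - 2*β)*q + (2*(β:ℝ)+1) + 1 + 1 ≤ 0 := by nlinarith
        nlinarith

/-- **upper bound** -/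
theorem upper (q : ℝ≥0) (hq : 1 < q) (hq2 : q ≤ 2) {n : ℕ} (hn : 512 ≤ n) {Ω : Type*}
    [MeasurableSpace Ω] (P : Measure Ω) [IsProbabilityMeasure P] (B : ℝ≥0 → Ω → E n)
    (hB : IsBM P B) :
    ∀ᵐ ω ∂P, ∃ W : Wt (Tr (path B ω)), (∃ η : ℝ≥0 ≃ₜ ℝ≥0, ∀ (x a c : Tr (path B ω)) (t : ℝ≥0),
      dist x a ≤ t * dist x c →
      dist (W.homeo x) (W.homeo a) ≤ η t * dist (W.homeo x) (W.homeo c)) ∧
      dimH (Set.univ : Set W.Y) ≤ q := by
  have hq' : (1:ℝ) < q := by exact_mod_cast hq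
  have hq2' : (q:ℝ) ≤ 2 := by exact_mod_cast hq2
  obtain ⟨D, hD⟩ := exists_prm q hq' hq2'
  obtain ⟨β, hβD⟩ : ∃ β : ℕ, β = D.β := ⟨_, rfl⟩
  have hβ : 20000 ≤ β := by rw [hβD]; exact (PP D 0 0 0).β_pos
  obtain ⟨s, hs⟩ : ∃ s : ℝ, s = 2^(46 + 2*D.q) / (2^β)^2 := ⟨_, rfl⟩
  obtain ⟨τ, hτ⟩ : ∃ τ : ℝ, τ = 8 / 2^β := ⟨_, rfl⟩
  obtain ⟨cr, hcr⟩ : ∃ cr : ℝ, cr = (τ / s)^(q:ℝ) := ⟨_, rfl⟩
  have hn2 : 2 ≤ n := by omega
  have C : Cst (Real.sqrt n) (2^β) D.δ D.n1 D.K0 s τ := by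
    rw [hs, hτ, hβD]; exact cst D n (by omega)
  have hts : 1 ≤ τ / s := by
    rw [le_div_iff₀ C.hs, one_mul]; exact C.hsτ
  have hcr1 : 1 ≤ cr := by rw [hcr]; exact Real.one_le_rpow hts q.2
  obtain ⟨c0, hc0⟩ : ∃ c0 : ℝ≥0∞, c0 = ENNReal.ofReal cr := ⟨_, rfl⟩
  have hc01 : 1 ≤ c0 := by rw [hc0, ← ENNReal.ofReal_one]; exact ENNReal.ofReal_le_ofReal hcr1
  have hcr2 : cr ≤ 2^(2*β) := by
    have h1 : τ / s ≤ 2^β := by
      rw [div_le_iff₀ C.hs, hτ, hs]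
      have e : (2:ℝ)^β * (2^(46 + 2*D.q) / (2^β)^2) = 2^(46 + 2*D.q) / 2^β := by
        field_simp
      rw [e]
      apply div_le_div_of_nonneg_right _ (by positivity)
      calc (8:ℝ) = 2^3 := by norm_num
        _ ≤ _ := pow_le_pow_right₀ (by norm_num) (by omega)
    rw [hcr]
    calc (τ / s)^(q:ℝ) ≤ (τ / s)^(2:ℝ) := Real.rpow_le_rpow_of_exponent_le hts hq2'
      _ = (τ / s)^2 := by rw [← Real.rpow_natCast]; norm_num
      _ ≤ (2^β)^2 := pow_le_pow_left₀ (by linarith) h1 2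
      _ = 2^(2*β) := by rw [← pow_mul, mul_comm]
  have hc09 : c0^9 * ENNReal.ofReal ((1/2 : ℝ)^(20*D.β)) ≤ 2⁻¹ := by
    rw [hc0, ← ENNReal.ofReal_pow (by linarith), ← ENNReal.ofReal_mul (by positivity)]
    have e : (2⁻¹ : ℝ≥0∞) = ENNReal.ofReal (1/2) := by
      rw [one_div, ENNReal.ofReal_inv_of_pos (by norm_num)]
      norm_num
    rw [e]
    apply ENNReal.ofReal_le_ofReal
    rw [← hβD]
    calc cr^9 * (1/2 : ℝ)^(20*β) ≤ (2^(2*β))^9 * (1/2 : ℝ)^(20*β) :=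
          mul_le_mul_of_nonneg_right (pow_le_pow_left₀ (by linarith) hcr2 9) (by positivity)
      _ = 2^(18*β) * (1/2 : ℝ)^(20*β) := by rw [← pow_mul]; congr 2; ring
      _ ≤ (1/2)^1 := Par.pw (by omega)
      _ = 1/2 := pow_one _
  -- the majorants
  have hmaj : ∀ k i : ℕ, ∃ H : Ω → ℝ≥0∞, Measurable H ∧ ∫⁻ ω, H ω ∂P ≤ 2^(k+2) ∧
      (i ≤ 2^((2*β+1)*k) → ∀ ω, (Continuous fun t => B t ω) →
      c0^(badCount (path B ω) (Real.sqrt n) (2^β) (2^(2*D.α)) D.δ D.n1 D.K0 k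
        ((i:ℝ)/2^((2*β+1)*k))) ≤ H ω) := by
    intro k i
    by_cases hi : i ≤ 2^((2*β+1)*k)
    · obtain ⟨H, h1, h2, h3⟩ := majorant hB hn D k ((2*β+1)*k) i hi c0 hc01 hc09
      rw [← hβD] at h3
      exact ⟨H, h1, h2, fun _ => h3⟩
    · exact ⟨fun _ => 0, measurable_const, by simp, fun h => absurd h hi⟩
  choose H hH1 hH2 hH3 using hmaj
  obtain ⟨k1, hk1⟩ : ∃ k1 : ℕ, k1 = max 4 (1152 * (2*β+1)) := ⟨_, rfl⟩
  have hk1' : ∀ k, k1 ≤ k → 1 ≤ k ∧ 1152 * ((2*β+1)*k) ≤ 2^k := by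
    intro k hk
    have h4 : 4 ≤ k := le_trans (le_trans (le_max_left _ _) hk1.ge) hk
    have h5 : 1152 * (2*β+1) ≤ k := le_trans (le_trans (le_max_right _ _) hk1.ge) hk
    refine ⟨by omega, le_trans ?_ (sq_le_two_pow k h4)⟩
    rw [← mul_assoc]
    exact Nat.mul_le_mul_right _ h5
  have hcov : ∀ k : ℕ, ∃ H : Ω → ℝ≥0∞, Measurable H ∧ ∫⁻ ω, H ω ∂P ≤ ENNReal.ofReal (2 * (1/2)^k) ∧
      (k1 ≤ k → ∀ ω, (Continuous fun t => B t ω) →
      (∃ u ∈ Set.Icc (0:ℝ) 1, Real.sqrt n / ((2:ℝ)^β)^k <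
        dist (path B ω ((⌊u * 2^((2*β+1)*k)⌋₊ : ℝ) / 2^((2*β+1)*k))) (path B ω u)) → 1 ≤ H ω) := by
    intro k
    by_cases hk : k1 ≤ k
    · obtain ⟨H, h1, h2, h3⟩ := cover_majorant hB hn2 β k ((2*β+1)*k) (hk1' k hk).1 rfl (hk1' k hk).2
      exact ⟨H, h1, h2, fun _ => h3⟩
    · exact ⟨fun _ => 0, measurable_const, by simp, fun h => absurd h hk⟩
  choose H' hH'1 hH'2 hH'3 using hcov
  obtain ⟨A, hA⟩ : ∃ A : ℕ → Ω → ℝ≥0∞, A = fun k ω => ENNReal.ofReal ((s^k)^(q:ℝ)) *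
      ∑ i ∈ Finset.range (2^((2*β+1)*k) + 1), H k i ω + H' k ω := ⟨_, rfl⟩
  have hAm : ∀ k, Measurable (A k) := by
    intro k
    rw [hA]
    exact ((Finset.measurable_fun_sum _ fun i _ => hH1 k i).const_mul _).add (hH'1 k)
  have hAint : ∀ k, ∫⁻ ω, A k ω ∂P ≤ ENNReal.ofReal (10 * (1/2)^k) := by
    intro k
    have h1 : ∫⁻ ω, A k ω ∂P = ENNReal.ofReal ((s^k)^(q:ℝ)) *
        ∑ i ∈ Finset.range (2^((2*β+1)*k) + 1), ∫⁻ ω, H k i ω ∂P + ∫⁻ ω, H' k ω ∂P := by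
      rw [hA]
      rw [lintegral_add_right _ (hH'1 k), lintegral_const_mul _
        (Finset.measurable_fun_sum _ fun i _ => hH1 k i), lintegral_finsetSum _ fun i _ => hH1 k i]
    rw [h1]
    have h2 : ∑ i ∈ Finset.range (2^((2*β+1)*k) + 1), ∫⁻ ω, H k i ω ∂P ≤
        ENNReal.ofReal ((2^((2*β+1)*k) + 1) * 2^(k+2)) := by
      refine (Finset.sum_le_sum fun i _ => hH2 k i).trans (le_of_eq ?_)
      rw [Finset.sum_const, Finset.card_range, nsmul_eq_mul, ENNReal.ofReal_mul (by positivity)]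
      congr 1
      · rw [← ENNReal.ofReal_natCast]
        congr 1
        push_cast
        ring
      · rw [ENNReal.ofReal_pow (by norm_num)]
        norm_num
    have h3 : ENNReal.ofReal ((s^k)^(q:ℝ)) * ENNReal.ofReal ((2^((2*β+1)*k) + 1) * 2^(k+2)) ≤
        ENNReal.ofReal (8 * (1/2)^k) := by
      rw [← ENNReal.ofReal_mul (by have := C.hs; positivity)]
      apply ENNReal.ofReal_le_ofReal
      have := s_bound β (46 + 2*D.q) q (by rw [hβD]; push_cast; exact hD) k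
      rw [← hs] at this
      rwa [← mul_assoc]
    calc _ ≤ ENNReal.ofReal ((s^k)^(q:ℝ)) * ENNReal.ofReal ((2^((2*β+1)*k) + 1) * 2^(k+2)) +
          ENNReal.ofReal (2 * (1/2)^k) := add_le_add (mul_le_mul_right h2 _) (hH'2 k)
      _ ≤ ENNReal.ofReal (8 * (1/2)^k) + ENNReal.ofReal (2 * (1/2)^k) := add_le_add_left h3 _
      _ = ENNReal.ofReal (10 * (1/2)^k) := by
          rw [← ENNReal.ofReal_add (by positivity) (by positivity)]
          congr 1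
          ring
  have hfin : ∫⁻ ω, ∑' k, A k ω ∂P ≠ ∞ := by
    rw [lintegral_tsum fun k => (hAm k).aemeasurable]
    refine ne_top_of_le_ne_top ?_ (ENNReal.tsum_le_tsum hAint)
    have hsum : Summable fun k : ℕ => 10 * (1/2:ℝ)^k :=
      (summable_geometric_of_lt_one (by norm_num) (by norm_num)).mul_left _
    exact hsum.tsum_ofReal_ne_top
  have hae := ae_lt_top (Measurable.tsum hAm) hfin
  filter_upwards [hae, hB.cont] with ω hω hcont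
  have hlim := ENNReal.tendsto_atTop_zero_of_tsum_ne_top hω.ne
  refine det (M := 2^(2*D.α)) (path B ω) (continuous_path hcont).continuousOn C q ?_
  intro ε k0 hε
  have hε' : (0:ℝ≥0∞) < min (ENNReal.ofReal ε) 1 := lt_min (ENNReal.ofReal_pos.mpr hε) (by norm_num)
  have hev := (hlim.eventually_lt_const hε').and (eventually_ge_atTop (max k0 k1))
  obtain ⟨k, hk, hkk⟩ := hev.exists
  have hkA1 := lt_of_lt_of_le hk (min_le_left _ _)
  have hkA2 := lt_of_lt_of_le hk (min_le_right _ _)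
  have hkk1 : k1 ≤ k := le_trans (le_max_right _ _) hkk
  refine ⟨k, 2^((2*β+1)*k), le_trans (le_max_left _ _) hkk, by positivity, ?_, ?_⟩
  · intro u hu
    refine ⟨⌊u * 2^((2*β+1)*k)⌋₊, ?_, ?_⟩
    · rw [Finset.mem_range]
      have h1 : u * 2^((2*β+1)*k) ≤ ((2^((2*β+1)*k) : ℕ) : ℝ) := by
        push_cast
        have h0 : (0:ℝ) < 2^((2*β+1)*k) := by positivity
        exact (mul_le_mul_of_nonneg_right hu.2 h0.le).trans (one_mul _).le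
      exact Nat.lt_succ_of_le (Nat.floor_le_of_le h1)
    · by_contra hcon
      push Not at hcon
      have h1 := hH'3 k hkk1 ω hcont ⟨u, hu, by
        push_cast at hcon
        exact hcon⟩
      have h2 : H' k ω ≤ A k ω := by
        rw [hA]
        exact le_add_self
      exact absurd (lt_of_le_of_lt (h1.trans h2) hkA2) (lt_irrefl _)
  · have h1 : ENNReal.ofReal (∑ i ∈ Finset.range (2^((2*β+1)*k) + 1), (s^k * (τ / s)^(badCount
        (path B ω) (Real.sqrt n) (2^β) (2^(2*D.α)) D.δ D.n1 D.K0 k ((i:ℝ) /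
          ((2^((2*β+1)*k) : ℕ) : ℝ))))^(q:ℝ)) ≤ A k ω := by
      have hsp := C.hs
      rw [ENNReal.ofReal_sum_of_nonneg (fun i _ => by positivity), hA]
      refine le_trans ?_ le_self_add
      rw [Finset.mul_sum]
      apply Finset.sum_le_sum
      intro i hi
      rw [Finset.mem_range] at hi
      rw [Real.mul_rpow (by positivity) (by positivity), ENNReal.ofReal_mul (by positivity)]
      apply mul_le_mul_right
      have h2 := hH3 k i (by omega) ω hcont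
      refine le_trans (le_of_eq ?_) h2
      push_cast
      rw [hc0, ← ENNReal.ofReal_pow (by linarith)]
      congr 1
      rw [hcr]
      exact pow_swap (τ / s) (by linarith) q _
    have h3 := lt_of_le_of_lt h1 hkA1
    exact ((ENNReal.ofReal_lt_ofReal_iff hε).mp h3).le

end Pool.Agent.L7h96.CD
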